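import Pool.Agent.LibHZ3.AN1b

/-!
# Row AN1: the tail is a polynomial up to a small error (MEDIUM, 25 min)

`p = ∑_{k<h} C (∑' t, cf n τ_t k) * X ^ k`; `∑' t, kap n τ_t w - p.eval w =
∑' t, (kap n τ_t w - ∑_{k<h} cf n τ_t k w^k)`, rows AN1a (`τ_t ≥ T` since `T₀ ≥ M T`) and AN1b:
`80 · 2 = 160 ≤ 200`.
-/

namespace HZ3

open Finset HZ89 Polynomial

theorem tail_poly {n T M T₀ h : ℕ} (hn : 1 ≤ n) (hT : n ≤ T) (hM : 1 ≤ M) (hT₀ : M * T ≤ T₀)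
    (hh : 1 ≤ h) : ∃ p : ℝ[X], p.natDegree < h ∧ ∀ w : ℝ, 0 ≤ w → w ≤ (n : ℝ) ^ 2 / 4 →
      |∑' t : ℕ, kap n (((t + T₀ + 1 : ℕ) : ℝ) / M) w - p.eval w| ≤
        200 * ((h : ℝ) + 2) ^ 2 * (M : ℝ) ^ 3 * ((n : ℝ) / (2 * T)) ^ (2 * h) := by
  have hT1 : 1 ≤ T := hn.trans hT
  have hMT : M ≤ T₀ := (Nat.le_mul_of_pos_right M hT1).trans hT₀
  have hT₀1 : 1 ≤ T₀ := hM.trans hMT
  obtain ⟨hs1, hs2⟩ := sum_tau hM hT₀1
  have hcf : ∀ k, Summable fun t : ℕ => cf n (((t + T₀ + 1 : ℕ) : ℝ) / M) k :=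
    fun k => cf_summable hM hMT k
  refine ⟨∑ k ∈ range h, C (∑' t : ℕ, cf n (((t + T₀ + 1 : ℕ) : ℝ) / M) k) * X ^ k, ?_,
    fun w hw0 hw => ?_⟩
  · have h1 : (∑ k ∈ range h, C (∑' t : ℕ, cf n (((t + T₀ + 1 : ℕ) : ℝ) / M) k) *
        (X : ℝ[X]) ^ k).natDegree ≤ h - 1 := by
      apply natDegree_sum_le_of_forall_le
      intro k hk
      refine (natDegree_C_mul_X_pow_le _ _).trans ?_
      have := mem_range.1 hk
      omega
    omega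
  · have hsum2 : Summable fun t : ℕ =>
        ∑ k ∈ range h, cf n (((t + T₀ + 1 : ℕ) : ℝ) / M) k * w ^ k :=
      summable_sum fun k _ => (hcf k).mul_right _
    have hev : (∑ k ∈ range h, C (∑' t : ℕ, cf n (((t + T₀ + 1 : ℕ) : ℝ) / M) k) *
        (X : ℝ[X]) ^ k).eval w =
        ∑' t : ℕ, ∑ k ∈ range h, cf n (((t + T₀ + 1 : ℕ) : ℝ) / M) k * w ^ k := by
      rw [eval_finsetSum, Summable.tsum_finsetSum (fun k _ => (hcf k).mul_right _)]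
      refine sum_congr rfl fun k _ => ?_
      rw [eval_mul, eval_C, eval_pow, eval_X, tsum_mul_right]
    have hk := kap_summable (n := n) (T₀ := T₀) hM hw0
    rw [hev, ← hk.tsum_sub hsum2]
    set A : ℝ := 80 * ((h : ℝ) + 2) ^ 2 * ((n : ℝ) / (2 * T)) ^ (2 * h) with hA
    have hA0 : 0 ≤ A := by positivity
    have hMr : (0 : ℝ) < M := by exact_mod_cast hM
    have hbd : ∀ t : ℕ, ‖kap n (((t + T₀ + 1 : ℕ) : ℝ) / M) w -
        ∑ k ∈ range h, cf n (((t + T₀ + 1 : ℕ) : ℝ) / M) k * w ^ k‖ ≤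
        A * (1 / (((t + T₀ + 1 : ℕ) : ℝ) / M) ^ 3) := by
      intro t
      have hτ : (T : ℝ) ≤ ((t + T₀ + 1 : ℕ) : ℝ) / M := by
        rw [le_div_iff₀ hMr]
        have h1 : T * M ≤ t + T₀ + 1 := by
          rw [mul_comm]
          omega
        exact_mod_cast h1
      rw [Real.norm_eq_abs, mul_one_div]
      exact kap_taylor hn hT hτ hw0 hw hh
    have hsA : Summable fun t : ℕ => A * (1 / (((t + T₀ + 1 : ℕ) : ℝ) / M) ^ 3) :=
      hs1.mul_left A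
    have h1 := tsum_of_norm_bounded hsA.hasSum hbd
    rw [Real.norm_eq_abs] at h1
    refine h1.trans ?_
    rw [tsum_mul_left]
    refine (mul_le_mul_of_nonneg_left hs2 hA0).trans ?_
    rw [hA]
    have h2 : 0 ≤ ((h : ℝ) + 2) ^ 2 * (M : ℝ) ^ 3 * ((n : ℝ) / (2 * T)) ^ (2 * h) := by
      positivity
    nlinarith

end HZ3
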