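import Pool.Agent.LibHZ3.Defs2

/-!
# Row AN1a: the Taylor polynomial of the kernel (MEDIUM/STRONG, 40 min)

Put `v = vv n τ = τ (τ + n) ≥ τ²`, `x = w / v`, `0 ≤ x ≤ n² / (4 τ²) ≤ (n / (2 T))² ≤ 1 / 4`, and
`s = ss n τ = 2 τ + n ≤ 3 τ`.  `1 / (v + w)³ = v⁻³ ∑ₖ C(k+2,2) (-x)ᵏ`,
`1 / (v + w)² = v⁻² ∑ₖ (k+1) (-x)ᵏ` (`hasSum_choose_mul_geometric_of_norm_lt_one`, or
`one_div_one_sub_pow_eq...`), so the difference is the tail `k ≥ h` of the series, which is at most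
`s³ v⁻³ x^h ∑_{j≥0} C(h+j+2,2) xʲ + 3 s v⁻² x^h ∑_{j≥0} (h+j+1) xʲ`.
`C(h+j+2,2) ≤ (h+2)² (j+1)² / 2 ≤ (h+2)² C(j+2,2)` (as `h+j+2 ≤ (h+2)(j+1)` and `(j+1)² ≤ 2 C(j+2,2)`),
`∑ C(j+2,2) xʲ = (1-x)⁻³ ≤ 64/27`; `h+j+1 ≤ (h+2)(j+1)`, `∑ (j+1) xʲ = (1-x)⁻² ≤ 16/9`.
Total at most `(27 · 64/27 + 9 · 16/9) (h+2)² x^h / τ³ = 80 (h+2)² x^h / τ³`, and
`x^h ≤ (n / (2 T))^(2 h)`.
-/

namespace HZ3

open Finset HZ89

/-- the Taylor coefficients of the kernel -/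
noncomputable def cf (n τ : ℝ) (k : ℕ) : ℝ :=
  (-1) ^ k * (ss n τ ^ 3 * (((k + 2).choose 2 : ℕ) : ℝ) / vv n τ ^ (k + 3) -
    3 * ss n τ * ((k : ℝ) + 1) / vv n τ ^ (k + 2))

/-- the tail of the binomial series -/
theorem AN1a_tail (p h : ℕ) (A : ℝ)
    (hA : ∀ j : ℕ, (((j + h + p).choose p : ℕ) : ℝ) ≤ A * (((j + p).choose p : ℕ) : ℝ))
    {x : ℝ} (hx0 : 0 ≤ x) (hx : x ≤ 1 / 4) :
    |1 / (1 + x) ^ (p + 1) - ∑ k ∈ range h, (((k + p).choose p : ℕ) : ℝ) * (-x) ^ k| ≤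
      A * x ^ h * (1 / (1 - x) ^ (p + 1)) := by
  have hn1 : ‖(-x)‖ < 1 := by
    rw [norm_neg, Real.norm_eq_abs, abs_of_nonneg hx0]; linarith
  have hn2 : ‖x‖ < 1 := by
    rw [Real.norm_eq_abs, abs_of_nonneg hx0]; linarith
  have hs1 := summable_choose_mul_geometric_of_norm_lt_one p hn1
  have hs2 := summable_choose_mul_geometric_of_norm_lt_one p hn2
  have e1 := tsum_choose_mul_geometric_of_norm_lt_one p hn1
  have e2 := tsum_choose_mul_geometric_of_norm_lt_one p hn2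
  have e3 := hs1.sum_add_tsum_nat_add h
  rw [e1, sub_neg_eq_add] at e3
  have e4 : 1 / (1 + x) ^ (p + 1) - ∑ k ∈ range h, (((k + p).choose p : ℕ) : ℝ) * (-x) ^ k =
      ∑' k : ℕ, (((k + h + p).choose p : ℕ) : ℝ) * (-x) ^ (k + h) := by
    rw [← e3]; ring
  rw [e4, ← Real.norm_eq_abs]
  have hg : HasSum (fun k : ℕ => A * x ^ h * ((((k + p).choose p : ℕ) : ℝ) * x ^ k))
      (A * x ^ h * (1 / (1 - x) ^ (p + 1))) := by
    rw [← e2]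
    exact hs2.hasSum.mul_left _
  refine tsum_of_norm_bounded hg fun k => ?_
  rw [norm_mul, norm_pow, norm_neg, Real.norm_eq_abs, Real.norm_eq_abs, abs_of_nonneg hx0,
    abs_of_nonneg (Nat.cast_nonneg _)]
  calc (((k + h + p).choose p : ℕ) : ℝ) * x ^ (k + h)
      ≤ (A * (((k + p).choose p : ℕ) : ℝ)) * x ^ (k + h) :=
        mul_le_mul_of_nonneg_right (hA k) (pow_nonneg hx0 _)
    _ = A * x ^ h * ((((k + p).choose p : ℕ) : ℝ) * x ^ k) := by rw [pow_add]; ring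

theorem kap_taylor {n T h : ℕ} {τ w : ℝ} (hn : 1 ≤ n) (hT : n ≤ T) (hτ : (T : ℝ) ≤ τ)
    (hw0 : 0 ≤ w) (hw : w ≤ (n : ℝ) ^ 2 / 4) (hh : 1 ≤ h) :
    |kap n τ w - ∑ k ∈ range h, cf n τ k * w ^ k| ≤
      80 * ((h : ℝ) + 2) ^ 2 * ((n : ℝ) / (2 * T)) ^ (2 * h) / τ ^ 3 := by
  have hn' : (1 : ℝ) ≤ n := by exact_mod_cast hn
  have hT' : (n : ℝ) ≤ T := by exact_mod_cast hT
  have hT0 : (0 : ℝ) < T := by linarith
  have hτ0 : 0 < τ := by linarith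
  have hh' : (1 : ℝ) ≤ h := by exact_mod_cast hh
  have hv : τ ^ 2 ≤ vv n τ := by unfold vv; nlinarith
  have hv0 : 0 < vv n τ := by nlinarith [sq_nonneg τ, pow_pos hτ0 2]
  have hs : ss n τ ≤ 3 * τ := by unfold ss; linarith
  have hs0 : 0 < ss n τ := by unfold ss; linarith
  set v := vv n τ with hvd
  set s := ss n τ with hsd
  set x := w / v with hxd
  have hx0 : 0 ≤ x := div_nonneg hw0 hv0.le
  have hxT : x ≤ ((n : ℝ) / (2 * T)) ^ 2 := by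
    rw [hxd, div_le_iff₀ hv0]
    have h1 : (T : ℝ) ^ 2 ≤ v := le_trans (by nlinarith) hv
    have h2 : ((n : ℝ) / (2 * T)) ^ 2 * (T : ℝ) ^ 2 = (n : ℝ) ^ 2 / 4 := by
      field_simp; ring
    have h3 : ((n : ℝ) / (2 * T)) ^ 2 * (T : ℝ) ^ 2 ≤ ((n : ℝ) / (2 * T)) ^ 2 * v :=
      mul_le_mul_of_nonneg_left h1 (sq_nonneg _)
    linarith
  have hx : x ≤ 1 / 4 := by
    have h1 : (n : ℝ) / (2 * T) ≤ 1 / 2 := by
      rw [div_le_div_iff₀ (by positivity) (by norm_num)]; linarith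
    have h2 : 0 ≤ (n : ℝ) / (2 * T) := by positivity
    nlinarith
  -- the two tails
  have t3 := AN1a_tail 2 h (((h : ℝ) + 2) ^ 2) (fun j => by
    have hj : (0 : ℝ) ≤ j := Nat.cast_nonneg j
    rw [Nat.cast_choose_two, Nat.cast_choose_two]
    push_cast
    have h1 : (j : ℝ) + h + 2 ≤ ((h : ℝ) + 2) * (j + 2) := by nlinarith
    have h2 : (j : ℝ) + h + 2 - 1 ≤ ((h : ℝ) + 2) * (j + 2 - 1) := by nlinarith
    have h3 : ((j : ℝ) + h + 2) * (j + h + 2 - 1) ≤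
        (((h : ℝ) + 2) * (j + 2)) * (((h : ℝ) + 2) * (j + 2 - 1)) :=
      mul_le_mul h1 h2 (by linarith) (by positivity)
    linarith) hx0 hx
  have t2 := AN1a_tail 1 h ((h : ℝ) + 2) (fun j => by
    have hj : (0 : ℝ) ≤ j := Nat.cast_nonneg j
    rw [Nat.choose_one_right, Nat.choose_one_right]
    push_cast
    nlinarith) hx0 hx
  have hx1 : (0 : ℝ) < 1 - x := by linarith
  have b3 : 1 / (1 - x) ^ (2 + 1) ≤ 64 / 27 := by
    have : (27 / 64 : ℝ) ≤ (1 - x) ^ (2 + 1) := by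
      calc (27 / 64 : ℝ) = (3 / 4) ^ (2 + 1) := by norm_num
        _ ≤ (1 - x) ^ (2 + 1) := pow_le_pow_left₀ (by norm_num) (by linarith) _
    exact (one_div_le_one_div_of_le (by norm_num) this).trans (by norm_num)
  have b2 : 1 / (1 - x) ^ (1 + 1) ≤ 16 / 9 := by
    have : (9 / 16 : ℝ) ≤ (1 - x) ^ (1 + 1) := by
      calc (9 / 16 : ℝ) = (3 / 4) ^ (1 + 1) := by norm_num
        _ ≤ (1 - x) ^ (1 + 1) := pow_le_pow_left₀ (by norm_num) (by linarith) _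
    exact (one_div_le_one_div_of_le (by norm_num) this).trans (by norm_num)
  set R3 := 1 / (1 + x) ^ (2 + 1) - ∑ k ∈ range h, (((k + 2).choose 2 : ℕ) : ℝ) * (-x) ^ k with hR3
  set R2 := 1 / (1 + x) ^ (1 + 1) - ∑ k ∈ range h, (((k + 1).choose 1 : ℕ) : ℝ) * (-x) ^ k with hR2
  have hxh : 0 ≤ x ^ h := pow_nonneg hx0 _
  have c3 : |R3| ≤ 64 / 27 * (((h : ℝ) + 2) ^ 2 * x ^ h) := by
    refine t3.trans ?_
    have := mul_le_mul_of_nonneg_left b3 (show (0 : ℝ) ≤ ((h : ℝ) + 2) ^ 2 * x ^ h by positivity)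
    linarith
  have c2 : |R2| ≤ 16 / 9 * (((h : ℝ) + 2) ^ 2 * x ^ h) := by
    refine t2.trans ?_
    have h1 := mul_le_mul_of_nonneg_left b2 (show (0 : ℝ) ≤ ((h : ℝ) + 2) * x ^ h by positivity)
    have h2 : ((h : ℝ) + 2) * x ^ h ≤ ((h : ℝ) + 2) ^ 2 * x ^ h :=
      mul_le_mul_of_nonneg_right (by nlinarith) hxh
    linarith
  have key : kap n τ w - ∑ k ∈ range h, cf n τ k * w ^ k =
      s ^ 3 / v ^ 3 * R3 - 3 * s / v ^ 2 * R2 := by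
    have hw' : w = x * v := by rw [hxd, div_mul_cancel₀ _ hv0.ne']
    have e1 : kap n τ w = s ^ 3 / v ^ 3 * (1 / (1 + x) ^ (2 + 1)) -
        3 * s / v ^ 2 * (1 / (1 + x) ^ (1 + 1)) := by
      unfold kap
      rw [← hvd, ← hsd, hw']
      have h1 : v + x * v = v * (1 + x) := by ring
      rw [h1, mul_pow, mul_pow]
      have h2 : (1 : ℝ) + x ≠ 0 := by linarith
      field_simp
      try ring
    have e2 : ∀ k : ℕ, cf n τ k * w ^ k = s ^ 3 / v ^ 3 * ((((k + 2).choose 2 : ℕ) : ℝ) * (-x) ^ k) -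
        3 * s / v ^ 2 * ((((k + 1).choose 1 : ℕ) : ℝ) * (-x) ^ k) := by
      intro k
      unfold cf
      rw [← hvd, ← hsd, hw', mul_pow, Nat.choose_one_right, neg_pow x, pow_add v k 3, pow_add v k 2]
      push_cast
      field_simp
    rw [e1, Finset.sum_congr rfl fun k _ => e2 k, Finset.sum_sub_distrib, ← Finset.mul_sum,
      ← Finset.mul_sum, hR3, hR2]
    ring
  have d3 : s ^ 3 / v ^ 3 ≤ 27 / τ ^ 3 := by
    have h1 : s ^ 3 ≤ (3 * τ) ^ 3 := pow_le_pow_left₀ hs0.le hs 3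
    have h2 : (τ ^ 2) ^ 3 ≤ v ^ 3 := pow_le_pow_left₀ (sq_nonneg _) hv 3
    rw [div_le_div_iff₀ (by positivity) (by positivity)]
    calc s ^ 3 * τ ^ 3 ≤ (3 * τ) ^ 3 * τ ^ 3 := mul_le_mul_of_nonneg_right h1 (by positivity)
      _ = 27 * (τ ^ 2) ^ 3 := by ring
      _ ≤ 27 * v ^ 3 := by linarith
  have d2 : 3 * s / v ^ 2 ≤ 9 / τ ^ 3 := by
    have h2 : (τ ^ 2) ^ 2 ≤ v ^ 2 := pow_le_pow_left₀ (sq_nonneg _) hv 2
    rw [div_le_div_iff₀ (by positivity) (by positivity)]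
    calc 3 * s * τ ^ 3 ≤ 3 * (3 * τ) * τ ^ 3 := mul_le_mul_of_nonneg_right (by linarith) (by positivity)
      _ = 9 * (τ ^ 2) ^ 2 := by ring
      _ ≤ 9 * v ^ 2 := by linarith
  have hxp : x ^ h ≤ ((n : ℝ) / (2 * T)) ^ (2 * h) := by
    rw [pow_mul]; exact pow_le_pow_left₀ hx0 hxT h
  have hY : 0 ≤ ((h : ℝ) + 2) ^ 2 * x ^ h := by positivity
  rw [key]
  calc |s ^ 3 / v ^ 3 * R3 - 3 * s / v ^ 2 * R2|
      ≤ |s ^ 3 / v ^ 3 * R3| + |3 * s / v ^ 2 * R2| := abs_sub _ _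
    _ = s ^ 3 / v ^ 3 * |R3| + 3 * s / v ^ 2 * |R2| := by
        rw [abs_mul, abs_mul, abs_of_nonneg (by positivity : 0 ≤ s ^ 3 / v ^ 3),
          abs_of_nonneg (by positivity : 0 ≤ 3 * s / v ^ 2)]
    _ ≤ 27 / τ ^ 3 * (64 / 27 * (((h : ℝ) + 2) ^ 2 * x ^ h)) +
        9 / τ ^ 3 * (16 / 9 * (((h : ℝ) + 2) ^ 2 * x ^ h)) :=
        add_le_add (mul_le_mul d3 c3 (abs_nonneg _) (by positivity))
          (mul_le_mul d2 c2 (abs_nonneg _) (by positivity))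
    _ = 80 * ((h : ℝ) + 2) ^ 2 * x ^ h / τ ^ 3 := by ring
    _ ≤ 80 * ((h : ℝ) + 2) ^ 2 * ((n : ℝ) / (2 * T)) ^ (2 * h) / τ ^ 3 := by
        apply div_le_div_of_nonneg_right _ (by positivity)
        exact mul_le_mul_of_nonneg_left hxp (by positivity)

end HZ3
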