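import Pool.Agent.LibHZ3.AN1a

/-!
# Row AN1b: summability (MEDIUM, 30 min)

With `τ_t = (t + T₀ + 1) / M`, `T₀ ≥ M T ≥ M`, so `τ_t > 1`.  `∑' 1 / τ_t³ = M³ ∑' 1 / (t + T₀ + 1)³
≤ 2 M³` (`T₀ ≥ 1`; e.g. `1 / m³ ≤ 1 / (m (m - 1)) = 1/(m-1) - 1/m` for `m ≥ 2`, telescoping).
`|cf n τ k| ≤ C_k / τ³` (`s ≤ (2 + n) τ`, `v ≥ τ²`, `τ ≥ 1`), and `|kap n τ w| ≤ C / τ³`.
-/

namespace HZ3

open Finset HZ89

theorem AN1b_eq (T₀ M : ℕ) (t : ℕ) :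
    1 / (((t + T₀ + 1 : ℕ) : ℝ) / M) ^ 3 = (M : ℝ) ^ 3 * (1 / ((t + (T₀ + 1) : ℕ) : ℝ) ^ 3) := by
  have h1 : ((t + T₀ + 1 : ℕ) : ℝ) = ((t + (T₀ + 1) : ℕ) : ℝ) := by
    rw [add_assoc]
  rw [h1, div_pow, one_div_div, mul_one_div]

theorem AN1b_sum (T₀ M : ℕ) : Summable (fun t : ℕ => 1 / (((t + T₀ + 1 : ℕ) : ℝ) / M) ^ 3) := by
  have h1 : Summable (fun m : ℕ => 1 / (m : ℝ) ^ 3) :=
    Real.summable_one_div_nat_pow.2 (by norm_num)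
  have h2 := ((summable_nat_add_iff (T₀ + 1)).2 h1).mul_left ((M : ℝ) ^ 3)
  refine h2.congr fun t => ?_
  rw [AN1b_eq]

theorem AN1b_pow {s v τ A : ℝ} (hτ : 0 < τ) (hs0 : 0 ≤ s) (hs : s ≤ A * τ) (hv : τ ^ 2 ≤ v) :
    s ^ 3 / v ^ 3 ≤ A ^ 3 * (1 / τ ^ 3) ∧ s / v ^ 2 ≤ A * (1 / τ ^ 3) := by
  have hv0 : 0 < v := lt_of_lt_of_le (by positivity) hv
  constructor
  · calc s ^ 3 / v ^ 3 ≤ (A * τ) ^ 3 / (τ ^ 2) ^ 3 := by
          apply div_le_div₀ (pow_nonneg (hs0.trans hs) 3) (pow_le_pow_left₀ hs0 hs 3) (by positivity)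
            (pow_le_pow_left₀ (by positivity) hv 3)
      _ = A ^ 3 * (1 / τ ^ 3) := by
          field_simp
  · calc s / v ^ 2 ≤ (A * τ) / (τ ^ 2) ^ 2 := by
          apply div_le_div₀ (by linarith) hs (by positivity)
            (pow_le_pow_left₀ (by positivity) hv 2)
      _ = A * (1 / τ ^ 3) := by
          field_simp

theorem sum_tau {T₀ M : ℕ} (hM : 1 ≤ M) (hT₀ : 1 ≤ T₀) :
    Summable (fun t : ℕ => 1 / (((t + T₀ + 1 : ℕ) : ℝ) / M) ^ 3) ∧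
      ∑' t : ℕ, 1 / (((t + T₀ + 1 : ℕ) : ℝ) / M) ^ 3 ≤ 2 * (M : ℝ) ^ 3 := by
  refine ⟨AN1b_sum T₀ M, ?_⟩
  have hT0 : (1 : ℝ) ≤ T₀ := by exact_mod_cast hT₀
  have hM3 : 0 ≤ (M : ℝ) ^ 3 := by positivity
  have key : ∀ N : ℕ, ∑ t ∈ range N, 1 / (((t + T₀ + 1 : ℕ) : ℝ) / M) ^ 3 ≤
      (M : ℝ) ^ 3 * (1 / (T₀ : ℝ) - 1 / ((N : ℝ) + T₀)) := by
    intro N
    induction N with
    | zero => simp
    | succ N ih =>
      rw [sum_range_succ, AN1b_eq]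
      have hm : (0 : ℝ) < (N : ℝ) + T₀ := by positivity
      have h1 : 1 / ((N + (T₀ + 1) : ℕ) : ℝ) ^ 3 ≤
          1 / ((N : ℝ) + T₀) - 1 / (((N + 1 : ℕ) : ℝ) + T₀) := by
        push_cast
        have h2 : 1 / ((N : ℝ) + T₀) - 1 / ((N : ℝ) + 1 + T₀) =
            1 / (((N : ℝ) + T₀) * ((N : ℝ) + 1 + T₀)) := by
          field_simp
          ring
        rw [h2]
        apply one_div_le_one_div_of_le (by positivity)
        have h3 : (N : ℝ) + (T₀ + 1) = (N : ℝ) + T₀ + 1 := by ring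
        have h4 : (N : ℝ) + 1 + T₀ = (N : ℝ) + T₀ + 1 := by ring
        rw [h3, h4]
        nlinarith [mul_pos hm hm, mul_pos (mul_pos hm hm) hm]
      nlinarith [mul_le_mul_of_nonneg_left h1 hM3]
  have hall : ∀ N : ℕ, ∑ t ∈ range N, 1 / (((t + T₀ + 1 : ℕ) : ℝ) / M) ^ 3 ≤
      2 * (M : ℝ) ^ 3 := by
    intro N
    refine (key N).trans ?_
    have h1 : 1 / (T₀ : ℝ) ≤ 1 := by
      rw [div_le_one (by linarith)]
      exact hT0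
    have h2 : 0 ≤ 1 / ((N : ℝ) + T₀) := by positivity
    nlinarith [mul_le_mul_of_nonneg_left h1 hM3, mul_nonneg hM3 h2]
  exact Real.tsum_le_of_sum_range_le (fun t => by positivity) hall

theorem cf_summable {n T₀ M : ℕ} (hM : 1 ≤ M) (hT₀ : M ≤ T₀) (k : ℕ) :
    Summable fun t : ℕ => cf n (((t + T₀ + 1 : ℕ) : ℝ) / M) k := by
  have hMR : (1 : ℝ) ≤ M := by exact_mod_cast hM
  have hM0 : (0 : ℝ) < M := by linarith
  have hn : (0 : ℝ) ≤ n := Nat.cast_nonneg n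
  refine Summable.of_norm_bounded (g := fun t : ℕ =>
    ((2 + (n : ℝ)) ^ 3 * (((k + 2).choose 2 : ℕ) : ℝ) + 3 * ((k : ℝ) + 1) * (2 + n)) *
      (1 / (((t + T₀ + 1 : ℕ) : ℝ) / M) ^ 3)) ((AN1b_sum T₀ M).mul_left _) fun t => ?_
  set τ : ℝ := ((t + T₀ + 1 : ℕ) : ℝ) / M with hτd
  have hτ : 1 ≤ τ := by
    rw [hτd, le_div_iff₀ hM0, one_mul]
    exact_mod_cast (by omega : M ≤ t + T₀ + 1)
  have hτ0 : 0 < τ := by linarith
  have hs : ss n τ ≤ (2 + n) * τ := by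
    unfold ss
    nlinarith
  have hs0 : 0 ≤ ss n τ := by
    unfold ss
    linarith
  have hv : τ ^ 2 ≤ vv n τ := by
    unfold vv
    nlinarith [mul_nonneg hτ0.le hn]
  have hv1 : 1 ≤ vv n τ := by nlinarith
  have hv0 : 0 < vv n τ := by linarith
  obtain ⟨h1, h2⟩ := AN1b_pow hτ0 hs0 hs hv
  have h3 : ss n τ ^ 3 / vv n τ ^ (k + 3) ≤ (2 + (n : ℝ)) ^ 3 * (1 / τ ^ 3) := by
    refine le_trans ?_ h1
    exact div_le_div_of_nonneg_left (by positivity) (by positivity)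
      (pow_le_pow_right₀ hv1 (by omega))
  have h4 : ss n τ / vv n τ ^ (k + 2) ≤ (2 + (n : ℝ)) * (1 / τ ^ 3) := by
    refine le_trans ?_ h2
    exact div_le_div_of_nonneg_left hs0 (by positivity)
      (pow_le_pow_right₀ hv1 (by omega))
  have h5 : 0 ≤ ss n τ ^ 3 / vv n τ ^ (k + 3) := by positivity
  have h6 : 0 ≤ ss n τ / vv n τ ^ (k + 2) := by positivity
  have hc : (0 : ℝ) ≤ (((k + 2).choose 2 : ℕ) : ℝ) := Nat.cast_nonneg _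
  have hk : (0 : ℝ) ≤ (k : ℝ) + 1 := by positivity
  have h7 : ‖cf n τ k‖ = |(((k + 2).choose 2 : ℕ) : ℝ) * (ss n τ ^ 3 / vv n τ ^ (k + 3)) -
      3 * ((k : ℝ) + 1) * (ss n τ / vv n τ ^ (k + 2))| := by
    unfold cf
    rw [Real.norm_eq_abs, abs_mul, abs_pow, abs_neg, abs_one, one_pow, one_mul]
    congr 1
    ring
  rw [h7]
  refine (abs_sub _ _).trans ?_
  rw [abs_of_nonneg (mul_nonneg hc h5), abs_of_nonneg (by positivity)]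
  have h8 := mul_le_mul_of_nonneg_left h3 hc
  have h9 := mul_le_mul_of_nonneg_left h4 (by positivity : (0 : ℝ) ≤ 3 * ((k : ℝ) + 1))
  linarith

/-- also for small `t` -/
theorem kap_summable {n T₀ M : ℕ} (hM : 1 ≤ M) {w : ℝ} (hw : 0 ≤ w) :
    Summable fun t : ℕ => kap n (((t + T₀ + 1 : ℕ) : ℝ) / M) w := by
  have hMR : (1 : ℝ) ≤ M := by exact_mod_cast hM
  have hM0 : (0 : ℝ) < M := by linarith
  have hn : (0 : ℝ) ≤ n := Nat.cast_nonneg n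
  refine Summable.of_norm_bounded (g := fun t : ℕ =>
    ((2 + (n : ℝ) * M) ^ 3 + 3 * (2 + (n : ℝ) * M)) *
      (1 / (((t + T₀ + 1 : ℕ) : ℝ) / M) ^ 3)) ((AN1b_sum T₀ M).mul_left _) fun t => ?_
  set τ : ℝ := ((t + T₀ + 1 : ℕ) : ℝ) / M with hτd
  have hτ : 1 ≤ M * τ := by
    rw [hτd, mul_div_cancel₀ _ hM0.ne']
    exact_mod_cast (by omega : 1 ≤ t + T₀ + 1)
  have hτ0 : 0 < τ := by
    rw [hτd]
    positivity
  have hs : ss n τ ≤ (2 + n * M) * τ := by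
    unfold ss
    nlinarith [mul_le_mul_of_nonneg_left hτ hn]
  have hs0 : 0 ≤ ss n τ := by
    unfold ss
    linarith
  have hv : τ ^ 2 ≤ vv n τ + w := by
    unfold vv
    nlinarith [mul_nonneg hτ0.le hn]
  have hv0 : 0 < vv n τ + w := lt_of_lt_of_le (by positivity) hv
  obtain ⟨h1, h2⟩ := AN1b_pow hτ0 hs0 hs hv
  unfold kap
  rw [Real.norm_eq_abs]
  refine (abs_sub _ _).trans ?_
  rw [abs_of_nonneg (by positivity), abs_of_nonneg (by positivity)]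
  have h3 : 3 * ss n τ / (vv n τ + w) ^ 2 = 3 * (ss n τ / (vv n τ + w) ^ 2) := by ring
  rw [h3]
  linarith

end HZ3
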