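import Mathlib

/-!
# Row AN2: partial fractions (SHORT/MEDIUM, 20 min; ONLY MATHLIB)

`p = (X + C v) * p' + C r` with `p' = p /ₘ (X + C v)` of degree `< d`; divide by `v + w`; iterate up to
three times.
-/

namespace HZ3

open Finset Polynomial

private theorem AN2_step {d : ℕ} (p : ℝ[X]) (hp : p.natDegree < d) (v : ℝ) :
    ∃ p' : ℝ[X], p'.natDegree < d ∧ ∃ r : ℝ, ∀ w : ℝ, p.eval w = (v + w) * p'.eval w + r := by
  refine ⟨p /ₘ (X - C (-v)), ?_, p.eval (-v), fun w => ?_⟩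
  · rw [natDegree_divByMonic _ (monic_X_sub_C _)]
    omega
  · conv_lhs => rw [← modByMonic_add_div p (X - C (-v)), modByMonic_X_sub_C_eq_C_eval]
    rw [eval_add, eval_C, eval_mul, eval_sub, eval_X, eval_C]
    ring

private theorem AN2_aux {d : ℕ} (v : ℝ) : ∀ k : ℕ, k < 3 → ∀ p : ℝ[X], p.natDegree < d →
    ∃ p₁ : ℝ[X], p₁.natDegree < d ∧ ∃ c : Fin 3 → ℝ, ∀ w : ℝ, v + w ≠ 0 →
      p.eval w / (v + w) ^ (k + 1) = p₁.eval w + ∑ e : Fin 3, c e / (v + w) ^ ((e : ℕ) + 1) := by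
  intro k
  induction k with
  | zero =>
    intro _ p hp
    obtain ⟨p', hp', r, h⟩ := AN2_step p hp v
    refine ⟨p', hp', fun e => if e = 0 then r else 0, fun w hw => ?_⟩
    rw [h w, Fin.sum_univ_three]
    simp only [Fin.isValue, ite_true, Fin.val_zero, zero_add, pow_one]
    rw [if_neg (by decide), if_neg (by decide)]
    field_simp
    ring
  | succ k ih =>
    intro hk p hp
    obtain ⟨p', hp', r, h⟩ := AN2_step p hp v
    obtain ⟨p₁, hp₁, c, hc⟩ := ih (by omega) p' hp'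
    refine ⟨p₁, hp₁, fun e => c e + if (e : ℕ) = k + 1 then r else 0, fun w hw => ?_⟩
    have h1 : p.eval w / (v + w) ^ (k + 1 + 1) =
        p'.eval w / (v + w) ^ (k + 1) + r / (v + w) ^ (k + 1 + 1) := by
      rw [h w]
      field_simp
      ring
    rw [h1, hc w hw]
    simp only [add_div, Finset.sum_add_distrib]
    have h2 : (∑ e : Fin 3, (if (e : ℕ) = k + 1 then r else 0) / (v + w) ^ ((e : ℕ) + 1)) =
        r / (v + w) ^ (k + 1 + 1) := by
      rw [Finset.sum_eq_single (⟨k + 1, hk⟩ : Fin 3)]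
      · rw [if_pos rfl]
      · intro b _ hb
        rw [if_neg, zero_div]
        intro h'
        exact hb (Fin.ext h')
      · intro h'
        exact absurd (Finset.mem_univ _) h'
    rw [h2]
    ring

theorem parfrac {d : ℕ} (p : ℝ[X]) (hp : p.natDegree < d) (v : ℝ) (i : Fin 3) :
    ∃ p₁ : ℝ[X], p₁.natDegree < d ∧ ∃ c : Fin 3 → ℝ, ∀ w : ℝ, v + w ≠ 0 →
      p.eval w / (v + w) ^ ((i : ℕ) + 1) = p₁.eval w + ∑ e : Fin 3, c e / (v + w) ^ ((e : ℕ) + 1) :=
  AN2_aux v i i.2 p hp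

end HZ3
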