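import Pool.Agent.LibHZ3.Defs2

/-!
# Row BBe: `C(j, k) C(L - j, k) ≤ e^e₀ Q^(2 k)` for `L ≤ Q e₀` (SHORT, 15 min)

`HZ5.bb_vand : BB L k j ≤ L.choose (2 * k)`; one term of `(x + 1)^L`, `x = 1 / Q`, is
`C(L, 2 k) x^(2 k)`, and `(x + 1)^L ≤ exp (x L) ≤ exp e₀` (see the proof of `HZ5.BB_le'` in
`LibHZ5/BB.lean`).  Second part: the rows (i)-(iii) are bounded by `UA`; for (ii): `AB ≥ 1`.
-/

namespace HZ3

open Finset HZ89

theorem BB_exp {L k j Q e₀ : ℕ} (hj : j ≤ L) (hQ : 1 ≤ Q) (hL : L ≤ Q * e₀) :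
    (BB L k j : ℝ) ≤ Real.exp e₀ * (Q : ℝ) ^ (2 * k) := by
  have hQ0 : (0 : ℝ) < Q := by exact_mod_cast hQ
  have hb : (BB L k j : ℝ) ≤ (L.choose (2 * k) : ℝ) := by exact_mod_cast HZ5.bb_vand hj
  refine hb.trans ?_
  obtain ⟨x, hx⟩ : ∃ x : ℝ, x = 1 / Q := ⟨_, rfl⟩
  have hx0 : 0 < x := by rw [hx]; positivity
  -- one term of the binomial formula
  have h1 : (L.choose (2 * k) : ℝ) * x ^ (2 * k) ≤ (x + 1) ^ L := by
    rcases Nat.lt_or_ge L (2 * k) with h | h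
    · rw [Nat.choose_eq_zero_of_lt h]
      push_cast
      rw [zero_mul]
      positivity
    · rw [add_pow]
      have := single_le_sum (s := range (L + 1))
        (f := fun m => x ^ m * (1 : ℝ) ^ (L - m) * (L.choose m : ℝ))
        (fun m _ => by positivity) (mem_range.2 (by omega : 2 * k < L + 1))
      simp only [one_pow, mul_one] at this ⊢
      linarith
  have h2 : (x + 1) ^ L ≤ Real.exp e₀ := by
    have h3 : x + 1 ≤ Real.exp x := Real.add_one_le_exp x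
    have h4 : (x : ℝ) * L ≤ e₀ := by
      have : (L : ℝ) ≤ Q * e₀ := by exact_mod_cast hL
      rw [hx, one_div, inv_mul_le_iff₀ hQ0]
      exact this
    calc (x + 1) ^ L ≤ (Real.exp x) ^ L := pow_le_pow_left₀ (by positivity) h3 L
      _ = Real.exp (x * L) := by rw [← Real.exp_nat_mul, mul_comm]
      _ ≤ Real.exp e₀ := Real.exp_le_exp.2 h4
  have h6 : (L.choose (2 * k) : ℝ) = (L.choose (2 * k) : ℝ) * x ^ (2 * k) * (Q : ℝ) ^ (2 * k) := by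
    rw [hx, mul_assoc, ← mul_pow, one_div, inv_mul_cancel₀ hQ0.ne', one_pow, mul_one]
  rw [h6]
  exact mul_le_mul_of_nonneg_right (h1.trans h2) (by positivity)

theorem BBe_AB {q n M t j : ℕ} (hq : 1 ≤ q) (ht : 1 ≤ t) (hj : j ≤ q * n) : 1 ≤ AB q n M t j := by
  have h1 : (1 : ℝ) ≤ (q : ℝ) * t := by exact_mod_cast Nat.mul_pos hq ht
  have h2 : (0 : ℝ) ≤ (M : ℝ) * j := by positivity
  have h3 : (0 : ℝ) ≤ (M : ℝ) * ((q : ℝ) * n - j) := by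
    have : (j : ℝ) ≤ (q : ℝ) * n := by exact_mod_cast hj
    exact mul_nonneg (Nat.cast_nonneg _) (by linarith)
  unfold AB
  exact one_le_mul_of_one_le_of_one_le (by linarith) (by linarith)

theorem rowA_le {q n s T₀ d K Q₁ Q₂ : ℕ} {Ms : Finset ℕ} {B : ℝ} (hq : 1 ≤ q) (hQ₁ : 1 ≤ Q₁)
    (hQ₂ : 1 ≤ Q₂) (hd : q * n ≤ Q₁ * d) (hK : q * n ≤ Q₂ * K) (b : ℕ → Fin s → ℚ)
    (hb : ∀ x < q, ∀ i, |(b x i : ℝ)| ≤ B) {j : ℕ} (hj : j ≤ q * n) (r : RA s Ms T₀ d K) :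
    |rowA q n s Ms T₀ d K b r j| ≤ UA s Ms T₀ d K Q₁ Q₂ B r := by
  rcases r with k | ⟨M, t, i⟩ | ⟨i, M, k⟩
  · have h1 : (0 : ℝ) ≤ (BB (q * n) k j : ℝ) := Nat.cast_nonneg _
    change |(BB (q * n) k j : ℝ)| ≤ Real.exp d * (Q₁ : ℝ) ^ (2 * (k : ℕ))
    rw [abs_of_nonneg h1]
    exact BB_exp hj hQ₁ hd
  · change |1 / AB q n M (t + 1) j ^ ((i : ℕ) + 1)| ≤ 1
    have h1 : 1 ≤ AB q n M (t + 1) j := BBe_AB hq (by omega) hj
    have h2 : 1 ≤ AB q n M (t + 1) j ^ ((i : ℕ) + 1) := one_le_pow₀ h1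
    rw [abs_of_nonneg (by positivity), div_le_one (by linarith)]
    exact h2
  · change |(b (M * j % q) i : ℝ) * (BB (q * n) k j : ℝ)| ≤
      B * (Real.exp K * (Q₂ : ℝ) ^ (2 * (k : ℕ)))
    have h1 : (0 : ℝ) ≤ (BB (q * n) k j : ℝ) := Nat.cast_nonneg _
    have h2 := hb (M * j % q) (Nat.mod_lt _ (by omega)) i
    rw [abs_mul, abs_of_nonneg h1]
    exact mul_le_mul h2 (BB_exp hj hQ₂ hK) h1 ((abs_nonneg _).trans h2)

end HZ3
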