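import Pool.Agent.LibHZ3.Defs2

/-!
# Row BPI: the polynomials `bp q n k` are independent

`(bp q n k).natDegree = k` and `bp q n k ≠ 0`; look at the coefficient of `X^k` for the largest `k` with
`c k ≠ 0`.
-/

namespace HZ3

open Finset HZ89 Polynomial

theorem bpi_coeff {q n k : ℕ} (hq : 1 ≤ q) : (bp q n k).coeff k ≠ 0 := by
  have h0 : bp q n k ≠ 0 := by
    intro h
    have h1 := bp_natDegree (q := q) (n := n) (k := k) hq
    rw [h, natDegree_zero] at h1
    subst h1
    simp [bp] at h
  have h1 := leadingCoeff_ne_zero.mpr h0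
  rwa [leadingCoeff, bp_natDegree hq] at h1

theorem bp_ind {q n K : ℕ} (hq : 1 ≤ q) (c : Fin K → ℝ)
    (h : ∑ k, C (c k) * bp q n k = 0) : c = 0 := by
  by_contra hc
  have hne : (univ.filter fun k : Fin K => c k ≠ 0).Nonempty := by
    by_contra h1
    rw [Finset.not_nonempty_iff_eq_empty, Finset.filter_eq_empty_iff] at h1
    apply hc
    funext k
    have := h1 (Finset.mem_univ k)
    simpa using this
  obtain ⟨k, hk, hmax⟩ := Finset.exists_max_image _ (fun k : Fin K => k) hne
  rw [Finset.mem_filter] at hk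
  have h1 := congrArg (fun p => coeff p (k : ℕ)) h
  simp only [finsetSum_coeff, coeff_C_mul, coeff_zero] at h1
  rw [Finset.sum_eq_single k] at h1
  · rcases mul_eq_zero.1 h1 with h2 | h2
    · exact hk.2 h2
    · exact bpi_coeff hq h2
  · intro j _ hj
    by_cases hcj : c j = 0
    · rw [hcj, zero_mul]
    · have h2 : j ≤ k := hmax j (Finset.mem_filter.2 ⟨Finset.mem_univ _, hcj⟩)
      have h3 : j < k := lt_of_le_of_ne h2 hj
      rw [coeff_eq_zero_of_natDegree_lt, mul_zero]
      rw [bp_natDegree hq]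
      exact h3
  · intro h2
    exact absurd (Finset.mem_univ k) h2

theorem bp_sum_natDegree {q n K : ℕ} (hq : 1 ≤ q) (hK : 1 ≤ K) (c : Fin K → ℝ) :
    (∑ k, C (c k) * bp q n k).natDegree < K := by
  refine lt_of_le_of_lt (b := K - 1) ?_ (by omega)
  refine natDegree_sum_le_of_forall_le _ _ fun k _ => ?_
  refine (natDegree_C_mul_le _ _).trans ?_
  rw [bp_natDegree hq]
  have := k.isLt
  omega

end HZ3
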