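import Pool.Agent.LibHZ3.VS

/-!
# Row CB: all multiples of most `x` are good (MEDIUM, 40 min)

The set of the `x` with `1 ≤ x`, `2 x < q`, `(x, q) = 1` has at least `φ(q) / 2` elements (`q ≥ 3`; the
involution `x ↦ q - x` of the `x < q` prime to `q` has no fixed point: `2 x = q`, `(x, q) = 1` gives
`x = 1`, `q = 2`).  If such an `x` is not in the first set, there is `M ∈ Ms` with
`hur ((M x % q) / q) ∉ W`; let `y = min (M x % q) (q - M x % q)`: `y` is in the second set
(`hur_one_sub`), and for fixed `M` the map `x ↦ y` is injective (`M x ≡ ± M x'` gives `x ≡ ± x'`).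
-/

namespace HZ3

open Finset HZ89

theorem cb_aux {q x : ℕ} (hq : 3 ≤ q) (hx : x.Coprime q) : 1 ≤ x ∧ 2 * x ≠ q := by
  constructor
  · rcases Nat.eq_zero_or_pos x with h | h
    · subst h
      rw [Nat.coprime_zero_left] at hx
      omega
    · exact h
  · intro h
    have h1 : x ∣ q := ⟨2, by omega⟩
    have h2 : x = 1 := Nat.Coprime.eq_one_of_dvd hx h1
    omega

theorem cb_coprime {q M x : ℕ} (hM : M.Coprime q) (hx : x.Coprime q) :
    (M * x % q).Coprime q := by
  have h1 : (M * x).Coprime q := Nat.Coprime.mul_left hM hx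
  exact (Nat.gcd_rec q (M * x)).symm.trans h1.symm

theorem count_bad {q : ℕ} (hq : 3 ≤ q) (Ms : Finset ℕ) (hM : ∀ M ∈ Ms, M.Coprime q)
    (W : Submodule ℚ ℝ) (I G : Finset ℕ)
    (hI : ∀ x, x ∈ I ↔ 1 ≤ x ∧ 2 * x < q ∧ x.Coprime q ∧
      ∀ M ∈ Ms, hur (((M * x % q : ℕ) : ℝ) / q) ∈ W)
    (hG : ∀ x, x ∈ G ↔ 1 ≤ x ∧ 2 * x < q ∧ x.Coprime q ∧ hur ((x : ℝ) / q) ∉ W) :
    q.totient ≤ 2 * (I.card + Ms.card * G.card) := by
  classical
  obtain ⟨H, hH⟩ : ∃ H : Finset ℕ, ∀ x, x ∈ H ↔ 1 ≤ x ∧ 2 * x < q ∧ x.Coprime q := by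
    refine ⟨(range q).filter fun x => 1 ≤ x ∧ 2 * x < q ∧ x.Coprime q, fun x => ?_⟩
    rw [Finset.mem_filter, Finset.mem_range]
    constructor
    · exact fun h => h.2
    · exact fun h => ⟨by omega, h⟩
  have h1 : q.totient ≤ 2 * H.card := by
    rw [Nat.totient_eq_card_coprime]
    calc ((range q).filter fun a => q.Coprime a).card ≤ (H ∪ H.image (fun x => q - x)).card := by
          apply Finset.card_le_card
          intro x hx
          rw [Finset.mem_filter, Finset.mem_range] at hx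
          obtain ⟨hx1, hx2⟩ := hx
          have hx3 := hx2.symm
          obtain ⟨hx4, hx5⟩ := cb_aux hq hx3
          rw [Finset.mem_union]
          rcases lt_or_ge (2 * x) q with h | h
          · exact Or.inl ((hH x).2 ⟨hx4, h, hx3⟩)
          · refine Or.inr (Finset.mem_image.2 ⟨q - x, (hH _).2 ⟨by omega, by omega, ?_⟩,
              by omega⟩)
            exact (Nat.coprime_self_sub_left hx1.le).2 hx3
      _ ≤ H.card + (H.image (fun x => q - x)).card := Finset.card_union_le _ _
      _ ≤ H.card + H.card := Nat.add_le_add_left Finset.card_image_le _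
      _ = 2 * H.card := by ring
  have h2 : H ⊆ I ∪ Ms.biUnion fun M =>
      H.filter fun x => hur (((M * x % q : ℕ) : ℝ) / q) ∉ W := by
    intro x hx
    rw [Finset.mem_union]
    obtain ⟨a1, a2, a3⟩ := (hH x).1 hx
    by_cases h : ∀ M ∈ Ms, hur (((M * x % q : ℕ) : ℝ) / q) ∈ W
    · exact Or.inl ((hI x).2 ⟨a1, a2, a3, h⟩)
    · push Not at h
      obtain ⟨M, hM1, hM2⟩ := h
      exact Or.inr (Finset.mem_biUnion.2 ⟨M, hM1, Finset.mem_filter.2 ⟨hx, hM2⟩⟩)
  have h3 : ∀ M ∈ Ms,
      (H.filter fun x => hur (((M * x % q : ℕ) : ℝ) / q) ∉ W).card ≤ G.card := by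
    intro M hMs
    refine Finset.card_le_card_of_injOn (fun x => min (M * x % q) (q - M * x % q)) ?_ ?_
    · intro x hx
      obtain ⟨hx1, hx2⟩ := Finset.mem_filter.1 (Finset.mem_coe.1 hx)
      obtain ⟨a1, a2, a3⟩ := (hH x).1 hx1
      have a4 := cb_coprime (hM M hMs) a3
      obtain ⟨a5, a6⟩ := cb_aux hq a4
      have a7 : M * x % q < q := Nat.mod_lt _ (by omega)
      rw [Finset.mem_coe, hG]
      beta_reduce
      rcases lt_or_ge (2 * (M * x % q)) q with h | h
      · rw [min_eq_left (by omega)]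
        exact ⟨a5, h, a4, hx2⟩
      · rw [min_eq_right (by omega)]
        refine ⟨by omega, by omega, (Nat.coprime_self_sub_left a7.le).2 a4, ?_⟩
        have hq0 : (0 : ℝ) < q := by exact_mod_cast (by omega : 0 < q)
        have b1 : ((q - M * x % q : ℕ) : ℝ) / q = 1 - ((M * x % q : ℕ) : ℝ) / q := by
          rw [Nat.cast_sub a7.le, sub_div, div_self hq0.ne']
        rw [b1, hur_one_sub]
        · exact hx2
        · have : (0 : ℝ) < ((M * x % q : ℕ) : ℝ) := by exact_mod_cast a5
          positivity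
        · rw [div_lt_one hq0]
          exact_mod_cast a7
    · intro x hx x' hx' hxx
      obtain ⟨hx1, -⟩ := Finset.mem_filter.1 (Finset.mem_coe.1 hx)
      obtain ⟨hx1', -⟩ := Finset.mem_filter.1 (Finset.mem_coe.1 hx')
      obtain ⟨a1, a2, a3⟩ := (hH x).1 hx1
      obtain ⟨b1, b2, b3⟩ := (hH x').1 hx1'
      have a7 : M * x % q < q := Nat.mod_lt _ (by omega)
      have b7 : M * x' % q < q := Nat.mod_lt _ (by omega)
      beta_reduce at hxx
      have c1 : M * x % q = M * x' % q ∨ M * x % q + M * x' % q = q := by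
        rcases min_choice (M * x % q) (q - M * x % q) with e | e <;>
        rcases min_choice (M * x' % q) (q - M * x' % q) with e' | e' <;>
        rw [e, e'] at hxx <;> omega
      rcases c1 with c1 | c1
      · have c2 : x ≡ x' [MOD q] := Nat.ModEq.cancel_left_of_coprime (c := M)
          (by rw [Nat.gcd_comm]; exact hM M hMs) c1
        exact Nat.ModEq.eq_of_lt_of_lt c2 (by omega) (by omega)
      · exfalso
        have c2 : (M * (x + x')) % q = 0 := by
          rw [mul_add, Nat.add_mod, c1, Nat.mod_self]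
        have c3 : q ∣ M * (x + x') := Nat.dvd_of_mod_eq_zero c2
        have c4 : q ∣ x + x' := (hM M hMs).symm.dvd_of_dvd_mul_left c3
        have c5 := Nat.le_of_dvd (by omega) c4
        omega
  calc q.totient ≤ 2 * H.card := h1
    _ ≤ 2 * (I.card + ∑ M ∈ Ms,
        (H.filter fun x => hur (((M * x % q : ℕ) : ℝ) / q) ∉ W).card) := by
        refine Nat.mul_le_mul_left 2 ?_
        refine (Finset.card_le_card h2).trans ((Finset.card_union_le _ _).trans ?_)
        exact Nat.add_le_add_left Finset.card_biUnion_le _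
    _ ≤ 2 * (I.card + ∑ _M ∈ Ms, G.card) :=
        Nat.mul_le_mul_left 2 (Nat.add_le_add_left (Finset.sum_le_sum h3) _)
    _ = 2 * (I.card + Ms.card * G.card) := by rw [Finset.sum_const, smul_eq_mul]

end HZ3
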