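import Pool.Agent.LibHZ3.IN2

/-!
# Row IN3: integrality of the rows (i), (ii), (iii) (MEDIUM, 35 min)

(i) is an integer.  (ii): with `i₀ = M j / q`, `x = M j % q`: `q t + M j = q (t + i₀) + x`,
`q t + M (q n - j) = q (t + (M n - i₀ - 1)) + (q - x)` (here `M j < M q n`, so `i₀ < M n`; `t` is
`t + 1` in the row), both indices are `< K'`, so the two factors divide the two `lcmA`; hence
`AB^(i+1) ∣ (lcmA * lcmA)³ ∣ wj` as `i + 1 ≤ 3`.  (iii): `D₀ b` is an integer.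
-/

namespace HZ3

open Finset HZ89

private theorem IN3_two {q n X T₀ K' j M t i : ℕ} {Ms : Finset ℕ} (hq : 2 ≤ q) (hMm : M ∈ Ms)
    (hM1 : 1 ≤ M) (hM2 : M ≤ X) (hK' : T₀ + X * n + 1 ≤ K') (hj : j < q * n) (ht : t < T₀)
    (hi : i < 3) : ∃ c : ℕ, (wj q Ms K' j : ℝ) * (1 / AB q n M (t + 1) j ^ (i + 1)) = c := by
  obtain ⟨x, hx⟩ : ∃ x, x = M * j % q := ⟨_, rfl⟩
  obtain ⟨m, hm⟩ : ∃ m, m = M * j / q := ⟨_, rfl⟩
  have hMj : M * j = q * m + x := by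
    rw [hx, hm]
    exact (Nat.div_add_mod _ _).symm
  have hxq : x < q := by
    rw [hx]
    exact Nat.mod_lt _ (by omega)
  have hmn : m < M * n := by
    rw [hm]
    apply Nat.div_lt_of_lt_mul
    calc M * j < M * (q * n) := Nat.mul_lt_mul_of_pos_left hj hM1
      _ = q * (M * n) := by ring
  have hXn : M * n ≤ X * n := Nat.mul_le_mul_right _ hM2
  have hA : q * (t + 1 + m) + x ∣ lcmA q x K' := dvd_lcmA (by omega)
  have hB : q * (t + (M * n - m)) + (q - x) ∣ lcmA q (q - x) K' := dvd_lcmA (by omega)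
  have hw := dvd_wj (q := q) (K := K') (j := j) hMm
  rw [← hx] at hw
  obtain ⟨c, hc⟩ := ((pow_dvd_pow_of_dvd (mul_dvd_mul hA hB) (i + 1)).trans
    (pow_dvd_pow _ (by omega : i + 1 ≤ 3))).trans hw
  have hMjr : (M : ℝ) * j = q * m + x := by exact_mod_cast hMj
  have hAr : ((q * (t + 1 + m) + x : ℕ) : ℝ) = (q : ℝ) * ((t + 1 : ℕ) : ℝ) + M * j := by
    rw [hMjr]
    push_cast
    ring
  have hBr : ((q * (t + (M * n - m)) + (q - x) : ℕ) : ℝ) =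
      (q : ℝ) * ((t + 1 : ℕ) : ℝ) + M * ((q : ℝ) * n - j) := by
    rw [mul_sub, hMjr]
    push_cast [Nat.cast_sub hmn.le, Nat.cast_sub hxq.le]
    ring
  have hABr : AB q n M (t + 1) j =
      (((q * (t + 1 + m) + x) * (q * (t + (M * n - m)) + (q - x)) : ℕ) : ℝ) := by
    rw [Nat.cast_mul, hAr, hBr]
    rfl
  have hpos : (0 : ℝ) < (((q * (t + 1 + m) + x) * (q * (t + (M * n - m)) + (q - x)) : ℕ) : ℝ) := by
    have h1 : 0 < q * (t + 1 + m) + x := by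
      have : 0 < q * (t + 1 + m) := Nat.mul_pos (by omega) (by omega)
      omega
    have h2 : 0 < q * (t + (M * n - m)) + (q - x) := by omega
    exact_mod_cast Nat.mul_pos h1 h2
  refine ⟨c, ?_⟩
  rw [hABr, hc, Nat.cast_mul, Nat.cast_pow]
  have hne := (pow_pos hpos (i + 1)).ne'
  field_simp

theorem rowA_int {q n s T₀ d K K' X D₀ : ℕ} {Ms : Finset ℕ} (hq : 2 ≤ q)
    (hM : ∀ M ∈ Ms, 1 ≤ M ∧ M ≤ X) (hK' : T₀ + X * n + 1 ≤ K') (b : ℕ → Fin s → ℚ)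
    (hb : ∀ x < q, ∀ i, ∃ m : ℤ, (D₀ : ℚ) * b x i = m) {j : ℕ} (hj : j < q * n)
    (hx : ∀ M ∈ Ms, M * j % q ≠ 0) (r : RA s Ms T₀ d K) :
    ∃ z : ℤ, (D₀ : ℝ) * wj q Ms K' j * rowA q n s Ms T₀ d K b r j = z := by
  rcases r with k | ⟨M, t, i⟩ | ⟨i, M, k⟩
  · refine ⟨((D₀ * wj q Ms K' j * BB (q * n) k j : ℕ) : ℤ), ?_⟩
    show (D₀ : ℝ) * wj q Ms K' j * (BB (q * n) k j : ℝ) = _
    push_cast
    ring
  · obtain ⟨c, hc⟩ := IN3_two hq M.2 (hM M M.2).1 (hM M M.2).2 hK' hj t.2 i.2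
    refine ⟨((D₀ * c : ℕ) : ℤ), ?_⟩
    show (D₀ : ℝ) * wj q Ms K' j * (1 / AB q n M (t + 1) j ^ ((i : ℕ) + 1)) = _
    rw [mul_assoc, hc]
    push_cast
    ring
  · obtain ⟨m, hm⟩ := hb (M * j % q) (Nat.mod_lt _ (by omega)) i
    refine ⟨m * ((wj q Ms K' j * BB (q * n) k j : ℕ) : ℤ), ?_⟩
    show (D₀ : ℝ) * wj q Ms K' j * ((b (M * j % q) i : ℝ) * (BB (q * n) k j : ℝ)) = _
    have hmr : (D₀ : ℝ) * (b (M * j % q) i : ℝ) = m := by exact_mod_cast hm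
    push_cast
    rw [← hmr]
    ring

end HZ3
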