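import Pool.Agent.LibHZ3.IN2

/-!
# Row IN4: integrality of the rows (iv) (MEDIUM, 30 min)

`wj * psM`: each `q m + x`, `m ≤ M j / q < M n`, divides `lcmA q x K'`, and each `q m + (q - x)`,
`m < M n - M j / q ≤ X n`, divides `lcmA q (q - x) K'`; the cube divides `wj` (`dvd_wj`).
-/

namespace HZ3

open Finset HZ89

private theorem IN4_mem {y : ℝ} : y ∈ (Int.castRingHom ℝ).range ↔ ∃ z : ℤ, y = z := by
  constructor
  · rintro ⟨z, hz⟩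
    exact ⟨z, by rw [← hz]; rfl⟩
  · rintro ⟨z, hz⟩
    exact ⟨z, by rw [hz]; rfl⟩

private theorem IN4_dvd {a W : ℕ} (h : a ^ 3 ∣ W) (ha : 0 < a) :
    (W : ℝ) * (1 / (a : ℝ) ^ 3) ∈ (Int.castRingHom ℝ).range := by
  obtain ⟨c, rfl⟩ := h
  have ha0 : (a : ℝ) ≠ 0 := by exact_mod_cast ha.ne'
  refine IN4_mem.2 ⟨c, ?_⟩
  push_cast
  field_simp

private theorem IN4_ps {q n K' X M j W : ℕ} (hq : 2 ≤ q) (hMX : M ≤ X)
    (hK' : X * n + 1 ≤ K') (hj : j < q * n) (hM1 : 1 ≤ M) (hx : M * j % q ≠ 0)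
    (hW : (lcmA q (M * j % q) K' * lcmA q (q - M * j % q) K') ^ 3 ∣ W) :
    (W : ℝ) * psM q n M j ∈ (Int.castRingHom ℝ).range := by
  have hxq : M * j % q < q := Nat.mod_lt _ (by omega)
  have h1 : M * j / q < M * n := by
    rw [Nat.div_lt_iff_lt_mul (by omega)]
    calc M * j < M * (q * n) := Nat.mul_lt_mul_of_pos_left hj hM1
      _ = M * n * q := by ring
  have h2 : M * n ≤ X * n := Nat.mul_le_mul_right _ hMX
  unfold psM
  rw [mul_add, Finset.mul_sum, Finset.mul_sum]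
  refine add_mem (sum_mem fun m hm => ?_) (sum_mem fun m hm => ?_)
  · have hm' := Finset.mem_range.1 hm
    have h3 : q * m + M * j % q ∣ lcmA q (M * j % q) K' := dvd_lcmA (by omega)
    have h4 : (q * m + M * j % q) ^ 3 ∣ W :=
      (pow_dvd_pow_of_dvd (h3.trans (Dvd.intro _ rfl)) 3).trans hW
    have h5 := IN4_dvd h4 (by omega)
    push_cast at h5 ⊢
    exact h5
  · have hm' := Finset.mem_range.1 hm
    have hm2 : m < K' := by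
      have h6 : M * n - M * j / q ≤ M * n := Nat.sub_le _ _
      omega
    have h3 : q * m + (q - M * j % q) ∣ lcmA q (q - M * j % q) K' := dvd_lcmA hm2
    have h4 : (q * m + (q - M * j % q)) ^ 3 ∣ W :=
      (pow_dvd_pow_of_dvd (h3.trans (Dvd.intro_left _ rfl)) 3).trans hW
    have h5 := IN4_dvd h4 (by omega)
    push_cast [Nat.cast_sub hxq.le] at h5 ⊢
    exact h5

theorem rowB_int {q n K K' X D₀ : ℕ} {Ms : Finset ℕ} (hq : 2 ≤ q)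
    (hM : ∀ M ∈ Ms, 1 ≤ M ∧ M ≤ X) (hK' : X * n + 1 ≤ K') (b₀ : ℕ → ℚ)
    (hb₀ : ∀ x < q, ∃ m : ℤ, (D₀ : ℚ) * b₀ x = m) {j : ℕ} (hj : j < q * n)
    (hx : ∀ M ∈ Ms, M * j % q ≠ 0) (p : RB Ms K) :
    ∃ z : ℤ, (D₀ : ℝ) * wj q Ms K' j * rowB q n Ms K b₀ p j = z := by
  obtain ⟨⟨M, hMs⟩, k⟩ := p
  obtain ⟨hM1, hMX⟩ := hM M hMs
  have h1 := IN4_ps hq hMX hK' hj hM1 (hx M hMs) (dvd_wj (K := K') (j := j) (q := q) hMs)
  obtain ⟨m, hm⟩ := hb₀ (M * j % q) (Nat.mod_lt _ (by omega))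
  have h2 : (D₀ : ℝ) * (b₀ (M * j % q) : ℝ) = m := by exact_mod_cast congrArg (Rat.cast : ℚ → ℝ) hm
  have h3 : (D₀ : ℝ) * wj q Ms K' j * rowB q n Ms K b₀ (⟨M, hMs⟩, k) j =
      (((D₀ : ℝ) * (b₀ (M * j % q) : ℝ)) * (wj q Ms K' j : ℝ) -
        (D₀ : ℝ) * ((wj q Ms K' j : ℝ) * psM q n M j)) * (BB (q * n) k j : ℝ) := by
    unfold rowB
    ring
  rw [h3, h2]
  refine IN4_mem.1 (mul_mem (sub_mem (mul_mem ?_ ?_) (mul_mem ?_ h1)) ?_)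
  · exact IN4_mem.2 ⟨m, rfl⟩
  · exact IN4_mem.2 ⟨(wj q Ms K' j : ℤ), by push_cast; rfl⟩
  · exact IN4_mem.2 ⟨(D₀ : ℤ), by push_cast; rfl⟩
  · exact IN4_mem.2 ⟨(BB (q * n) k j : ℤ), by push_cast; rfl⟩

end HZ3
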