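import Pool.Agent.LibHZ3.FHa

/-!
# Row FHb: the rows (ii) as quotients of polynomials in `j` (MEDIUM, 30 min)

For `M ∈ Ms`, `t < T₀` the factor with index `(M, t + 1)` of `ZP` has the value `AB q n M (t + 1) j`
at `j`, so `ZP = fac * rest` (`Finset.mul_prod_erase` twice) and `ZP^3 / fac^(i+1)` is the polynomial
`fac^(2-i) * rest^3` of degree `≤ 6 (Ms.card T₀)`.  (`fac` and `rest` have degree `≤ 2` and
`≤ 2 (Ms.card T₀) - 2`; or: the degree of a divisor of `ZP^3` is at most that of `ZP^3`, which is not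
zero.)  `ZP_ne`: all factors are positive at `j ∈ P`.
-/

namespace HZ3

open Finset HZ89 Polynomial

theorem ZP_ne {q n T₀ : ℕ} {Ms I : Finset ℕ} (hq : 1 ≤ q) (hM : ∀ M ∈ Ms, 1 ≤ M) {j : ℕ}
    (hj : j ≤ q * n) : (ZP q n Ms T₀).eval (j : ℝ) ≠ 0 := by
  have hjr : (j : ℝ) ≤ (q : ℝ) * n := by exact_mod_cast hj
  have hq0 : (0 : ℝ) < q := by exact_mod_cast hq
  unfold ZP
  rw [eval_prod]
  refine Finset.prod_ne_zero_iff.2 fun M _ => ?_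
  rw [eval_prod]
  refine Finset.prod_ne_zero_iff.2 fun t ht => ?_
  have ht1 : (0 : ℝ) < t := by
    have := (Finset.mem_Icc.1 ht).1
    exact_mod_cast this
  have h1 : 0 < (q : ℝ) * t + (M : ℝ) * j := by positivity
  have h2 : 0 < (q : ℝ) * t + (M : ℝ) * ((q : ℝ) * n - j) := by
    have h3 : 0 ≤ (M : ℝ) * ((q : ℝ) * n - j) := mul_nonneg (Nat.cast_nonneg M) (by linarith)
    have h4 : 0 < (q : ℝ) * t := by positivity
    linarith
  simp only [eval_mul, eval_add, eval_sub, eval_C, eval_X]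
  exact mul_ne_zero h1.ne' h2.ne'

/-- the factor with the index `(M, t)` -/
private noncomputable def FHb_fac (q n M t : ℕ) : ℝ[X] :=
  (C ((q : ℝ) * t) + C (M : ℝ) * X) * (C ((q : ℝ) * t) + C (M : ℝ) * (C ((q : ℝ) * n) - X))

private theorem FHb_eval (q n M t j : ℕ) : (FHb_fac q n M t).eval (j : ℝ) = AB q n M t j := by
  unfold FHb_fac AB
  simp only [eval_mul, eval_add, eval_sub, eval_C, eval_X]

private theorem FHb_dvd {q n T₀ M t : ℕ} {Ms : Finset ℕ} (hM : M ∈ Ms) (ht : t ∈ Icc 1 T₀) :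
    FHb_fac q n M t ∣ ZP q n Ms T₀ := by
  have h1 : FHb_fac q n M t ∣ ∏ t ∈ Icc 1 T₀, FHb_fac q n M t :=
    Finset.dvd_prod_of_mem (fun t => FHb_fac q n M t) ht
  have h2 : (∏ t ∈ Icc 1 T₀, FHb_fac q n M t) ∣ ∏ M ∈ Ms, ∏ t ∈ Icc 1 T₀, FHb_fac q n M t :=
    Finset.dvd_prod_of_mem (fun M => ∏ t ∈ Icc 1 T₀, FHb_fac q n M t) hM
  exact h1.trans h2

theorem FHb {q n T₀ : ℕ} {Ms : Finset ℕ} (hq : 1 ≤ q) (hM : ∀ M ∈ Ms, 1 ≤ M)
    (e₁ : Ms × Fin T₀ × Fin 3 → ℝ) :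
    ∃ F : ℝ[X], F.natDegree ≤ 6 * (Ms.card * T₀) ∧ ∀ j : ℕ, j ≤ q * n →
      F.eval (j : ℝ) = (∑ p, e₁ p * (1 / AB q n p.1 (p.2.1 + 1) j ^ ((p.2.2 : ℕ) + 1))) *
        (ZP q n Ms T₀).eval (j : ℝ) ^ 3 := by
  have hZ0 : ZP q n Ms T₀ ≠ 0 := by
    intro h0
    have h1 := ZP_ne (q := q) (n := n) (T₀ := T₀) (Ms := Ms) (I := ∅) hq hM (j := 0)
      (Nat.zero_le _)
    rw [h0, eval_zero] at h1
    exact h1 rfl
  have key : ∀ p : Ms × Fin T₀ × Fin 3, ∃ g : ℝ[X], g.natDegree ≤ 6 * (Ms.card * T₀) ∧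
      ZP q n Ms T₀ ^ 3 = FHb_fac q n p.1 ((p.2.1 : ℕ) + 1) ^ ((p.2.2 : ℕ) + 1) * g := by
    intro p
    have ht : ((p.2.1 : ℕ) + 1) ∈ Icc 1 T₀ :=
      Finset.mem_Icc.2 ⟨Nat.le_add_left _ _, p.2.1.2⟩
    obtain ⟨w, hw⟩ := FHb_dvd (q := q) (n := n) p.1.2 ht
    refine ⟨FHb_fac q n p.1 ((p.2.1 : ℕ) + 1) ^ (2 - (p.2.2 : ℕ)) * w ^ 3, ?_, ?_⟩
    · have h1 : FHb_fac q n p.1 ((p.2.1 : ℕ) + 1) ^ (2 - (p.2.2 : ℕ)) * w ^ 3 ∣
          ZP q n Ms T₀ ^ 3 := by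
        rw [hw, mul_pow]
        exact mul_dvd_mul (pow_dvd_pow _ (by omega)) (dvd_refl _)
      refine (natDegree_le_of_dvd h1 (pow_ne_zero 3 hZ0)).trans ?_
      refine natDegree_pow_le.trans ?_
      have h2 := ZP_natDegree (q := q) (n := n) (T₀ := T₀) (Ms := Ms)
      nlinarith
    · rw [hw, mul_pow, ← mul_assoc, ← pow_add]
      congr 2
      have := p.2.2.2
      omega
  choose g hg1 hg2 using key
  refine ⟨∑ p, C (e₁ p) * g p, ?_, fun j hj => ?_⟩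
  · refine natDegree_sum_le_of_forall_le _ _ fun p _ => ?_
    exact (natDegree_C_mul_le _ _).trans (hg1 p)
  · rw [eval_finsetSum, Finset.sum_mul]
    refine Finset.sum_congr rfl fun p _ => ?_
    have hne := ZP_ne (q := q) (n := n) (T₀ := T₀) (Ms := Ms) (I := ∅) hq hM hj
    have h1 : (ZP q n Ms T₀).eval (j : ℝ) ^ 3 =
        AB q n p.1 ((p.2.1 : ℕ) + 1) j ^ ((p.2.2 : ℕ) + 1) * (g p).eval (j : ℝ) := by
      rw [← eval_pow, hg2 p, eval_mul, eval_pow, FHb_eval]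
    have h2 : AB q n p.1 ((p.2.1 : ℕ) + 1) j ^ ((p.2.2 : ℕ) + 1) ≠ 0 := by
      intro h3
      rw [h3, zero_mul] at h1
      exact pow_ne_zero 3 hne h1
    rw [eval_mul, eval_C, h1]
    field_simp

end HZ3
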