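import Pool.Agent.LibHZ3.Zero
import Pool.Agent.LibHZ3.FHb
import Pool.Agent.LibHZ3.BPI

/-!
# Row IND: the rows (iv) are independent modulo the others (MEDIUM/STRONG, 45 min)

By `Submodule.mem_span_range_iff_exists_fun` there is `e : RA → ℝ` with
`∑ r, e r • rowA r = ∑ p, c p • rowB p` on `P`.  `F` = minus the sum of the polynomials of FHa, FHb for
`e ∘ inl`, `e ∘ inr ∘ inl`; `u M = ∑ k, C (c (M, k)) * bp q n k` for `M ∈ Ms` (0 otherwise),
`u' M i = - ∑ k, C (e (inr (inr (i, M, k)))) * bp q n k`; `BB (q n) k j = (bp q n k).eval (om q n j)`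
for `j ≤ q n` (`HZ89.bp_eval`).  `zero_est3` gives `u M = 0`, `bp_ind` gives `c = 0`.
-/

namespace HZ3

open Finset HZ89 Polynomial

theorem rows_ind {q n s T₀ d K : ℕ} {I Ms : Finset ℕ} (hq : 2 ≤ q) (hn : 1 ≤ n)
    (hI : ∀ x ∈ I, 1 ≤ x ∧ 2 * x < q)
    (hM : ∀ M ∈ Ms, 1 ≤ M ∧ M ≤ T₀) (hKd : K ≤ d) (hK : 1 ≤ K)
    (hdeg : 6 * (Ms.card * T₀) * (Ms.card * (s + 1) + 1) + 2 * d + 2 * K * (Ms.card * (s + 1)) +
      I.card * (Ms.card * (s + 1)) + 10 ≤ I.card * n)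
    (b₀ : ℕ → ℚ) (b : ℕ → Fin s → ℚ) (c : RB Ms K → ℝ)
    (hc : (∑ p, c p • fun j : P q n I => rowB q n Ms K b₀ p j) ∈ rsp q n s Ms T₀ d K b I) :
    c = 0 := by
  classical
  have hq1 : 1 ≤ q := by omega
  rw [rsp, Submodule.mem_span_range_iff_exists_fun] at hc
  obtain ⟨e, he⟩ := hc
  obtain ⟨F₀, hF₀, hF₀e⟩ := FHa (q := q) (n := n) (T₀ := T₀) (Ms := Ms) hq1 (fun k => e (Sum.inl k))
  obtain ⟨F₁, hF₁, hF₁e⟩ := FHb (q := q) (n := n) (T₀ := T₀) (Ms := Ms) hq1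
    (fun M hM' => (hM M hM').1) (fun p => e (Sum.inr (Sum.inl p)))
  set u : ℕ → ℝ[X] := fun M => if h : M ∈ Ms then ∑ k, C (c (⟨M, h⟩, k)) * bp q n k else 0 with hu
  set u' : ℕ → Fin s → ℝ[X] := fun M i =>
    if h : M ∈ Ms then ∑ k, C (-e (Sum.inr (Sum.inr (i, ⟨M, h⟩, k)))) * bp q n k else 0 with hu'
  have hkey := zero_est3 hq hn hI hM hKd hK hdeg b₀ b (-(F₀ + F₁)) (by
      rw [natDegree_neg]
      exact natDegree_add_le_of_degree_le hF₀ (hF₁.trans (Nat.le_add_right _ _))) u u'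
    (fun M hM' => by
      rw [hu]
      simp only [dif_pos hM']
      exact bp_sum_natDegree hq1 hK _)
    (fun M hM' i => by
      rw [hu']
      simp only [dif_pos hM']
      exact bp_sum_natDegree hq1 hK _) (by
    intro j hj
    have hjq : j ≤ q * n := by
      have := (Finset.mem_filter.1 hj).1
      exact (Finset.mem_range.1 this).le
    have hZ := ZP_ne (T₀ := T₀) (I := I) hq1 (fun M hM' => (hM M hM').1) hjq
    have h1 := congrFun he ⟨j, hj⟩
    rw [Finset.sum_apply, Finset.sum_apply] at h1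
    simp only [Pi.smul_apply, smul_eq_mul] at h1
    rw [Fintype.sum_sum_type, Fintype.sum_sum_type] at h1
    simp only [rowA, rowB] at h1
    have h2 : (-(F₀ + F₁)).eval (j : ℝ) / (ZP q n Ms T₀).eval (j : ℝ) ^ 3 =
        -((∑ k : Fin d, e (Sum.inl k) * (BB (q * n) k j : ℝ)) +
          ∑ p : Ms × Fin T₀ × Fin 3, e (Sum.inr (Sum.inl p)) *
            (1 / AB q n p.1 (p.2.1 + 1) j ^ ((p.2.2 : ℕ) + 1))) := by
      rw [eval_neg, eval_add, hF₀e j hjq, hF₁e j hjq, ← add_mul, ← neg_mul, mul_div_assoc,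
        div_self (pow_ne_zero 3 hZ), mul_one]
    have h3 : ∑ M ∈ Ms, ((b₀ (M * j % q) : ℝ) - psM q n M j) * (u M).eval (om q n j) =
        ∑ p : Ms × Fin K, c p * (((b₀ (p.1 * j % q) : ℝ) - psM q n p.1 j) *
          (BB (q * n) p.2 j : ℝ)) := by
      rw [← Finset.sum_coe_sort Ms, Fintype.sum_prod_type]
      refine Finset.sum_congr rfl fun M _ => ?_
      rw [hu]
      simp only [dif_pos M.2, eval_finsetSum, eval_mul, eval_C, bp_eval hq1 hjq]
      rw [Finset.mul_sum]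
      refine Finset.sum_congr rfl fun k _ => ?_
      ring
    have h4 : ∑ M ∈ Ms, ∑ i, (b (M * j % q) i : ℝ) * (u' M i).eval (om q n j) =
        -∑ p : Fin s × Ms × Fin K, e (Sum.inr (Sum.inr p)) *
          ((b (p.2.1 * j % q) p.1 : ℝ) * (BB (q * n) p.2.2 j : ℝ)) := by
      rw [← Finset.sum_coe_sort Ms, Fintype.sum_prod_type, Finset.sum_comm, ← Finset.sum_neg_distrib]
      refine Finset.sum_congr rfl fun i _ => ?_
      rw [Fintype.sum_prod_type, ← Finset.sum_neg_distrib]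
      refine Finset.sum_congr rfl fun M _ => ?_
      rw [hu']
      simp only [dif_pos M.2, eval_finsetSum, eval_mul, eval_C, bp_eval hq1 hjq]
      rw [Finset.mul_sum, ← Finset.sum_neg_distrib]
      refine Finset.sum_congr rfl fun k _ => ?_
      ring
    rw [h2, h3, h4]
    linarith)
  funext p
  obtain ⟨⟨M, hM'⟩, k⟩ := p
  have h1 := hkey M hM'
  rw [hu] at h1
  simp only [dif_pos hM'] at h1
  exact congrFun (bp_ind hq1 (fun k => c (⟨M, hM'⟩, k)) h1) k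

end HZ3
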