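import Pool.Agent.LibHZ3.Defs2

/-!
# Row PR1: the products of the sizes (MEDIUM, 30 min)

`Fintype.prod_sum_type`, `Fintype.prod_prod_type`, `Real.log_prod`; `∑_{k<d} 2 k = d (d - 1) ≤ d²`.
`log (UA (inl k)) = d + 2 k log Q₁`, `log (UA (inr (inr _))) = log B + K + 2 k log Q₂`.
Second: `log (EB p) = K + 2 k log Q₂ + log (200 (d+2)²) - 2 (d - k) log (2 r)`, and
`∑_{k<K} 2 (d - k) = 2 d K - K (K - 1) ≥ 2 d K - K²`, `log (2 r) ≥ 0`.
-/

namespace HZ3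

open Finset HZ89

theorem UA_one {s T₀ d K Q₁ Q₂ : ℕ} {Ms : Finset ℕ} {B : ℝ} (hQ₁ : 1 ≤ Q₁) (hQ₂ : 1 ≤ Q₂)
    (hB : 1 ≤ B) (r : RA s Ms T₀ d K) : 1 ≤ UA s Ms T₀ d K Q₁ Q₂ B r := by
  have h1 : (1 : ℝ) ≤ Q₁ := by exact_mod_cast hQ₁
  have h2 : (1 : ℝ) ≤ Q₂ := by exact_mod_cast hQ₂
  rcases r with k | x | ⟨i, M, k⟩
  · show (1 : ℝ) ≤ Real.exp d * (Q₁ : ℝ) ^ (2 * (k : ℕ))
    exact one_le_mul_of_one_le_of_one_le (Real.one_le_exp (Nat.cast_nonneg _)) (one_le_pow₀ h1)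
  · exact le_refl (1 : ℝ)
  · show (1 : ℝ) ≤ B * (Real.exp K * (Q₂ : ℝ) ^ (2 * (k : ℕ)))
    exact one_le_mul_of_one_le_of_one_le hB
      (one_le_mul_of_one_le_of_one_le (Real.one_le_exp (Nat.cast_nonneg _)) (one_le_pow₀ h2))

private theorem PR1_sum (d : ℕ) : ∑ k : Fin d, (2 * ((k : ℕ) : ℝ)) = (d : ℝ) * (d - 1) := by
  rw [Fin.sum_univ_eq_sum_range (fun k : ℕ => (2 * (k : ℝ)))]
  induction d with
  | zero => simp
  | succ d ih =>
    rw [Finset.sum_range_succ, ih]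
    push_cast
    ring

theorem UA_prod {s T₀ d K Q₁ Q₂ : ℕ} {Ms : Finset ℕ} {B : ℝ} (hQ₁ : 1 ≤ Q₁) (hQ₂ : 1 ≤ Q₂)
    (hB : 1 ≤ B) : Real.log (∏ r, UA s Ms T₀ d K Q₁ Q₂ B r) ≤
      (d : ℝ) ^ 2 * (Real.log Q₁ + 1) +
        s * Ms.card * (K * Real.log B + (K : ℝ) ^ 2 * (Real.log Q₂ + 1)) := by
  have h1 : (1 : ℝ) ≤ Q₁ := by exact_mod_cast hQ₁
  have h2 : (1 : ℝ) ≤ Q₂ := by exact_mod_cast hQ₂
  have l1 : 0 ≤ Real.log Q₁ := Real.log_nonneg h1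
  have l2 : 0 ≤ Real.log Q₂ := Real.log_nonneg h2
  have lB : 0 ≤ Real.log B := Real.log_nonneg hB
  rw [Real.log_prod (fun r _ => ne_of_gt (lt_of_lt_of_le one_pos (UA_one hQ₁ hQ₂ hB r))),
    Fintype.sum_sum_type, Fintype.sum_sum_type]
  have e1 : ∑ k : Fin d, Real.log (UA s Ms T₀ d K Q₁ Q₂ B (Sum.inl k)) =
      (d : ℝ) * d + (d : ℝ) * (d - 1) * Real.log Q₁ := by
    have : ∀ k : Fin d, Real.log (UA s Ms T₀ d K Q₁ Q₂ B (Sum.inl k)) =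
        (d : ℝ) + 2 * ((k : ℕ) : ℝ) * Real.log Q₁ := by
      intro k
      show Real.log (Real.exp d * (Q₁ : ℝ) ^ (2 * (k : ℕ))) = _
      rw [Real.log_mul (Real.exp_ne_zero _) (by positivity), Real.log_exp, Real.log_pow]
      push_cast
      ring
    rw [Finset.sum_congr rfl fun k _ => this k, Finset.sum_add_distrib, Finset.sum_const,
      ← Finset.sum_mul, PR1_sum, Finset.card_univ, Fintype.card_fin, nsmul_eq_mul]
  have e2 : ∑ x : (Ms × Fin T₀ × Fin 3), Real.log (UA s Ms T₀ d K Q₁ Q₂ B (Sum.inr (Sum.inl x))) = 0 := by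
    refine Finset.sum_eq_zero fun x _ => ?_
    exact Real.log_one
  have e3 : ∑ x : (Fin s × Ms × Fin K), Real.log (UA s Ms T₀ d K Q₁ Q₂ B (Sum.inr (Sum.inr x))) =
      s * (Ms.card * (K * (Real.log B + K) + (K : ℝ) * (K - 1) * Real.log Q₂)) := by
    have : ∀ x : (Fin s × Ms × Fin K), Real.log (UA s Ms T₀ d K Q₁ Q₂ B (Sum.inr (Sum.inr x))) =
        (Real.log B + (K : ℝ)) + 2 * ((x.2.2 : ℕ) : ℝ) * Real.log Q₂ := by
      rintro ⟨i, M, k⟩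
      show Real.log (B * (Real.exp K * (Q₂ : ℝ) ^ (2 * (k : ℕ)))) = _
      rw [Real.log_mul (by positivity) (by positivity),
        Real.log_mul (Real.exp_ne_zero _) (by positivity), Real.log_exp, Real.log_pow]
      push_cast
      ring
    rw [Finset.sum_congr rfl fun k _ => this k, Fintype.sum_prod_type]
    simp only [Fintype.sum_prod_type, Finset.sum_add_distrib, Finset.sum_const, ← Finset.sum_mul,
      PR1_sum, Finset.card_univ, Fintype.card_fin, Fintype.card_coe, Fintype.card_prod,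
      nsmul_eq_mul]
    push_cast
    ring
  rw [e1, e2, e3, zero_add]
  have hd : (0 : ℝ) ≤ d := Nat.cast_nonneg _
  have hK : (0 : ℝ) ≤ K := Nat.cast_nonneg _
  have f1 : (d : ℝ) * d + (d : ℝ) * (d - 1) * Real.log Q₁ ≤ (d : ℝ) ^ 2 * (Real.log Q₁ + 1) := by
    nlinarith [mul_nonneg hd l1]
  have f2 : (K : ℝ) * (Real.log B + K) + (K : ℝ) * (K - 1) * Real.log Q₂ ≤
      K * Real.log B + (K : ℝ) ^ 2 * (Real.log Q₂ + 1) := by
    nlinarith [mul_nonneg hK l2]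
  have f3 : (s : ℝ) * (Ms.card * (K * (Real.log B + K) + (K : ℝ) * (K - 1) * Real.log Q₂)) ≤
      s * Ms.card * (K * Real.log B + (K : ℝ) ^ 2 * (Real.log Q₂ + 1)) := by
    rw [mul_assoc (s : ℝ) (Ms.card : ℝ) (K * Real.log B + (K : ℝ) ^ 2 * (Real.log Q₂ + 1))]
    exact mul_le_mul_of_nonneg_left (mul_le_mul_of_nonneg_left f2 (Nat.cast_nonneg _))
      (Nat.cast_nonneg _)
  exact add_le_add f1 f3

theorem EB_pos {d K Q₂ r : ℕ} {Ms : Finset ℕ} (hQ₂ : 1 ≤ Q₂) (hr : 1 ≤ r) (p : RB Ms K) :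
    0 < EB Ms K Q₂ r d p := by
  have h2 : (1 : ℝ) ≤ Q₂ := by exact_mod_cast hQ₂
  have h3 : (1 : ℝ) ≤ r := by exact_mod_cast hr
  unfold EB
  positivity

theorem EB_prod {d K Q₂ r : ℕ} {Ms : Finset ℕ} (hQ₂ : 1 ≤ Q₂) (hr : 1 ≤ r) (hKd : K ≤ d) :
    Real.log (∏ p, EB Ms K Q₂ r d p) ≤ Ms.card * ((K : ℝ) ^ 2 * (Real.log Q₂ + 1) +
      K * Real.log (200 * ((d : ℝ) + 2) ^ 2) - (2 * d * K - (K : ℝ) ^ 2) * Real.log (2 * r)) := by
  have h2 : (1 : ℝ) ≤ Q₂ := by exact_mod_cast hQ₂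
  have h3 : (1 : ℝ) ≤ r := by exact_mod_cast hr
  have l2 : 0 ≤ Real.log Q₂ := Real.log_nonneg h2
  have l3 : 0 ≤ Real.log (2 * r) := Real.log_nonneg (by linarith)
  rw [Real.log_prod (fun p _ => ne_of_gt (EB_pos hQ₂ hr p))]
  have : ∀ p : RB Ms K, Real.log (EB Ms K Q₂ r d p) =
      ((K : ℝ) + Real.log (200 * ((d : ℝ) + 2) ^ 2) - 2 * d * Real.log (2 * r)) +
        2 * ((p.2 : ℕ) : ℝ) * (Real.log Q₂ + Real.log (2 * r)) := by
    rintro ⟨M, k⟩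
    show Real.log (Real.exp K * (Q₂ : ℝ) ^ (2 * (k : ℕ)) *
      (200 * ((d : ℝ) + 2) ^ 2 * (1 / (2 * (r : ℝ))) ^ (2 * (d - (k : ℕ))))) = _
    have hk : (k : ℕ) ≤ d := le_trans (le_of_lt k.2) hKd
    rw [Real.log_mul (by positivity) (by positivity),
      Real.log_mul (Real.exp_ne_zero _) (by positivity), Real.log_exp, Real.log_pow,
      Real.log_mul (by positivity) (by positivity), Real.log_pow, one_div, Real.log_inv]
    push_cast [Nat.cast_sub hk]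
    ring
  rw [Finset.sum_congr rfl fun k _ => this k, Fintype.sum_prod_type]
  simp only [Finset.sum_add_distrib, Finset.sum_const, ← Finset.sum_mul,
      PR1_sum, Finset.card_univ, Fintype.card_fin, Fintype.card_coe, nsmul_eq_mul]
  have hK : (0 : ℝ) ≤ K := Nat.cast_nonneg _
  rw [← mul_add]
  refine mul_le_mul_of_nonneg_left ?_ (Nat.cast_nonneg _)
  nlinarith [mul_nonneg hK l2, mul_nonneg hK l3]

end HZ3
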