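import Pool.Agent.LibHZ3.Defs2

/-!
# Row F1: the identity `g_M(j) = S(M j mod q) - ps_M(j)` (MEDIUM, 30 min)

Put `i = M * j / q`, `x = M * j % q`, so `M j = q i + x` (`Nat.div_add_mod`), `1 ≤ x < q` (`hx`) and
`i < M n` (since `M j < M q n`).  Then `q (t + 1) + M j = q (t + i + 1) + x` and
`q (t + 1) + M (q n - j) = q (t + (M n - i)) + (q - x)`.  `S q x` is the sum of the two series
`∑' m, 1 / (q m + x)³` and `∑' m, 1 / (q m + (q - x))³` (both summable: compare with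
`1 / (m + 1)³ * C`, e.g. `q m + x ≥ x (m + 1) ≥ m + 1` as `q ≥ x ≥ 1`), and
`Summable.sum_add_tsum_nat_add` splits off the first `i + 1` resp. `M n - i` terms.
-/

namespace HZ3

open Finset HZ89

theorem gM_eq {q n M j : ℕ} (hq : 2 ≤ q) (hM : 1 ≤ M) (hj : j < q * n) (hx : M * j % q ≠ 0) :
    gM q n M j = S q (M * j % q) - psM q n M j := by
  have hq0 : (0 : ℝ) < q := by
    have : 0 < q := by omega
    exact_mod_cast this
  have hqx : M * j % q < q := Nat.mod_lt _ (by omega)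
  have hx0 : (0 : ℝ) < ((M * j % q : ℕ) : ℝ) := by
    exact_mod_cast Nat.pos_of_ne_zero hx
  have hx1 : (0 : ℝ) < (q : ℝ) - ((M * j % q : ℕ) : ℝ) := by
    have : ((M * j % q : ℕ) : ℝ) < q := by exact_mod_cast hqx
    linarith
  have hMj : (M : ℝ) * j = q * ((M * j / q : ℕ) : ℝ) + ((M * j % q : ℕ) : ℝ) := by
    have h := Nat.div_add_mod (M * j) q
    have h' : ((q * (M * j / q) + M * j % q : ℕ) : ℝ) = ((M * j : ℕ) : ℝ) := by rw [h]
    push_cast at h' ⊢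
    linarith
  have hi : M * j / q ≤ M * n := by
    have h1 : M * j ≤ q * (M * n) := by
      calc M * j ≤ M * (q * n) := Nat.mul_le_mul_left _ hj.le
        _ = q * (M * n) := by ring
    calc M * j / q ≤ q * (M * n) / q := Nat.div_le_div_right h1
      _ = M * n := Nat.mul_div_cancel_left _ (by omega)
  have hMi : ((M * n - M * j / q : ℕ) : ℝ) = (M : ℝ) * n - ((M * j / q : ℕ) : ℝ) := by
    rw [Nat.cast_sub hi, Nat.cast_mul]
  have hs1 := f1_summable hq0 hx0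
  have hs2 := f1_summable hq0 hx1
  have e1 : ∀ t : ℕ, 1 / ((q : ℝ) * (t + 1) + M * j) ^ 3 =
      1 / ((q : ℝ) * ((t + (M * j / q + 1) : ℕ) : ℝ) + ((M * j % q : ℕ) : ℝ)) ^ 3 := by
    intro t
    rw [hMj]
    push_cast
    congr 2
    ring
  have e2 : ∀ t : ℕ, 1 / ((q : ℝ) * (t + 1) + M * ((q : ℝ) * n - j)) ^ 3 =
      1 / ((q : ℝ) * ((t + (M * n - M * j / q) : ℕ) : ℝ) +
        ((q : ℝ) - ((M * j % q : ℕ) : ℝ))) ^ 3 := by
    intro t
    rw [Nat.cast_add, hMi]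
    congr 2
    have : (M : ℝ) * ((q : ℝ) * n - j) = q * (M * n) - M * j := by ring
    rw [this, hMj]
    ring
  have hs1' : Summable fun t : ℕ => 1 / ((q : ℝ) * ((t + (M * j / q + 1) : ℕ) : ℝ) +
      ((M * j % q : ℕ) : ℝ)) ^ 3 :=
    (summable_nat_add_iff (f := fun m : ℕ => 1 / ((q : ℝ) * m + ((M * j % q : ℕ) : ℝ)) ^ 3) _).2 hs1
  have hs2' : Summable fun t : ℕ => 1 / ((q : ℝ) * ((t + (M * n - M * j / q) : ℕ) : ℝ) +
      ((q : ℝ) - ((M * j % q : ℕ) : ℝ))) ^ 3 :=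
    (summable_nat_add_iff
      (f := fun m : ℕ => 1 / ((q : ℝ) * m + ((q : ℝ) - ((M * j % q : ℕ) : ℝ))) ^ 3) _).2 hs2
  unfold gM S psM
  simp only [e1, e2]
  rw [hs1'.tsum_add hs2', f1_tsum hq0 hx0, f1_tsum hq0 hx1, hs1.tsum_add hs2]
  ring

end HZ3
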