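import Pool.Agent.LibHZ3.SP2
import Pool.Agent.LibHZ3.AN1
import Pool.Agent.LibHZ3.F1

/-!
# Row SM: the rows (iv) are small modulo the span of the others (MEDIUM/STRONG, 45 min)

Let `p = (M, k)`, `M j % q = M (j % q) % q`, which is not zero (`M` and `j % q ∈ I` are prime to `q`,
`q ≥ 2`).  Row (iv) plus `∑ i, ξ i` times the row (iii) with index `(i, M, k)` is
`BB (q n) k j * (S q (M j % q) - psM q n M j) = BB (q n) k j * gM q n M j` (F1), and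
`gM q n M j = 1 / (q M)³ * ∑' t, kap n ((t + 1) / M) (om q n j)` (F2).  Split the series at `T₀`
(`Summable.sum_add_tsum_nat_add`, AN1b `kap_summable` with `T₀ = 0`): the terms `t < T₀` by row SP2;
for the tail take `p₀` from `tail_poly` with `h = d - k ≥ 1`: `BB * p₀.eval (om) =
((bp q n k) * p₀).eval (om)`, degree `< d`: row SP1.  What is left is
`v' j = BB (q n) k j * (1 / (q M)³) * (tail - p₀.eval (om q n j))`, and
`(1 / (q M)³) * M³ ≤ 1`, `(h + 2)² ≤ (d + 2)²`, `0 ≤ om q n j ≤ n² / 4` (`HZ89.om_pos`, `HZ89.om_le`).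
-/

namespace HZ3

open Finset HZ89 Polynomial

theorem rows_small {q n s T₀ T d K : ℕ} {Ms I : Finset ℕ} (hq : 2 ≤ q) (hn : 1 ≤ n) (hT : n ≤ T)
    (hM : ∀ M ∈ Ms, 1 ≤ M ∧ M * T ≤ T₀) (hKd : K ≤ d)
    (hI : ∀ x ∈ I, 1 ≤ x ∧ 2 * x < q) (hne : ∀ x ∈ I, ∀ M ∈ Ms, M * x % q ≠ 0) (ξ : Fin s → ℝ) (b₀ : ℕ → ℚ)
    (b : ℕ → Fin s → ℚ) (hS : ∀ x ∈ I, ∀ M ∈ Ms,
      S q (M * x % q) = (b₀ (M * x % q) : ℝ) + ∑ i, (b (M * x % q) i : ℝ) * ξ i) (p : RB Ms K) :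
    ∃ v' : P q n I → ℝ, (v' - fun j : P q n I => rowB q n Ms K b₀ p j) ∈ rsp q n s Ms T₀ d K b I ∧
      ∀ j : P q n I, |v' j| ≤ (BB (q * n) p.2 j : ℝ) *
        (200 * ((d : ℝ) + 2) ^ 2 * ((n : ℝ) / (2 * T)) ^ (2 * (d - (p.2 : ℕ)))) := by
  obtain ⟨⟨M, hMs⟩, k⟩ := p
  obtain ⟨hM1, hMT⟩ := hM M hMs
  have hq1 : 1 ≤ q := by omega
  have hI2 : ∀ x ∈ I, 1 ≤ x ∧ 2 * x < q := hI
  have hkK := k.2
  have hk : (k : ℕ) < d := lt_of_lt_of_le k.2 hKd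
  obtain ⟨p₀, hp₀, hp₀b⟩ := tail_poly (h := d - (k : ℕ)) hn hT hM1 hMT (by omega)
  have hqr : (1 : ℝ) ≤ q := by exact_mod_cast hq1
  have hMr : (1 : ℝ) ≤ M := by exact_mod_cast hM1
  set γ : ℝ := 1 / ((q : ℝ) * M) ^ 3 with hγ
  have hγ0 : 0 ≤ γ := by positivity
  let tl : ℕ → ℝ := fun j => ∑' t : ℕ, kap n (((t + T₀ + 1 : ℕ) : ℝ) / M) (om q n j)
  -- the rows (iv)
  have hrow : ∀ j : P q n I, rowB q n Ms K b₀ (⟨M, hMs⟩, k) j =
      (BB (q * n) k j : ℝ) * gM q n M j - ∑ i, ξ i *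
        rowA q n s Ms T₀ d K b (Sum.inr (Sum.inr (i, ⟨M, hMs⟩, k))) j := by
    intro j
    obtain ⟨hj1, hj2⟩ := mem_filter.1 j.2
    have hjlt := mem_range.1 hj1
    have hjx := hI _ hj2
    have hmod : M * ((j : ℕ) % q) % q = M * j % q := by
      rw [Nat.mul_mod, Nat.mod_mod, ← Nat.mul_mod]
    have hne : M * (j : ℕ) % q ≠ 0 := by
      rw [← hmod]
      exact hne _ hj2 M hMs
    have h4 := hS _ hj2 M hMs
    rw [hmod] at h4
    rw [gM_eq hq hM1 hjlt hne, h4]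
    simp only [rowB, rowA]
    have h5 : ∑ i, ξ i * ((b (M * (j : ℕ) % q) i : ℝ) * (BB (q * n) k j : ℝ)) =
        (∑ i, (b (M * (j : ℕ) % q) i : ℝ) * ξ i) * (BB (q * n) k j : ℝ) := by
      rw [sum_mul]
      exact sum_congr rfl fun i _ => by ring
    rw [h5]
    ring
  -- the series
  have hsplit : ∀ j : P q n I, gM q n M j = γ * (∑ t ∈ range T₀,
      kap n (((t : ℝ) + 1) / M) (om q n j) + tl j) := by
    intro j
    have hw : 0 < om q n j := om_pos hI2 j.2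
    have h1 := kap_summable (n := n) (T₀ := 0) hM1 hw.le
    have h2 : Summable fun t : ℕ => kap n (((t : ℝ) + 1) / M) (om q n j) := by
      refine h1.congr fun t => ?_
      push_cast
      rw [add_zero]
    rw [gM_kap hq1 hM1 hI2 j.2, ← h2.sum_add_tsum_nat_add T₀]
    congr 2
    refine tsum_congr fun t => ?_
    push_cast
    rfl
  refine ⟨fun j => (BB (q * n) k j : ℝ) * (γ * (tl j - p₀.eval (om q n j))), ?_, fun j => ?_⟩
  · have hfun : ((fun j : P q n I => (BB (q * n) k j : ℝ) * (γ * (tl j - p₀.eval (om q n j)))) -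
        fun j : P q n I => rowB q n Ms K b₀ (⟨M, hMs⟩, k) j) =
        (-γ) • (fun j : P q n I => (bp q n k * p₀).eval (om q n j)) +
        ((-γ) • ∑ t ∈ range T₀, (fun j : P q n I => (BB (q * n) k j : ℝ) *
          kap n (((t : ℝ) + 1) / M) (om q n j)) +
        ∑ i, ξ i • fun j : P q n I =>
          rowA q n s Ms T₀ d K b (Sum.inr (Sum.inr (i, ⟨M, hMs⟩, k))) j) := by
      funext j
      obtain ⟨hj1, -⟩ := mem_filter.1 j.2
      have hjlt := (mem_range.1 hj1).le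
      simp only [Pi.sub_apply, Pi.add_apply, Pi.smul_apply, Finset.sum_apply, smul_eq_mul]
      rw [hrow j, hsplit j, eval_mul, bp_eval hq1 hjlt, ← mul_sum]
      ring
    rw [hfun]
    refine Submodule.add_mem _ (Submodule.smul_mem _ _ ?_) (Submodule.add_mem _
      (Submodule.smul_mem _ _ (Submodule.sum_mem _ fun t ht => ?_))
      (Submodule.sum_mem _ fun i _ => Submodule.smul_mem _ _ ?_))
    · apply poly_mem hq1 b
      refine lt_of_le_of_lt natDegree_mul_le ?_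
      rw [bp_natDegree hq1]
      omega
    · exact head_mem hq1 hI2 b hMs hM1 hk (mem_range.1 ht)
    · exact Submodule.subset_span ⟨Sum.inr (Sum.inr (i, ⟨M, hMs⟩, k)), rfl⟩
  · have hw : 0 < om q n j := om_pos hI2 j.2
    have h1 := hp₀b (om q n j) hw.le (om_le _)
    have hB0 : (0 : ℝ) ≤ (BB (q * n) k j : ℝ) := Nat.cast_nonneg _
    change |(BB (q * n) k j : ℝ) * (γ * (tl j - p₀.eval (om q n j)))| ≤ _
    rw [abs_mul, abs_of_nonneg hB0]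
    refine mul_le_mul_of_nonneg_left ?_ hB0
    rw [abs_mul, abs_of_nonneg hγ0]
    refine (mul_le_mul_of_nonneg_left h1 hγ0).trans ?_
    have hMq3 : γ * (M : ℝ) ^ 3 ≤ 1 := by
      rw [hγ, mul_pow, one_div, mul_inv, mul_assoc,
        inv_mul_cancel₀ (pow_ne_zero 3 (by positivity)), mul_one]
      exact inv_le_one_of_one_le₀ (one_le_pow₀ hqr)
    have hhd : (((d - (k : ℕ) : ℕ) : ℝ) + 2) ^ 2 ≤ ((d : ℝ) + 2) ^ 2 := by
      have h2 : ((d - (k : ℕ) : ℕ) : ℝ) ≤ d := by exact_mod_cast Nat.sub_le _ _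
      have h3 : (0 : ℝ) ≤ ((d - (k : ℕ) : ℕ) : ℝ) := Nat.cast_nonneg _
      nlinarith
    have hx0 : (0 : ℝ) ≤ ((n : ℝ) / (2 * T)) ^ (2 * (d - (k : ℕ))) := by positivity
    have hE : (0 : ℝ) ≤ 200 * (((d - (k : ℕ) : ℕ) : ℝ) + 2) ^ 2 *
        ((n : ℝ) / (2 * T)) ^ (2 * (d - (k : ℕ))) := by positivity
    calc γ * (200 * (((d - (k : ℕ) : ℕ) : ℝ) + 2) ^ 2 * (M : ℝ) ^ 3 *
          ((n : ℝ) / (2 * T)) ^ (2 * (d - (k : ℕ))))
        = (γ * (M : ℝ) ^ 3) * (200 * (((d - (k : ℕ) : ℕ) : ℝ) + 2) ^ 2 *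
          ((n : ℝ) / (2 * T)) ^ (2 * (d - (k : ℕ)))) := by ring
      _ ≤ 1 * (200 * (((d - (k : ℕ) : ℕ) : ℝ) + 2) ^ 2 *
          ((n : ℝ) / (2 * T)) ^ (2 * (d - (k : ℕ)))) := mul_le_mul_of_nonneg_right hMq3 hE
      _ ≤ 200 * ((d : ℝ) + 2) ^ 2 * ((n : ℝ) / (2 * T)) ^ (2 * (d - (k : ℕ))) := by
        rw [one_mul]
        refine mul_le_mul_of_nonneg_right ?_ hx0
        linarith

end HZ3
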