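import Pool.Agent.LibHZ3.Defs2
import Pool.Agent.LibHZ89.Main

/-!
# Row VS: symmetry, the values as rational combinations (MEDIUM, 30 min)

`hur_one_sub`: `hur_eq` for `y` and `1 - y` (or reindex the series over `ℤ`, `n ↦ - n - 1`).
`S_eq'`: as `HZ89.S_eq` (file `LibHZ89/Main.lean`), with `x < q` only: `(q m + x)³ = q³ (m + x / q)³`.
`S_rep`: a basis `bas` of `V` (`Module.finBasisOfFinrankEq`), `ξ i = bas i`; for `y` with
`hur (y / q) ∈ V ⊔ ℚ 1`: `hur (y / q) = v + a` (`Submodule.mem_sup`, `Submodule.mem_span_singleton`),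
`v = ∑ repr v i • bas i` (see the beginning of the proof of `HZ89.core'` in `LibHZ89/Core2.lean`), and
divide by `q³`.
-/

namespace HZ3

open Finset HZ89

theorem hur_one_sub {y : ℝ} (h0 : 0 < y) (h1 : y < 1) : hur (1 - y) = hur y := by
  rw [hur_eq h0 h1, hur_eq (y := 1 - y) (by linarith) (by linarith)]
  refine tsum_congr fun m => ?_
  rw [sub_sub_cancel, add_comm]

theorem S_eq' {q x : ℕ} (hx : 1 ≤ x) (hx2 : x < q) :
    S q x = 1 / (q : ℝ) ^ 3 * hur ((x : ℝ) / q) := by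
  have hq : (0 : ℝ) < q := by exact_mod_cast (by omega : 0 < q)
  have hx0 : (0 : ℝ) < x := by exact_mod_cast hx
  have hxq : (x : ℝ) < q := by exact_mod_cast hx2
  rw [hur_eq (by positivity) (by rw [div_lt_one hq]; exact hxq), ← tsum_mul_left]
  unfold S
  refine tsum_congr fun m => ?_
  have e1 : (q : ℝ) * m + x = q * (m + x / q) := by field_simp
  have e2 : (q : ℝ) * m + (q - x) = q * (m + (1 - x / q)) := by field_simp
  rw [e1, e2, mul_pow, mul_pow, mul_add, ← one_div_mul_one_div_rev, ← one_div_mul_one_div_rev]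
  ring

theorem S_rep {q s : ℕ} (V : Submodule ℚ ℝ) (hV : Module.Finite ℚ V)
    (hs : Module.finrank ℚ V = s) : ∃ (ξ : Fin s → ℝ) (b₀ : ℕ → ℚ) (b : ℕ → Fin s → ℚ),
      ∀ y : ℕ, 1 ≤ y → y < q → hur ((y : ℝ) / q) ∈ V ⊔ Submodule.span ℚ {(1 : ℝ)} →
        S q y = (b₀ y : ℝ) + ∑ i, (b y i : ℝ) * ξ i := by
  have bas := Module.finBasisOfFinrankEq ℚ V hs
  have hrepr : ∀ v : V, (v : ℝ) = ∑ i, (bas.repr v i : ℝ) * (bas i : ℝ) := by
    intro v
    have h := congrArg (fun w : V => (w : ℝ)) (bas.sum_repr v)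
    simp only [Submodule.coe_sum, Submodule.coe_smul, Rat.smul_def] at h
    exact h.symm
  have key : ∀ y : ℕ, ∃ (c₀ : ℚ) (c : Fin s → ℚ), 1 ≤ y → y < q →
      hur ((y : ℝ) / q) ∈ V ⊔ Submodule.span ℚ {(1 : ℝ)} →
        S q y = (c₀ : ℝ) + ∑ i, (c i : ℝ) * (bas i : ℝ) := by
    intro y
    by_cases h : 1 ≤ y ∧ y < q ∧ hur ((y : ℝ) / q) ∈ V ⊔ Submodule.span ℚ {(1 : ℝ)}
    · obtain ⟨h1, h2, h3⟩ := h
      obtain ⟨v, hv, w, hw, hvw⟩ := Submodule.mem_sup.1 h3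
      obtain ⟨a, rfl⟩ := Submodule.mem_span_singleton.1 hw
      refine ⟨1 / (q : ℚ) ^ 3 * a, fun i => 1 / (q : ℚ) ^ 3 * bas.repr ⟨v, hv⟩ i,
        fun _ _ _ => ?_⟩
      have h4 := hrepr ⟨v, hv⟩
      rw [S_eq' h1 h2, ← hvw]
      rw [Rat.smul_def, mul_one]
      have h5 : v = ∑ i, (bas.repr ⟨v, hv⟩ i : ℝ) * (bas i : ℝ) := h4
      rw [mul_add, add_comm]
      congr 1
      · push_cast
        ring
      · conv_lhs => rw [h5]
        rw [Finset.mul_sum]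
        refine Finset.sum_congr rfl fun i _ => ?_
        push_cast
        ring
    · exact ⟨0, fun _ => 0, fun h1 h2 h3 => absurd ⟨h1, h2, h3⟩ h⟩
  choose b₀ b hb using key
  exact ⟨fun i => (bas i : ℝ), b₀, b, hb⟩

end HZ3
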