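import Pool.Agent.LibHZ3.Det
import Pool.Agent.LibHZ3.IND
import Pool.Agent.LibHZ3.SM
import Pool.Agent.LibHZ3.IN3
import Pool.Agent.LibHZ3.IN4
import Pool.Agent.LibHZ3.BBe
import Pool.Agent.LibHZ3.PR1
import Pool.Agent.LibHZ3.LIM
import Pool.Agent.LibHZ3.VS

/-!
# The contradiction (assembly, helper89)
-/

namespace HZ3

open Finset HZ89 Polynomial

/-- the inequality for one `n` -/
theorem core_n {q s X δ k r Q₁ Q₂ n D₀ : ℕ} {I Ms : Finset ℕ} {B : ℝ} (hq : 2 ≤ q) (hn1 : 1 ≤ n)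
    (hI : ∀ x ∈ I, 1 ≤ x ∧ 2 * x < q) (hne : ∀ x ∈ I, ∀ M ∈ Ms, M * x % q ≠ 0)
    (hM : ∀ M ∈ Ms, 1 ≤ M ∧ M ≤ X) (hA : Adm q s I.card X Ms.card δ k r Q₁ Q₂)
    (hQ1 : 1 ≤ Q₁) (hQ2 : 1 ≤ Q₂)
    (ξ : Fin s → ℝ) (b₀ : ℕ → ℚ) (b : ℕ → Fin s → ℚ) (hS : ∀ x ∈ I, ∀ M ∈ Ms,
      S q (M * x % q) = (b₀ (M * x % q) : ℝ) + ∑ i, (b (M * x % q) i : ℝ) * ξ i)
    (hD₀ : 1 ≤ D₀) (hb₀ : ∀ x < q, ∃ m : ℤ, (D₀ : ℚ) * b₀ x = m)
    (hb : ∀ x < q, ∀ i, ∃ m : ℤ, (D₀ : ℚ) * b x i = m) (hB1 : 1 ≤ B)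
    (hB : ∀ x < q, ∀ i, |(b x i : ℝ)| ≤ B)
    (hn : I.card * (Ms.card * (s + 1)) + 10 ≤ n) :
    1 ≤ ((D₀ : ℝ) * (q ^ (66 * Ms.card * (X * (r * n) + X * n + 1)) : ℕ)) ^
        (Fintype.card (RA s Ms (X * (r * n)) (δ * n) (k * n)) + Fintype.card (RB Ms (k * n))) *
      (Fintype.card (RA s Ms (X * (r * n)) (δ * n) (k * n)) +
        Fintype.card (RB Ms (k * n))).factorial *
      (∏ a, UA s Ms (X * (r * n)) (δ * n) (k * n) Q₁ Q₂ B a) *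
      ∏ p, EB Ms (k * n) Q₂ r (δ * n) p := by
  classical
  obtain ⟨hk, hkδ, hr, hQ₁, hQ₂, hZE, -⟩ := hA
  set d := δ * n with hd
  set K := k * n with hK
  set T := r * n with hT
  set T₀ := X * T with hT₀
  set K' := T₀ + X * n + 1 with hK'
  have hT1 : n ≤ T := by
    rw [hT]
    exact Nat.le_mul_of_pos_left n hr
  have hKd : K ≤ d := Nat.mul_le_mul_right n hkδ
  have hK1 : 1 ≤ K := Nat.mul_pos hk hn1
  have hI2 : ∀ x ∈ I, 1 ≤ x ∧ 2 * x < q := hI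
  have hX : ∀ M ∈ Ms, M ≤ T₀ := by
    intro M hM'
    refine (hM M hM').2.trans ?_
    rw [hT₀]
    exact Nat.le_mul_of_pos_right X (Nat.mul_pos hr hn1)
  have hxj : ∀ j ∈ P q n I, ∀ M ∈ Ms, M * j % q ≠ 0 := by
    intro j hj M hM'
    obtain ⟨-, -, h3, -, -⟩ := mem_P hI2 hj
    have h4 := hne _ h3 M hM'
    have hmod : M * (j % q) % q = M * j % q := by
      rw [Nat.mul_mod, Nat.mod_mod, ← Nat.mul_mod]
    rwa [hmod] at h4
  have hdeg : 6 * (Ms.card * T₀) * (Ms.card * (s + 1) + 1) + 2 * d + 2 * K * (Ms.card * (s + 1)) +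
      I.card * (Ms.card * (s + 1)) + 10 ≤ I.card * n := by
    have h1 : (6 * Ms.card * X * r * (Ms.card * (s + 1) + 1) + 2 * δ +
        2 * k * Ms.card * (s + 1) + 1) * n ≤ I.card * n := Nat.mul_le_mul_right n hZE
    have h2 : (6 * Ms.card * X * r * (Ms.card * (s + 1) + 1) + 2 * δ +
        2 * k * Ms.card * (s + 1) + 1) * n = 6 * (Ms.card * T₀) * (Ms.card * (s + 1) + 1) + 2 * d +
        2 * K * (Ms.card * (s + 1)) + n := by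
      rw [hT₀, hT, hd, hK]
      ring
    omega
  have hsm := fun p : RB Ms K => rows_small (T₀ := T₀) (T := T) (d := d) hq hn1 hT1
    (fun M hM' => ⟨(hM M hM').1, Nat.mul_le_mul_right T (hM M hM').2⟩) hKd hI hne ξ b₀ b
    hS p
  choose v' hv'1 hv'2 using hsm
  refine det_ineq (J := P q n I) (fun (a : RA s Ms T₀ d K) (j : P q n I) =>
    rowA q n s Ms T₀ d K b a j) (fun (p : RB Ms K) (j : P q n I) => rowB q n Ms K b₀ p j) v'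
    (fun j => wj q Ms K' j) ?_ ?_ ?_ ?_ hD₀ (Nat.one_le_pow _ _ (by omega)) ?_ ?_ ?_ ?_ ?_
  · intro c hc
    exact rows_ind hq hn1 hI (fun M hM' => ⟨(hM M hM').1, hX M hM'⟩) hKd hK1 hdeg
      b₀ b c hc
  · exact hv'1
  · rintro a ⟨j, hj⟩
    obtain ⟨-, h2, -, -, -⟩ := mem_P hI2 hj
    exact rowA_int hq hM le_rfl b hb h2 (hxj j hj) a
  · rintro p ⟨j, hj⟩
    obtain ⟨-, h2, -, -, -⟩ := mem_P hI2 hj
    exact rowB_int hq hM (by omega) b₀ hb₀ h2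
      (hxj j hj) p
  · rintro ⟨j, hj⟩
    exact wj_pos hq (hxj j hj)
  · rintro ⟨j, hj⟩
    exact wj_le hq (hxj j hj)
  · rintro a ⟨j, hj⟩
    obtain ⟨-, h2, -, -, -⟩ := mem_P hI2 hj
    refine rowA_le (by omega) hQ1 hQ2 ?_ ?_ b hB h2.le a
    · rw [hd, ← mul_assoc]
      exact Nat.mul_le_mul_right n hQ₁
    · rw [hK, ← mul_assoc]
      exact Nat.mul_le_mul_right n hQ₂
  · intro a
    exact UA_one hQ1 hQ2 hB1 a
  · rintro p ⟨j, hj⟩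
    obtain ⟨-, h2, -, -, -⟩ := mem_P hI2 hj
    refine (hv'2 p ⟨j, hj⟩).trans ?_
    have h3 : (BB (q * n) p.2 j : ℝ) ≤ Real.exp K * (Q₂ : ℝ) ^ (2 * (p.2 : ℕ)) := by
      refine BB_exp h2.le hQ2 ?_
      rw [hK, ← mul_assoc]
      exact Nat.mul_le_mul_right n hQ₂
    have h4 : (n : ℝ) / (2 * T) = 1 / (2 * (r : ℝ)) := by
      have hn0 : (n : ℝ) ≠ 0 := by exact_mod_cast (by omega : n ≠ 0)
      have hr0 : (r : ℝ) ≠ 0 := by exact_mod_cast (by omega : r ≠ 0)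
      rw [hT]
      push_cast
      field_simp
    unfold EB
    rw [h4]
    gcongr

theorem core3 {q s X δ k r Q₁ Q₂ : ℕ} {I Ms : Finset ℕ} (hq : 2 ≤ q)
    (hI : ∀ x ∈ I, 1 ≤ x ∧ 2 * x < q) (hne : ∀ x ∈ I, ∀ M ∈ Ms, M * x % q ≠ 0) (hMs : Ms.Nonempty)
    (hM : ∀ M ∈ Ms, 1 ≤ M ∧ M ≤ X) (hA : Adm q s I.card X Ms.card δ k r Q₁ Q₂)
    (ξ : Fin s → ℝ) (b₀ : ℕ → ℚ) (b : ℕ → Fin s → ℚ) (hS : ∀ x ∈ I, ∀ M ∈ Ms,
      S q (M * x % q) = (b₀ (M * x % q) : ℝ) + ∑ i, (b (M * x % q) i : ℝ) * ξ i) : False := by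
  classical
  have hk := hA.hk
  have hkδ := hA.hkδ
  have hr := hA.hr
  have hIN := hA.hIN
  have hQ1 : 1 ≤ Q₁ := by
    have h1 := hA.hQ₁
    rcases Nat.eq_zero_or_pos Q₁ with h0 | h0
    · rw [h0] at h1
      omega
    · exact h0
  have hQ2 : 1 ≤ Q₂ := by
    have h1 := hA.hQ₂
    rcases Nat.eq_zero_or_pos Q₂ with h0 | h0
    · rw [h0] at h1
      omega
    · exact h0
  obtain ⟨M₀, hM₀⟩ : ∃ M₀, M₀ = Ms.card := ⟨_, rfl⟩
  have hM₀1 : 1 ≤ M₀ := by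
    rw [hM₀]
    exact hMs.card_pos
  have hX1 : 1 ≤ X := by
    obtain ⟨M, hM'⟩ := hMs
    exact (hM M hM').1.trans (hM M hM').2
  -- the denominator and the bound
  obtain ⟨D₀, hD₀, hden⟩ := exists_den ((range q) ×ˢ (univ : Finset (Option (Fin s))))
    (fun p => match p.2 with
      | none => b₀ p.1
      | some i => b p.1 i)
  have hb₀ : ∀ x < q, ∃ m : ℤ, (D₀ : ℚ) * b₀ x = m := fun x hx =>
    hden (x, none) (mem_product.2 ⟨mem_range.2 hx, mem_univ _⟩)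
  have hb : ∀ x < q, ∀ i, ∃ m : ℤ, (D₀ : ℚ) * b x i = m := fun x hx i =>
    hden (x, some i) (mem_product.2 ⟨mem_range.2 hx, mem_univ _⟩)
  obtain ⟨B, hB1, hB⟩ : ∃ B : ℝ, 1 ≤ B ∧ ∀ x < q, ∀ i, |(b x i : ℝ)| ≤ B := by
    refine ⟨∑ x ∈ range q, ∑ i, |(b x i : ℝ)| + 1, ?_, fun x hx i => ?_⟩
    · have : (0 : ℝ) ≤ ∑ x ∈ range q, ∑ i, |(b x i : ℝ)| :=
        sum_nonneg fun _ _ => sum_nonneg fun _ _ => abs_nonneg _
      linarith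
    · have h2 : |(b x i : ℝ)| ≤ ∑ i, |(b x i : ℝ)| :=
        single_le_sum (f := fun i => |(b x i : ℝ)|) (fun _ _ => abs_nonneg _) (mem_univ i)
      have h3 : ∑ i, |(b x i : ℝ)| ≤ ∑ x ∈ range q, ∑ i, |(b x i : ℝ)| :=
        single_le_sum (f := fun x => ∑ i, |(b x i : ℝ)|)
          (fun _ _ => sum_nonneg fun _ _ => abs_nonneg _) (mem_range.2 hx)
      linarith
  -- the constants
  have hq1 : (1 : ℝ) ≤ q := by exact_mod_cast (by omega : 1 ≤ q)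
  have hlogq : 0 ≤ Real.log q := Real.log_nonneg hq1
  have hδ0 : (0 : ℝ) < δ := by exact_mod_cast (by omega : 0 < δ)
  obtain ⟨ρ, hρ⟩ : ∃ ρ : ℕ, ρ = δ + 3 * M₀ * X * r + (s + 1) * M₀ * k := ⟨_, rfl⟩
  have hρ1 : 1 ≤ ρ := by omega
  have hρR : (ρ : ℝ) = δ + 3 * M₀ * X * r + (s + 1) * M₀ * k := by
    rw [hρ]
    push_cast
    ring
  obtain ⟨E, hE⟩ : ∃ E : ℝ, E = M₀ * (2 * δ * k - (k : ℝ) ^ 2) * Real.log (2 * r) -
      ((δ : ℝ) ^ 2 * (Real.log Q₁ + 1) + (s + 1) * M₀ * (k : ℝ) ^ 2 * (Real.log Q₂ + 1) +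
      132 * M₀ * X * (r + 1) * ρ * Real.log q) := ⟨_, rfl⟩
  have hE0 : 0 < E := by
    rw [hE, hρR, hM₀]
    linarith
  refine lim_contra (E := E) (a := ρ * Real.log D₀ + s * M₀ * k * Real.log B) (R₁ := ρ)
    (c := M₀ * k) (δ := δ) hE0 (by exact_mod_cast hρ1) hδ0
    (I.card * (Ms.card * (s + 1)) + 10) ?_
  intro n hn
  have hn1 : 1 ≤ n := by omega
  have h := core_n (n := n) hq hn1 hI hne hM hA hQ1 hQ2 ξ b₀ b hS hD₀ hb₀ hb hB1 hB hn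
  have hcard : Fintype.card (RA s Ms (X * (r * n)) (δ * n) (k * n)) +
      Fintype.card (RB Ms (k * n)) = ρ * n := by
    simp only [RA, RB, Fintype.card_sum, Fintype.card_prod, Fintype.card_fin, Fintype.card_coe]
    rw [hρ, hM₀]
    ring
  rw [hcard] at h
  have hUpos : 0 < ∏ a, UA s Ms (X * (r * n)) (δ * n) (k * n) Q₁ Q₂ B a :=
    prod_pos fun a _ => zero_lt_one.trans_le (UA_one hQ1 hQ2 hB1 a)
  have hEpos : 0 < ∏ p, EB Ms (k * n) Q₂ r (δ * n) p := prod_pos fun p _ => EB_pos hQ2 hr p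
  have hUlog := UA_prod (s := s) (T₀ := X * (r * n)) (d := δ * n) (K := k * n) (Ms := Ms) hQ1 hQ2 hB1
  have hElog := EB_prod (d := δ * n) (K := k * n) (Ms := Ms) hQ2 hr (Nat.mul_le_mul_right n hkδ)
  obtain ⟨Up, hUp⟩ : ∃ Up, Up = ∏ a, UA s Ms (X * (r * n)) (δ * n) (k * n) Q₁ Q₂ B a := ⟨_, rfl⟩
  obtain ⟨Ep, hEp⟩ : ∃ Ep, Ep = ∏ p, EB Ms (k * n) Q₂ r (δ * n) p := ⟨_, rfl⟩
  rw [← hUp] at h hUpos hUlog
  rw [← hEp] at h hEpos hElog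
  obtain ⟨R, hR⟩ : ∃ R, R = ρ * n := ⟨_, rfl⟩
  rw [← hR] at h
  have hR1 : 1 ≤ R := by
    rw [hR]
    exact Nat.mul_pos hρ1 hn1
  obtain ⟨w, hw⟩ : ∃ w, w = 66 * Ms.card * (X * (r * n) + X * n + 1) := ⟨_, rfl⟩
  rw [← hw] at h
  have hD0 : (0 : ℝ) < D₀ := by exact_mod_cast hD₀
  have hq0 : (0 : ℝ) < q := by linarith
  have hlog := Real.log_nonneg h
  rw [Real.log_mul (by positivity) hEpos.ne', Real.log_mul (by positivity) hUpos.ne',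
    Real.log_mul (by positivity) (by positivity), Real.log_pow, Real.log_mul hD0.ne' (by positivity)]
    at hlog
  have hlw : Real.log ((q ^ w : ℕ) : ℝ) = w * Real.log q := by
    push_cast
    rw [Real.log_pow]
  rw [hlw] at hlog
  have hfac : Real.log ((R.factorial : ℕ) : ℝ) ≤ R * Real.log R := by
    rw [← Real.log_pow]
    refine Real.log_le_log (by exact_mod_cast R.factorial_pos) ?_
    exact_mod_cast R.factorial_le_pow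
  have hwle : (w : ℝ) ≤ 132 * M₀ * X * (r + 1) * n := by
    have h1 : w ≤ 132 * M₀ * X * (r + 1) * n := by
      rw [hw, hM₀]
      have h2 : X * (r * n) + X * n + 1 ≤ 2 * (X * (r + 1) * n) := by
        have h3 : X * (r * n) + X * n = X * (r + 1) * n := by ring
        have h4 : 1 ≤ X * (r + 1) * n := Nat.mul_pos (Nat.mul_pos hX1 (by omega)) hn1
        omega
      calc 66 * Ms.card * (X * (r * n) + X * n + 1) ≤ 66 * Ms.card * (2 * (X * (r + 1) * n)) :=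
            Nat.mul_le_mul_left _ h2
        _ = 132 * Ms.card * X * (r + 1) * n := by ring
    exact_mod_cast h1
  have hRn : (R : ℝ) = ρ * n := by
    rw [hR]
    push_cast
    ring
  have hR0 : (0 : ℝ) ≤ R := Nat.cast_nonneg R
  have h5 : (R : ℝ) * (w * Real.log q) ≤ R * (132 * M₀ * X * (r + 1) * n * Real.log q) := by
    gcongr
  push_cast at hUlog hElog
  rw [← hM₀] at hUlog hElog
  rw [hRn] at hlog hfac h5
  rw [hE]
  have hn0 : (0 : ℝ) ≤ n := Nat.cast_nonneg n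
  nlinarith [hlog, hfac, h5, hUlog, hElog]

theorem core_V {q s X δ k r Q₁ Q₂ : ℕ} {I Ms : Finset ℕ} (hq : 2 ≤ q)
    (hI : ∀ x ∈ I, 1 ≤ x ∧ 2 * x < q) (hne : ∀ x ∈ I, ∀ M ∈ Ms, M * x % q ≠ 0) (hMs : Ms.Nonempty)
    (hM : ∀ M ∈ Ms, 1 ≤ M ∧ M ≤ X) (hA : Adm q s I.card X Ms.card δ k r Q₁ Q₂)
    (V : Submodule ℚ ℝ) (hV : Module.Finite ℚ V) (hs : Module.finrank ℚ V = s)
    (hmem : ∀ x ∈ I, ∀ M ∈ Ms,
      hur (((M * x % q : ℕ) : ℝ) / q) ∈ V ⊔ Submodule.span ℚ {(1 : ℝ)}) : False := by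
  obtain ⟨ξ, b₀, b, h⟩ := S_rep (q := q) V hV hs
  refine core3 hq hI hne hMs hM hA ξ b₀ b fun x hx M hM' => ?_
  exact h _ (Nat.one_le_iff_ne_zero.2 (hne x hx M hM')) (Nat.mod_lt _ (by omega)) (hmem x hx M hM')

end HZ3
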