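import Pool.Agent.LibHZ89.Core2
import Pool.Agent.LibHZ5.BB

/-!
# Interpolation determinants at level `q`: definitions
-/

namespace HZ3

open Finset HZ89 Polynomial

/-- the partial sum of `∑ m, 1 / (q m + x)³ + 1 / (q m + q - x)³`, `x = M j mod q`, which is left over
by the shift by `j` -/
noncomputable def psM (q n M j : ℕ) : ℝ :=
  ∑ m ∈ range (M * j / q + 1), 1 / ((q : ℝ) * m + ((M * j % q : ℕ) : ℝ)) ^ 3 +
    ∑ m ∈ range (M * n - M * j / q), 1 / ((q : ℝ) * m + ((q : ℝ) - ((M * j % q : ℕ) : ℝ))) ^ 3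

/-- the product of the poles, for the multipliers `M ∈ Ms` -/
noncomputable def ZP (q n : ℕ) (Ms : Finset ℕ) (T₀ : ℕ) : ℝ[X] :=
  ∏ M ∈ Ms, ∏ t ∈ Icc 1 T₀, ((C ((q : ℝ) * t) + C (M : ℝ) * X) *
    (C ((q : ℝ) * t) + C (M : ℝ) * (C ((q : ℝ) * n) - X)))

/-- the product `(q t + M j) (q t + M (q n - j))` -/
noncomputable def AB (q n M t j : ℕ) : ℝ :=
  ((q : ℝ) * t + M * j) * ((q : ℝ) * t + M * ((q : ℝ) * n - j))

/-- `g_M(j)` -/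
noncomputable def gM (q n M j : ℕ) : ℝ :=
  ∑' t : ℕ, (1 / ((q : ℝ) * (t + 1) + M * j) ^ 3 + 1 / ((q : ℝ) * (t + 1) + M * ((q : ℝ) * n - j)) ^ 3)

/-- the least common multiple of `q m + x`, `m < K` -/
def lcmA (q x K : ℕ) : ℕ := (range K).lcm fun m => q * m + x

/-- the column factors -/
def wj (q : ℕ) (Ms : Finset ℕ) (K j : ℕ) : ℕ :=
  ∏ M ∈ Ms, (lcmA q (M * j % q) K * lcmA q (q - M * j % q) K) ^ 3

/-- the index sets of the rows -/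
abbrev RA (s : ℕ) (Ms : Finset ℕ) (T₀ d K : ℕ) : Type :=
  Fin d ⊕ ((Ms × Fin T₀ × Fin 3) ⊕ (Fin s × Ms × Fin K))

abbrev RB (Ms : Finset ℕ) (K : ℕ) : Type := Ms × Fin K

/-- the rows (i), (ii), (iii) -/
noncomputable def rowA (q n s : ℕ) (Ms : Finset ℕ) (T₀ d K : ℕ) (b : ℕ → Fin s → ℚ) :
    RA s Ms T₀ d K → ℕ → ℝ
  | Sum.inl k, j => BB (q * n) k j
  | Sum.inr (Sum.inl (M, t, i)), j => 1 / AB q n M (t + 1) j ^ ((i : ℕ) + 1)
  | Sum.inr (Sum.inr (i, M, k)), j => (b (M * j % q) i : ℝ) * BB (q * n) k j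

/-- the rows (iv) -/
noncomputable def rowB (q n : ℕ) (Ms : Finset ℕ) (K : ℕ) (b₀ : ℕ → ℚ) (p : RB Ms K) (j : ℕ) : ℝ :=
  ((b₀ (p.1 * j % q) : ℝ) - psM q n p.1 j) * BB (q * n) p.2 j

end HZ3
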