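import Pool.Agent.LibHZ3.Defs

/-!
# The span of the rows (i)-(iii), the sizes of the rows, admissible parameters
-/

namespace HZ3

open Finset HZ89 Polynomial

/-- the span of the rows (i), (ii), (iii), as functions on `P q n I` -/
noncomputable def rsp (q n s : ℕ) (Ms : Finset ℕ) (T₀ d K : ℕ) (b : ℕ → Fin s → ℚ) (I : Finset ℕ) :
    Submodule ℝ (P q n I → ℝ) :=
  Submodule.span ℝ (Set.range fun (r : RA s Ms T₀ d K) (j : P q n I) =>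
    rowA q n s Ms T₀ d K b r j)

/-- the sizes of the rows (i), (ii), (iii) -/
noncomputable def UA (s : ℕ) (Ms : Finset ℕ) (T₀ d K Q₁ Q₂ : ℕ) (B : ℝ) : RA s Ms T₀ d K → ℝ
  | Sum.inl k => Real.exp d * (Q₁ : ℝ) ^ (2 * (k : ℕ))
  | Sum.inr (Sum.inl _) => 1
  | Sum.inr (Sum.inr (_, _, k)) => B * (Real.exp K * (Q₂ : ℝ) ^ (2 * (k : ℕ)))

/-- the sizes of the rows (iv) modulo the others -/
noncomputable def EB (Ms : Finset ℕ) (K Q₂ r d : ℕ) (p : RB Ms K) : ℝ :=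
  Real.exp K * (Q₂ : ℝ) ^ (2 * (p.2 : ℕ)) *
    (200 * ((d : ℝ) + 2) ^ 2 * (1 / (2 * (r : ℝ))) ^ (2 * (d - (p.2 : ℕ))))

/-- admissible parameters: `s` = dimension, `m` = number of classes, `M₀` multipliers below `X` -/
structure Adm (q s m X M₀ δ k r Q₁ Q₂ : ℕ) : Prop where
  hk : 1 ≤ k
  hkδ : k ≤ δ
  hr : 1 ≤ r
  hQ₁ : q ≤ Q₁ * δ
  hQ₂ : q ≤ Q₂ * k
  hZE : 6 * M₀ * X * r * (M₀ * (s + 1) + 1) + 2 * δ + 2 * k * M₀ * (s + 1) < m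
  hIN : (δ : ℝ) ^ 2 * (Real.log Q₁ + 1) + (s + 1) * M₀ * (k : ℝ) ^ 2 * (Real.log Q₂ + 1) +
      132 * M₀ * X * (r + 1) * (δ + 3 * M₀ * X * r + (s + 1) * M₀ * k) * Real.log q <
    M₀ * (2 * δ * k - (k : ℝ) ^ 2) * Real.log (2 * r)

end HZ3
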