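import Mathlib

/-!
# The determinant inequality (helper5)
-/

namespace HZ3

open Finset

/-- Leibniz bound, row by row -/
theorem det_abs_le {m : Type*} [Fintype m] [DecidableEq m] (A : Matrix m m ℝ) (B : m → ℝ)
    (h : ∀ i j, |A i j| ≤ B i) : |A.det| ≤ (Fintype.card m).factorial * ∏ i, B i := by
  rw [Matrix.det_apply']
  refine (abs_sum_le_sum_abs _ _).trans ?_
  have h1 : ∀ σ ∈ (univ : Finset (Equiv.Perm m)),
      |((Equiv.Perm.sign σ : ℤ) : ℝ) * ∏ i, A (σ i) i| ≤ ∏ i, B i := by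
    intro σ _
    rw [abs_mul]
    have h2 : |((Equiv.Perm.sign σ : ℤ) : ℝ)| = 1 := by
      rw [← Int.cast_abs]
      simp
    rw [h2, one_mul, abs_prod, ← Equiv.prod_comp σ B]
    exact prod_le_prod (fun i _ => abs_nonneg _) fun i _ => h (σ i) i
  refine (sum_le_sum h1).trans ?_
  rw [sum_const, card_univ, Fintype.card_perm, nsmul_eq_mul]

/-- independent rows have a non-zero minor -/
theorem exists_minor {m J : Type*} [Fintype m] [DecidableEq m] [Fintype J] (M : m → J → ℝ)
    (h : LinearIndependent ℝ M) : ∃ g : m → J, Function.Injective g ∧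
      (Matrix.of fun i l => M i (g l)).det ≠ 0 := by
  classical
  set A : Matrix m J ℝ := Matrix.of M with hA
  have hrow : LinearIndependent ℝ A.row := h
  have hrank := hrow.rank_matrix
  rw [Matrix.rank_eq_finrank_span_cols] at hrank
  obtain ⟨κ, a, ha, hspan, hli⟩ := exists_linearIndependent' ℝ A.col
  have : Finite κ := Finite.of_injective a ha
  have : Fintype κ := Fintype.ofFinite κ
  have hcard : Fintype.card κ = Fintype.card m := by
    rw [← hrank, ← hspan]
    exact (finrank_span_eq_card hli).symm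
  obtain ⟨e⟩ := Fintype.card_eq.1 hcard
  refine ⟨fun i => a (e.symm i), fun i j hij => e.symm.injective (ha hij), ?_⟩
  have hli2 : LinearIndependent ℝ ((A.col ∘ a) ∘ e.symm) := hli.comp _ e.symm.injective
  have h2 : LinearIndependent ℝ (Matrix.of fun i l => M i (a (e.symm l))).col := hli2
  rw [Matrix.linearIndependent_cols_iff_isUnit, Matrix.isUnit_iff_isUnit_det] at h2
  exact h2.ne_zero

theorem det_ineq {J α β : Type*} [Fintype J] [Fintype α] [Fintype β]
    (u : α → J → ℝ) (v v' : β → J → ℝ) (w : J → ℕ) {D₀ W : ℕ} {U : α → ℝ} {ε : β → ℝ}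
    (hind : ∀ c : β → ℝ, (∑ b, c b • v b) ∈ Submodule.span ℝ (Set.range u) → c = 0)
    (hv' : ∀ b, v' b - v b ∈ Submodule.span ℝ (Set.range u))
    (hui : ∀ a j, ∃ z : ℤ, (D₀ : ℝ) * w j * u a j = z)
    (hvi : ∀ b j, ∃ z : ℤ, (D₀ : ℝ) * w j * v b j = z)
    (hD₀ : 1 ≤ D₀) (hW : 1 ≤ W) (hw1 : ∀ j, 1 ≤ w j) (hwW : ∀ j, w j ≤ W)
    (hu : ∀ a j, |u a j| ≤ U a) (hU : ∀ a, 1 ≤ U a) (hv : ∀ b j, |v' b j| ≤ ε b) :
    1 ≤ ((D₀ : ℝ) * W) ^ (Fintype.card α + Fintype.card β) *
      (Fintype.card α + Fintype.card β).factorial * (∏ a, U a) * ∏ b, ε b := by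
  classical
  obtain ⟨κ, a, ha, hspan, hli⟩ := exists_linearIndependent' ℝ u
  have : Finite κ := Finite.of_injective a ha
  have : Fintype κ := Fintype.ofFinite κ
  have hκ : Fintype.card κ ≤ Fintype.card α := Fintype.card_le_of_injective a ha
  -- the rows are independent
  have hliv : LinearIndependent ℝ v := by
    rw [Fintype.linearIndependent_iff]
    intro c hc b
    have := hind c (by rw [hc]; exact Submodule.zero_mem _)
    exact congrFun this b
  have hdisj : Disjoint (Submodule.span ℝ (Set.range (u ∘ a)))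
      (Submodule.span ℝ (Set.range v)) := by
    rw [hspan, Submodule.disjoint_def]
    intro x hx1 hx2
    obtain ⟨c, rfl⟩ := (Submodule.mem_span_range_iff_exists_fun ℝ).1 hx2
    have := hind c hx1
    rw [this]
    simp
  have hrows : LinearIndependent ℝ (Sum.elim (u ∘ a) v) := hli.sum_type hliv hdisj
  obtain ⟨g, hg, hdet⟩ := exists_minor (Sum.elim (u ∘ a) v) hrows
  set N : Matrix (κ ⊕ β) (κ ⊕ β) ℝ := Matrix.of fun i l => (Sum.elim (u ∘ a) v) i (g l) with hN
  -- replacement of the rows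
  have hC : ∀ b, ∃ c : κ → ℝ, ∑ k, c k • (u ∘ a) k = v' b - v b := by
    intro b
    have := hv' b
    rw [← hspan] at this
    exact (Submodule.mem_span_range_iff_exists_fun ℝ).1 this
  choose C hC using hC
  set Q : Matrix (κ ⊕ β) (κ ⊕ β) ℝ := Matrix.fromBlocks 1 0 (Matrix.of C) 1 with hQ
  have hQdet : Q.det = 1 := by
    rw [hQ, Matrix.det_fromBlocks_zero₁₂, Matrix.det_one, Matrix.det_one, mul_one]
  have hQN : ∀ i l, (Q * N) i l = (Sum.elim (u ∘ a) v') i (g l) := by
    intro i l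
    rw [Matrix.mul_apply, Fintype.sum_sum_type]
    rcases i with k | b
    · simp only [hQ, hN, Matrix.fromBlocks_apply₁₁, Matrix.fromBlocks_apply₁₂, Matrix.zero_apply,
        zero_mul, sum_const_zero, add_zero, Matrix.of_apply, Sum.elim_inl, Matrix.one_apply,
        ite_mul, one_mul, sum_ite_eq, mem_univ, if_true]
    · simp only [hQ, hN, Matrix.fromBlocks_apply₂₁, Matrix.fromBlocks_apply₂₂, Matrix.of_apply,
        Sum.elim_inl, Sum.elim_inr, Matrix.one_apply, ite_mul, one_mul, zero_mul, sum_ite_eq,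
        mem_univ, if_true]
      have h1 := congrFun (hC b) (g l)
      simp only [Finset.sum_apply, Pi.smul_apply, smul_eq_mul, Pi.sub_apply] at h1
      rw [h1]
      ring
  have hdet2 : (Q * N).det = N.det := by rw [Matrix.det_mul, hQdet, one_mul]
  -- integrality
  have hint : ∀ i l, ∃ z : ℤ, ((D₀ : ℝ) * w (g l)) * N i l = z := by
    intro i l
    rcases i with k | b
    · exact hui (a k) (g l)
    · exact hvi b (g l)
  choose Z hZ using hint
  have hdetZ : ((Matrix.of Z).det : ℝ) = (∏ l, ((D₀ : ℝ) * w (g l))) * N.det := by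
    rw [← Matrix.det_mul_row]
    have h1 := RingHom.map_det (Int.castRingHom ℝ) (Matrix.of Z)
    simp only [Int.coe_castRingHom] at h1
    rw [h1]
    congr 1
    ext i l
    simp only [RingHom.mapMatrix_apply, Matrix.map_apply, Matrix.of_apply, Int.coe_castRingHom]
    exact (hZ i l).symm
  have hprod : 0 < ∏ l, ((D₀ : ℝ) * w (g l)) := by
    refine prod_pos fun l _ => ?_
    have h1 : (0 : ℝ) < D₀ := by exact_mod_cast hD₀
    have h2 : (0 : ℝ) < w (g l) := by exact_mod_cast hw1 (g l)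
    positivity
  have hZ1 : (1 : ℝ) ≤ |((Matrix.of Z).det : ℝ)| := by
    have h1 : (Matrix.of Z).det ≠ 0 := by
      intro h0
      rw [h0, Int.cast_zero] at hdetZ
      exact (mul_ne_zero hprod.ne' hdet) hdetZ.symm
    have h2 := Int.one_le_abs h1
    exact_mod_cast h2
  rw [hdetZ, abs_mul, abs_of_pos hprod] at hZ1
  -- the upper bound
  have hbound : |N.det| ≤ (Fintype.card (κ ⊕ β)).factorial *
      ∏ i, (Sum.elim (fun k => U (a k)) ε) i := by
    rw [← hdet2]
    refine det_abs_le (Q * N) _ fun i l => ?_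
    rw [hQN]
    rcases i with k | b
    · exact hu (a k) (g l)
    · exact hv b (g l)
  rw [Fintype.prod_sum_type] at hbound
  simp only [Sum.elim_inl, Sum.elim_inr] at hbound
  have hD1 : (1 : ℝ) ≤ D₀ := by exact_mod_cast hD₀
  have hW1 : (1 : ℝ) ≤ W := by exact_mod_cast hW
  have hDW : (1 : ℝ) ≤ (D₀ : ℝ) * W := by nlinarith
  have hε : 0 ≤ ∏ b, ε b := by
    refine prod_nonneg fun b _ => ?_
    exact (abs_nonneg _).trans (hv b (g (Sum.inr b)))
  have hU0 : ∏ k, U (a k) ≤ ∏ x, U x := by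
    have h1 : ∏ k, U (a k) = ∏ x ∈ univ.image a, U x := by
      rw [prod_image fun x _ y _ h => ha h]
    rw [h1, ← prod_sdiff (subset_univ (univ.image a))]
    have h2 : (1 : ℝ) ≤ ∏ x ∈ univ \ univ.image a, U x :=
      prod_induction _ (fun x => (1 : ℝ) ≤ x) (fun a b ha hb => one_le_mul_of_one_le_of_one_le ha hb)
        le_rfl (fun x _ => hU x)
    have h3 : 0 ≤ ∏ x ∈ univ.image a, U x := prod_nonneg fun x _ => zero_le_one.trans (hU x)
    nlinarith
  have hU1 : 0 ≤ ∏ k, U (a k) := prod_nonneg fun k _ => zero_le_one.trans (hU _)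
  have h3 : ∏ l, ((D₀ : ℝ) * w (g l)) ≤ ((D₀ : ℝ) * W) ^ (Fintype.card κ + Fintype.card β) := by
    calc ∏ l, ((D₀ : ℝ) * w (g l)) ≤ ∏ _l : κ ⊕ β, ((D₀ : ℝ) * W) := by
          refine prod_le_prod (fun l _ => by positivity) fun l _ => ?_
          have : (w (g l) : ℝ) ≤ W := by exact_mod_cast hwW (g l)
          gcongr
      _ = _ := by rw [prod_const, card_univ, Fintype.card_sum]
  have h4 : ((D₀ : ℝ) * W) ^ (Fintype.card κ + Fintype.card β) ≤
      ((D₀ : ℝ) * W) ^ (Fintype.card α + Fintype.card β) :=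
    pow_le_pow_right₀ hDW (by omega)
  have h5 : ((Fintype.card (κ ⊕ β)).factorial : ℝ) ≤
      (Fintype.card α + Fintype.card β).factorial := by
    rw [Fintype.card_sum]
    exact_mod_cast Nat.factorial_le (by omega)
  calc (1 : ℝ) ≤ (∏ l, ((D₀ : ℝ) * w (g l))) * |N.det| := hZ1
    _ ≤ ((D₀ : ℝ) * W) ^ (Fintype.card α + Fintype.card β) *
        ((Fintype.card (κ ⊕ β)).factorial * ((∏ k, U (a k)) * ∏ b, ε b)) :=
        mul_le_mul (h3.trans h4) hbound (abs_nonneg _) (by positivity)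
    _ ≤ ((D₀ : ℝ) * W) ^ (Fintype.card α + Fintype.card β) *
        ((Fintype.card α + Fintype.card β).factorial * ((∏ x, U x) * ∏ b, ε b)) := by
        gcongr
    _ = _ := by ring

end HZ3
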