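import Pool.Agent.LibHZ3.Defs2

/-!
# Row F2: `g_M(j)` and the kernel (SHORT, 15 min)

`HZ89.om_mul` and `HZ89.kap_eq` (file `LibHZ89/A3b.lean`) with `t / M` resp. `(t + 1) / M` in place of
`t`; `q (t / M) + j = (q t + M j) / M` etc.
-/

namespace HZ3

open Finset HZ89

theorem AB_eq {q n M t j : ℕ} (hq : 1 ≤ q) (hM : 1 ≤ M) :
    AB q n M t j = ((q : ℝ) * M) ^ 2 * (vv n ((t : ℝ) / M) + om q n j) := by
  have hM0 : (M : ℝ) ≠ 0 := by exact_mod_cast (by omega : M ≠ 0)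
  have h1 := om_mul (n := n) hq ((t : ℝ) / M) j
  have h2 : AB q n M t j = (M : ℝ) ^ 2 *
      ((q * ((t : ℝ) / M) + j) * (q * ((t : ℝ) / M) + (q * n - j))) := by
    unfold AB
    field_simp
  rw [h2, h1]
  ring

theorem gM_kap {q n M : ℕ} {I : Finset ℕ} (hq : 1 ≤ q) (hM : 1 ≤ M)
    (hI : ∀ x ∈ I, 1 ≤ x ∧ 2 * x < q) {j : ℕ} (hj : j ∈ P q n I) :
    gM q n M j = 1 / ((q : ℝ) * M) ^ 3 * ∑' t : ℕ, kap n (((t : ℝ) + 1) / M) (om q n j) := by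
  have hM0 : (0 : ℝ) < M := by exact_mod_cast (by omega : 0 < M)
  unfold gM
  rw [← tsum_mul_left]
  refine tsum_congr fun t => ?_
  have ht : (0 : ℝ) < ((t : ℝ) + 1) / M := by positivity
  have h1 := kap_eq hq hI hj ht
  have h2 : (q : ℝ) * (t + 1) + M * j = M * (q * (((t : ℝ) + 1) / M) + j) := by
    field_simp
  have h3 : (q : ℝ) * (t + 1) + M * ((q : ℝ) * n - j) =
      M * (q * (((t : ℝ) + 1) / M) + (q * n - j)) := by
    field_simp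
  have h4 : ∀ x : ℝ, 1 / ((M : ℝ) * x) ^ 3 = 1 / (M : ℝ) ^ 3 * (1 / x ^ 3) := by
    intro x
    rw [mul_pow, one_div_mul_one_div]
  rw [h2, h3, h4, h4, ← mul_add, h1, ← mul_assoc]
  congr 1
  rw [one_div_mul_one_div, mul_pow, mul_comm]

end HZ3
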