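import Pool.Agent.LibHZ3.Defs2
import Pool.Agent.LibHZ89.B1

/-!
# Row FHa: the rows (i) as polynomials in `j` (MEDIUM, 25 min)

`(ZP q n Ms T₀).natDegree ≤ 2 (Ms.card T₀)`.  `BB (q n) k j = (bp q n k).eval (om q n j)`
(`HZ89.bp_eval`), `om q n j = ωP.eval j`, `ωP = C (1/q) * X * (C n - C (1/q) * X)` of degree `≤ 2`;
`F = (∑ k, C (e₀ k) * (bp q n k).comp ωP) * ZP^3`.
-/

namespace HZ3

open Finset HZ89 Polynomial

private theorem fha_lin (a b : ℝ) : (C a + C b * X : ℝ[X]).natDegree ≤ 1 := by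
  rw [add_comm]; exact natDegree_linear_le

private theorem fha_lin2 (a b c : ℝ) : (C a + C b * (C c - X) : ℝ[X]).natDegree ≤ 1 := by
  have h : (C a + C b * (C c - X) : ℝ[X]) = C (-b) * X + C (a + b * c) := by
    simp only [C_neg, C_add, C_mul]
    ring
  rw [h]; exact natDegree_linear_le

theorem ZP_natDegree {q n T₀ : ℕ} {Ms : Finset ℕ} :
    (ZP q n Ms T₀).natDegree ≤ 2 * (Ms.card * T₀) := by
  unfold ZP
  refine (natDegree_prod_le _ _).trans ?_
  have h1 : ∀ M ∈ Ms, (∏ t ∈ Icc 1 T₀, ((C ((q : ℝ) * t) + C (M : ℝ) * X) *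
      (C ((q : ℝ) * t) + C (M : ℝ) * (C ((q : ℝ) * n) - X)))).natDegree ≤ 2 * T₀ := by
    intro M _
    refine (natDegree_prod_le _ _).trans ?_
    refine (Finset.sum_le_card_nsmul _ _ 2 fun t _ => ?_).trans ?_
    · refine natDegree_mul_le.trans ?_
      exact Nat.add_le_add (fha_lin _ _) (fha_lin2 _ _ _)
    · simp only [Nat.card_Icc, smul_eq_mul]
      omega
  refine (Finset.sum_le_card_nsmul _ _ (2 * T₀) h1).trans (le_of_eq ?_)
  rw [smul_eq_mul]; ring

private noncomputable def fha_om (q n : ℕ) : ℝ[X] := C (1 / (q : ℝ)) * X * (C (n : ℝ) - C (1 / (q : ℝ)) * X)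

private theorem fha_om_deg (q n : ℕ) : (fha_om q n).natDegree ≤ 2 := by
  unfold fha_om
  refine natDegree_mul_le.trans (Nat.add_le_add (b := 1) (d := 1) ?_ ?_)
  · exact (natDegree_C_mul_le _ _).trans natDegree_X_le
  · have h : (C (n : ℝ) - C (1 / (q : ℝ)) * X : ℝ[X]) = C (-(1 / (q : ℝ))) * X + C (n : ℝ) := by
      rw [C_neg]; ring
    rw [h]; exact natDegree_linear_le

private theorem fha_om_eval (q n j : ℕ) : (fha_om q n).eval (j : ℝ) = om q n j := by
  unfold fha_om om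
  simp only [eval_mul, eval_C, eval_X, eval_sub]
  ring

theorem FHa {q n T₀ d : ℕ} {Ms : Finset ℕ} (hq : 1 ≤ q) (e₀ : Fin d → ℝ) :
    ∃ F : ℝ[X], F.natDegree ≤ 6 * (Ms.card * T₀) + 2 * d ∧ ∀ j : ℕ, j ≤ q * n →
      F.eval (j : ℝ) = (∑ k, e₀ k * (BB (q * n) k j : ℝ)) * (ZP q n Ms T₀).eval (j : ℝ) ^ 3 := by
  refine ⟨(∑ k, C (e₀ k) * (bp q n k).comp (fha_om q n)) * ZP q n Ms T₀ ^ 3, ?_, ?_⟩
  · refine natDegree_mul_le.trans ?_
    have h1 : (∑ k : Fin d, C (e₀ k) * (bp q n k).comp (fha_om q n)).natDegree ≤ 2 * d := by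
      refine natDegree_sum_le_of_forall_le _ _ fun k _ => ?_
      refine (natDegree_C_mul_le _ _).trans ?_
      refine natDegree_comp_le.trans ?_
      rw [bp_natDegree hq]
      calc (k : ℕ) * (fha_om q n).natDegree ≤ d * 2 := Nat.mul_le_mul k.2.le (fha_om_deg q n)
        _ = 2 * d := by ring
    have h2 : (ZP q n Ms T₀ ^ 3).natDegree ≤ 6 * (Ms.card * T₀) := by
      refine natDegree_pow_le.trans ?_
      have := ZP_natDegree (q := q) (n := n) (T₀ := T₀) (Ms := Ms)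
      omega
    omega
  · intro j hj
    rw [eval_mul, eval_pow, eval_finsetSum]
    congr 1
    refine Finset.sum_congr rfl fun k _ => ?_
    rw [eval_mul, eval_C, eval_comp, fha_om_eval, bp_eval hq hj]

end HZ3
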