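import Pool.Agent.LibHZ3.IN1a
import Pool.Agent.LibHZ3.Defs2

/-!
# Row IN1: the least common multiple of an arithmetic progression (MEDIUM, 35 min)

Let `a_m = q m + x`, `m < K`.  For every `m₀ < K`: `(K-1)! = m₀! (K-1-m₀)! C(K-1, m₀)`, and
`C(K-1, m₀) ∣ Λ := Nat.lcmUpto (K - 1)` (`Chebyshev.choose_dvd_lcmUpto`; look for its namespace),
`m₀! ∣ q^m₀ ∏_{m<m₀} a_m`, `(K-1-m₀)! ∣ q^(K-1-m₀) ∏_{m₀<m<K} a_m` (row IN1a with `x` resp.
`q (m₀ + 1) + x`), so `(K-1)! ∣ Λ q^(K-1) ∏_{m ≠ m₀} a_m` and `a_{m₀} (K-1)! ∣ Λ q^(K-1) ∏ a_m`.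
Hence `lcmA q x K * (K-1)! ∣ Λ q^(K-1) ∏ a_m` (`Finset.lcm_dvd` for the quotient; or
`Finset.lcm_mul_right`).  `∏ a_m ≤ q^K K!` (`x ≤ q`), `Λ ≤ 2^(8 K)` (`HZ89.lcm_le`, monotone),
`K ≤ 2^(K-1)`, so `lcmA q x K ≤ K 2^(8 K) q^(2 K - 1) ≤ q^(11 K)`.
-/

namespace HZ3

open Finset HZ89

theorem lcmA_pos {q x K : ℕ} (hx : 1 ≤ x) : 1 ≤ lcmA q x K := by
  unfold lcmA
  rw [Nat.one_le_iff_ne_zero]
  intro h
  rw [Finset.lcm_eq_zero_iff] at h
  obtain ⟨m, _, hm⟩ := h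
  omega

theorem dvd_lcmA {q x K m : ℕ} (hm : m < K) : q * m + x ∣ lcmA q x K :=
  Finset.dvd_lcm (f := fun m => q * m + x) (Finset.mem_range.2 hm)

private theorem IN1_dvd (q x k m₀ : ℕ) (hq : 1 ≤ q) (hm : m₀ ≤ k) :
    (q * m₀ + x) * k.factorial ∣
      Nat.lcmUpto k * q ^ k * ∏ m ∈ range (k + 1), (q * m + x) := by
  have h1 : k.choose m₀ * m₀.factorial * (k - m₀).factorial = k.factorial :=
    Nat.choose_mul_factorial_mul_factorial hm
  have h2 : k.choose m₀ ∣ Nat.lcmUpto k := Chebyshev.choose_dvd_lcmUpto hm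
  have h3 := factorial_dvd_ap q x m₀ hq
  have h4 := factorial_dvd_ap q (q * (m₀ + 1) + x) (k - m₀) hq
  have h5 : ∏ m ∈ range (k + 1), (q * m + x) =
      (∏ m ∈ range m₀, (q * m + x)) * (q * m₀ + x) *
        ∏ m ∈ range (k - m₀), (q * m + (q * (m₀ + 1) + x)) := by
    have e1 : k + 1 = (m₀ + 1) + (k - m₀) := by omega
    rw [e1, Finset.prod_range_add, Finset.prod_range_succ]
    congr 1
    refine Finset.prod_congr rfl fun m _ => ?_
    ring
  have h6 : q ^ k = q ^ m₀ * q ^ (k - m₀) := by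
    rw [← pow_add]
    congr 1
    omega
  have h7 : (q * m₀ + x) * k.factorial =
      k.choose m₀ * (m₀.factorial * (k - m₀).factorial * (q * m₀ + x)) := by
    rw [← h1]
    ring
  have h8 : Nat.lcmUpto k * q ^ k * ∏ m ∈ range (k + 1), (q * m + x) =
      Nat.lcmUpto k * ((q ^ m₀ * ∏ m ∈ range m₀, (q * m + x)) *
        (q ^ (k - m₀) * ∏ m ∈ range (k - m₀), (q * m + (q * (m₀ + 1) + x))) *
          (q * m₀ + x)) := by
    rw [h5, h6]
    ring
  rw [h7, h8]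
  exact mul_dvd_mul h2 (mul_dvd_mul (mul_dvd_mul h3 h4) dvd_rfl)

theorem lcmA_le {q x K : ℕ} (hq : 2 ≤ q) (hx : 1 ≤ x) (hx2 : x ≤ q) : lcmA q x K ≤ q ^ (11 * K) := by
  rcases Nat.eq_zero_or_pos K with rfl | hK
  · simp [lcmA]
  obtain ⟨k, rfl⟩ : ∃ k, K = k + 1 := ⟨K - 1, by omega⟩
  obtain ⟨X, hX⟩ : ∃ X, X = Nat.lcmUpto k * q ^ k * ∏ m ∈ range (k + 1), (q * m + x) := ⟨_, rfl⟩
  have hXpos : 0 < X := by
    rw [hX]
    refine Nat.mul_pos (Nat.mul_pos (Nat.lcmUpto_pos k) (by positivity)) ?_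
    exact Finset.prod_pos fun m _ => by omega
  have hfX : k.factorial ∣ X := by
    have h1 := IN1_dvd q x k 0 (by omega) (Nat.zero_le _)
    rw [← hX] at h1
    exact (Dvd.intro_left _ rfl).trans h1
  obtain ⟨Y, hY⟩ := hfX
  have hYpos : 0 < Y := by
    rcases Nat.eq_zero_or_pos Y with h | h
    · rw [h, mul_zero] at hY
      omega
    · exact h
  have hdvd : lcmA q x (k + 1) ∣ Y := by
    unfold lcmA
    refine Finset.lcm_dvd fun m hm => ?_
    have hm' : m ≤ k := by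
      have := Finset.mem_range.1 hm
      omega
    have h1 := IN1_dvd q x k m (by omega) hm'
    rw [← hX, hY, mul_comm k.factorial Y] at h1
    exact Nat.dvd_of_mul_dvd_mul_right (Nat.factorial_pos k) h1
  have h1 : lcmA q x (k + 1) ≤ Y := Nat.le_of_dvd hYpos hdvd
  have hprod : ∏ m ∈ range (k + 1), (q * m + x) ≤ q ^ (k + 1) * (k + 1).factorial := by
    calc ∏ m ∈ range (k + 1), (q * m + x) ≤ ∏ m ∈ range (k + 1), q * (m + 1) :=
          Finset.prod_le_prod' fun m _ => by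
            rw [mul_add, mul_one]
            omega
      _ = q ^ (k + 1) * (k + 1).factorial := by
          rw [Finset.prod_mul_distrib, Finset.prod_const, Finset.card_range,
            Finset.prod_range_add_one_eq_factorial]
  have h2 : X ≤ 2 ^ (8 * k) * q ^ k * (q ^ (k + 1) * (k + 1).factorial) := by
    rw [hX]
    exact Nat.mul_le_mul (Nat.mul_le_mul_right _ (lcm_le k)) hprod
  have h3 : Y ≤ 2 ^ (8 * k) * q ^ k * (q ^ (k + 1) * (k + 1)) := by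
    rw [hY, Nat.factorial_succ] at h2
    have h4 : 2 ^ (8 * k) * q ^ k * (q ^ (k + 1) * ((k + 1) * k.factorial)) =
        k.factorial * (2 ^ (8 * k) * q ^ k * (q ^ (k + 1) * (k + 1))) := by ring
    rw [h4] at h2
    exact Nat.le_of_mul_le_mul_left h2 (Nat.factorial_pos k)
  have h4 : k + 1 ≤ q ^ (k + 1) := (Nat.lt_pow_self (by omega)).le
  have h5 : (2 : ℕ) ^ (8 * k) ≤ q ^ (8 * k) := Nat.pow_le_pow_left hq _
  calc lcmA q x (k + 1) ≤ Y := h1
    _ ≤ 2 ^ (8 * k) * q ^ k * (q ^ (k + 1) * (k + 1)) := h3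
    _ ≤ q ^ (8 * k) * q ^ k * (q ^ (k + 1) * q ^ (k + 1)) :=
        Nat.mul_le_mul (Nat.mul_le_mul_right _ h5) (Nat.mul_le_mul_left _ h4)
    _ = q ^ (11 * k + 2) := by
        rw [← pow_add, ← pow_add, ← pow_add]
        congr 1
        ring
    _ ≤ q ^ (11 * (k + 1)) := Nat.pow_le_pow_right (by omega) (by omega)

end HZ3
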