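import Mathlib

/-!
# Row IN1a: `a! ∣ q^a ∏_{m<a} (q m + x)` (MEDIUM, 30 min; ONLY MATHLIB)

Prime by prime: it is enough that `p^v ∣ q^a ∏ (q m + x)` for `v = (a!).factorization p` and every prime
`p` (`Nat.factorization_prime_le_iff_dvd` or `Nat.eq_of_factorization...`).  If `p ∣ q`: `v ≤ a`
(`sub_one_mul_padicValNat_factorial` or `Nat.factorization_factorial...`; `v < a` for `a ≥ 1`), so
`p^v ∣ q^a`.  If `p ∤ q`: take `q'` with `q q' ≡ 1 mod p^v` (`Nat.exists_mul_emod_eq_one_of_coprime` or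
`ZMod`); `q'^a ∏ (q m + x) ≡ ∏ (m + q' x) mod p^v`, which is divisible by `a!`
(`Nat.factorial_dvd_ascFactorial`, `Nat.ascFactorial_eq_prod_range`), hence by `p^v`; `p ∤ q'`.
-/

namespace HZ3

open Finset

private theorem IN1a_prod_zero {n a : ℕ} [NeZero n] (hn : n ∣ a.factorial) (y : ZMod n) :
    ∏ m ∈ range a, ((m : ZMod n) + y) = 0 := by
  have h1 : n ∣ y.val.ascFactorial a := hn.trans (Nat.factorial_dvd_ascFactorial _ _)
  have h2 : ((y.val.ascFactorial a : ℕ) : ZMod n) = 0 := (ZMod.natCast_eq_zero_iff _ _).2 h1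
  rw [Nat.ascFactorial_eq_prod_range] at h2
  push_cast at h2
  rw [← h2]
  refine Finset.prod_congr rfl fun m _ => ?_
  rw [ZMod.natCast_zmod_val, add_comm]

private theorem IN1a_coprime {n a q x : ℕ} (hn0 : n ≠ 0) (hn : n ∣ a.factorial)
    (hq : Nat.Coprime q n) : n ∣ ∏ m ∈ range a, (q * m + x) := by
  haveI : NeZero n := ⟨hn0⟩
  rw [← ZMod.natCast_eq_zero_iff]
  push_cast
  have h1 : (q : ZMod n) * (q : ZMod n)⁻¹ = 1 := ZMod.coe_mul_inv_eq_one q hq
  have h2 : ∏ m ∈ range a, ((q : ZMod n) * m + x) =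
      ∏ m ∈ range a, ((q : ZMod n) * (m + (q : ZMod n)⁻¹ * x)) := by
    refine Finset.prod_congr rfl fun m _ => ?_
    rw [mul_add, ← mul_assoc (q : ZMod n), h1, one_mul]
  rw [h2, Finset.prod_mul_distrib, IN1a_prod_zero hn, mul_zero]

theorem factorial_dvd_ap (q x a : ℕ) (hq : 1 ≤ q) :
    a.factorial ∣ q ^ a * ∏ m ∈ range a, (q * m + x) := by
  by_cases h0 : q ^ a * ∏ m ∈ range a, (q * m + x) = 0
  · rw [h0]
    exact dvd_zero _
  rw [← Nat.factorization_prime_le_iff_dvd (Nat.factorial_ne_zero a) h0]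
  intro p hp
  rw [← hp.pow_dvd_iff_le_factorization h0]
  obtain ⟨v, hv⟩ : ∃ v, v = (a.factorial).factorization p := ⟨_, rfl⟩
  rw [← hv]
  have hva : p ^ v ∣ a.factorial := by
    rw [hv]
    exact Nat.ordProj_dvd _ _
  by_cases hpq : p ∣ q
  · have h1 : v ≤ a := by
      haveI := Fact.mk hp
      have h2 := sub_one_mul_padicValNat_factorial (p := p) a
      have h3 : padicValNat p a.factorial = v := by
        rw [hv, Nat.factorization_def _ hp]
      rw [h3] at h2
      have h4 : 1 ≤ p - 1 := by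
        have := hp.two_le
        omega
      calc v = 1 * v := (one_mul v).symm
        _ ≤ (p - 1) * v := Nat.mul_le_mul_right _ h4
        _ = a - (p.digits a).sum := h2
        _ ≤ a := Nat.sub_le _ _
    exact Dvd.dvd.mul_right ((pow_dvd_pow_of_dvd hpq v).trans (pow_dvd_pow q h1)) _
  · refine Dvd.dvd.mul_left (IN1a_coprime (pow_ne_zero _ hp.ne_zero) hva ?_) _
    exact Nat.Coprime.pow_right _ ((Nat.Prime.coprime_iff_not_dvd hp).2 hpq).symm

end HZ3
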