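import Pool.Agent.LibHZ3.IN1

/-!
# Row IN2: the column factors (SHORT/MEDIUM, 20 min)

`lcmA_le`, `lcmA_pos` for `x = M j % q` and `q - M j % q`, `1 ≤ M j % q < q`.
-/

namespace HZ3

open Finset HZ89

theorem wj_pos {q K j : ℕ} {Ms : Finset ℕ} (hq : 2 ≤ q) (hM : ∀ M ∈ Ms, M * j % q ≠ 0) :
    1 ≤ wj q Ms K j := by
  unfold wj
  refine Nat.one_le_iff_ne_zero.mpr (Finset.prod_ne_zero_iff.mpr fun M hMs => ?_)
  have h1 : 1 ≤ M * j % q := Nat.one_le_iff_ne_zero.mpr (hM M hMs)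
  have h2 : M * j % q < q := Nat.mod_lt _ (by omega)
  have h3 : 1 ≤ lcmA q (M * j % q) K := lcmA_pos h1
  have h4 : 1 ≤ lcmA q (q - M * j % q) K := lcmA_pos (by omega)
  exact pow_ne_zero 3 (Nat.mul_ne_zero (by omega) (by omega))

theorem wj_le {q K j : ℕ} {Ms : Finset ℕ} (hq : 2 ≤ q) (hM : ∀ M ∈ Ms, M * j % q ≠ 0) :
    wj q Ms K j ≤ q ^ (66 * Ms.card * K) := by
  unfold wj
  calc ∏ M ∈ Ms, (lcmA q (M * j % q) K * lcmA q (q - M * j % q) K) ^ 3
      ≤ ∏ _M ∈ Ms, q ^ (66 * K) := by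
        refine Finset.prod_le_prod' fun M hMs => ?_
        have h1 : 1 ≤ M * j % q := Nat.one_le_iff_ne_zero.mpr (hM M hMs)
        have h2 : M * j % q < q := Nat.mod_lt _ (by omega)
        have h3 : lcmA q (M * j % q) K ≤ q ^ (11 * K) := lcmA_le hq h1 h2.le
        have h4 : lcmA q (q - M * j % q) K ≤ q ^ (11 * K) := lcmA_le hq (by omega) (by omega)
        calc (lcmA q (M * j % q) K * lcmA q (q - M * j % q) K) ^ 3
            ≤ (q ^ (11 * K) * q ^ (11 * K)) ^ 3 := Nat.pow_le_pow_left (Nat.mul_le_mul h3 h4) 3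
          _ = q ^ (66 * K) := by
            rw [← pow_add, ← pow_mul]
            congr 1
            ring
    _ = q ^ (66 * Ms.card * K) := by
      rw [Finset.prod_const, ← pow_mul]
      congr 1
      ring

/-- the factor of `M` divides `wj` -/
theorem dvd_wj {q K j M : ℕ} {Ms : Finset ℕ} (hM : M ∈ Ms) :
    (lcmA q (M * j % q) K * lcmA q (q - M * j % q) K) ^ 3 ∣ wj q Ms K j := by
  unfold wj
  exact Finset.dvd_prod_of_mem (fun M => (lcmA q (M * j % q) K * lcmA q (q - M * j % q) K) ^ 3) hM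

end HZ3
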