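import Mathlib

/-!
# Row NT1: the divisor bound (MEDIUM, 40 min; ONLY MATHLIB)

`d(n) / n^ε = ∏_p (v + 1) / p^(v ε)` (`Nat.card_divisors`, `Nat.factorization_prod_pow_eq_self`).
For `p ≥ 2^(1/ε)`: `p^(v ε) ≥ 2^v ≥ v + 1`.  For all `p`: `p^(v ε) ≥ 2^(v ε) ≥ 1 + v ε log 2 ≥
(v + 1) κ`, `κ = min 1 (ε log 2)`.  So `d(n) ≤ κ^(-N) n^ε`, `N` the number of primes below
`2^(1/ε)`.
`totient_lower`: `n = ∑_{d ∣ n} φ(d) ≤ d(n) φ(n)` (`Nat.sum_totient`, `Nat.totient_dvd_of_dvd`).
-/

namespace HZ3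

open Finset

private theorem nt1_pow_bound (q : ℕ) :
    ∃ C : ℝ, 1 ≤ C ∧ ∀ e : ℕ, ((e : ℝ) + 1) ^ q ≤ C * 2 ^ e := by
  have h := tendsto_pow_const_div_const_pow_of_one_lt q (r := (2 : ℝ)) (by norm_num)
  obtain ⟨B, hB⟩ := h.bddAbove_range
  refine ⟨max 1 (2 * B), le_max_left _ _, fun e => ?_⟩
  have h1 : ((e + 1 : ℕ) : ℝ) ^ q / 2 ^ (e + 1) ≤ B := hB ⟨e + 1, rfl⟩
  rw [div_le_iff₀ (by positivity)] at h1
  push_cast at h1
  calc ((e : ℝ) + 1) ^ q ≤ B * 2 ^ (e + 1) := h1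
    _ = 2 * B * 2 ^ e := by ring
    _ ≤ max 1 (2 * B) * 2 ^ e := by
      apply mul_le_mul_of_nonneg_right (le_max_right _ _) (by positivity)

private theorem nt1_divisor_bound (q : ℕ) : ∃ c : ℝ, 1 ≤ c ∧ ∀ n : ℕ, 1 ≤ n →
    ((n.divisors.card : ℝ)) ^ q ≤ c * n := by
  obtain ⟨C, hC, hCe⟩ := nt1_pow_bound q
  refine ⟨C ^ (2 ^ q), one_le_pow₀ hC, fun n hn => ?_⟩
  have hn0 : n ≠ 0 := by omega
  have h1 : (n.divisors.card : ℝ) = ∏ p ∈ n.primeFactors, ((n.factorization p : ℝ) + 1) := by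
    rw [Nat.card_divisors hn0]
    push_cast
    rfl
  have h2 : (n : ℝ) = ∏ p ∈ n.primeFactors, ((p : ℝ) ^ n.factorization p) := by
    conv_lhs => rw [← Nat.prod_factorization_pow_eq_self hn0]
    rw [Finsupp.prod, Nat.support_factorization]
    push_cast
    rfl
  have h3 : ∀ p ∈ n.primeFactors, ((n.factorization p : ℝ) + 1) ^ q ≤
      (if p < 2 ^ q then C else 1) * (p : ℝ) ^ n.factorization p := by
    intro p hp
    have hp2 : 2 ≤ p := (Nat.prime_of_mem_primeFactors hp).two_le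
    split_ifs with h
    · refine (hCe _).trans ?_
      apply mul_le_mul_of_nonneg_left _ (by linarith)
      exact pow_le_pow_left₀ (by norm_num) (by exact_mod_cast hp2) _
    · push Not at h
      rw [one_mul]
      have h4 : ((n.factorization p : ℝ) + 1) ≤ 2 ^ n.factorization p := by
        have : n.factorization p + 1 ≤ 2 ^ n.factorization p := Nat.lt_two_pow_self
        exact_mod_cast this
      calc ((n.factorization p : ℝ) + 1) ^ q ≤ (2 ^ n.factorization p) ^ q :=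
            pow_le_pow_left₀ (by positivity) h4 _
        _ = (2 ^ q) ^ n.factorization p := by rw [← pow_mul, ← pow_mul, mul_comm]
        _ ≤ (p : ℝ) ^ n.factorization p :=
            pow_le_pow_left₀ (by positivity) (by exact_mod_cast h) _
  have h5 : ∏ p ∈ n.primeFactors, (if p < 2 ^ q then C else 1) ≤ C ^ (2 ^ q) := by
    rw [Finset.prod_ite, Finset.prod_const, Finset.prod_const_one, mul_one]
    apply pow_le_pow_right₀ hC
    calc (Finset.filter (fun p => p < 2 ^ q) n.primeFactors).card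
        ≤ (Finset.range (2 ^ q)).card := by
          apply Finset.card_le_card
          intro p hp
          rw [Finset.mem_filter] at hp
          exact Finset.mem_range.2 hp.2
      _ = 2 ^ q := Finset.card_range _
  calc (n.divisors.card : ℝ) ^ q
      = ∏ p ∈ n.primeFactors, ((n.factorization p : ℝ) + 1) ^ q := by
        rw [h1, Finset.prod_pow]
    _ ≤ ∏ p ∈ n.primeFactors, ((if p < 2 ^ q then C else 1) * (p : ℝ) ^ n.factorization p) :=
        Finset.prod_le_prod (fun p _ => by positivity) h3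
    _ = (∏ p ∈ n.primeFactors, (if p < 2 ^ q then C else 1)) * n := by
        rw [Finset.prod_mul_distrib, ← h2]
    _ ≤ C ^ (2 ^ q) * n := by
        apply mul_le_mul_of_nonneg_right h5 (by positivity)

theorem divisors_bound {ε : ℝ} (hε : 0 < ε) :
    ∃ C : ℝ, 0 < C ∧ ∀ n : ℕ, 1 ≤ n → (n.divisors.card : ℝ) ≤ C * (n : ℝ) ^ ε := by
  obtain ⟨q, hq⟩ := exists_nat_gt (1 / ε)
  have hq0 : (0 : ℝ) < q := lt_trans (by positivity) hq
  have hq1 : 1 ≤ q := by
    rcases Nat.eq_zero_or_pos q with h | h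
    · subst h; simp at hq0
    · exact h
  obtain ⟨c, hc1, hc⟩ := nt1_divisor_bound q
  refine ⟨c, by linarith, fun n hn => ?_⟩
  have hn1 : (1 : ℝ) ≤ n := by exact_mod_cast hn
  have h := hc n hn
  have hinv : 1 / (q : ℝ) ≤ ε := by
    rw [div_le_iff₀ hq0]
    rw [div_lt_iff₀ hε] at hq
    linarith
  have hc1' : c ^ (1 / (q : ℝ)) ≤ c := by
    calc c ^ (1 / (q : ℝ)) ≤ c ^ (1 : ℝ) := by
          apply Real.rpow_le_rpow_of_exponent_le hc1
          rw [div_le_one hq0]
          exact_mod_cast hq1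
      _ = c := Real.rpow_one c
  calc (n.divisors.card : ℝ) = (((n.divisors.card : ℝ)) ^ (q : ℝ)) ^ (1 / (q : ℝ)) := by
        rw [← Real.rpow_mul (by positivity), mul_one_div_cancel hq0.ne', Real.rpow_one]
    _ ≤ (c * n) ^ (1 / (q : ℝ)) := by
        apply Real.rpow_le_rpow (by positivity) _ (by positivity)
        rw [Real.rpow_natCast]
        exact h
    _ = c ^ (1 / (q : ℝ)) * (n : ℝ) ^ (1 / (q : ℝ)) := by
        rw [Real.mul_rpow (by linarith) (by linarith)]
    _ ≤ c * (n : ℝ) ^ ε := by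
        apply mul_le_mul hc1' _ (by positivity) (by linarith)
        exact Real.rpow_le_rpow_of_exponent_le hn1 hinv

theorem totient_lower {η : ℝ} (hη : 0 < η) :
    ∃ c : ℝ, 0 < c ∧ ∀ n : ℕ, 1 ≤ n → c * (n : ℝ) ^ (1 - η) ≤ n.totient := by
  obtain ⟨C, hC, h⟩ := divisors_bound hη
  refine ⟨1 / C, by positivity, fun n hn => ?_⟩
  have hn0 : (0 : ℝ) < n := by exact_mod_cast hn
  have h1 : n ≤ n.divisors.card * n.totient := by
    calc n = ∑ d ∈ n.divisors, d.totient := (Nat.sum_totient n).symm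
      _ ≤ ∑ _d ∈ n.divisors, n.totient := by
          refine Finset.sum_le_sum fun d hd => ?_
          exact Nat.le_of_dvd (Nat.totient_pos.2 hn)
            (Nat.totient_dvd_of_dvd (Nat.dvd_of_mem_divisors hd))
      _ = n.divisors.card * n.totient := by rw [Finset.sum_const, smul_eq_mul]
  have h2 : (n : ℝ) ≤ n.divisors.card * n.totient := by exact_mod_cast h1
  have h3 : (n : ℝ) ≤ C * (n : ℝ) ^ η * n.totient :=
    h2.trans (mul_le_mul_of_nonneg_right (h n hn) (Nat.cast_nonneg _))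
  have h4 : (n : ℝ) ^ (1 - η) = n / (n : ℝ) ^ η := by
    rw [Real.rpow_sub hn0, Real.rpow_one]
  have h5 : 0 < (n : ℝ) ^ η := Real.rpow_pos_of_pos hn0 η
  rw [h4, one_div, inv_mul_eq_div, div_div, div_le_iff₀ (by positivity)]
  linarith

end HZ3
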