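import Mathlib

/-!
# Row NT2: integers prime to `q` below `X` (MEDIUM, 40 min; ONLY MATHLIB)

The filtered set contains `1` (so its cardinality is at least `1`) and all primes `p ≤ X` which do not
divide `q`; there are at least `π(X) - log q / log 2` of them (`2^(number of prime factors) ≤ q`), and
`π(X) ≥ (X log 2 - log (X + 1)) / log X` (`Chebyshev.pi_ge`; `π = Nat.primeCounting`).  With
`log X ≤ log q` and `X ≥ q^κ` this is at least `X / (2 log q) ≥ c₁ X q^(-η)` for `q ≥ q₀(κ, η)`; for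
`q < q₀` use `card ≥ 1` and `X ≤ q₀`.
-/

namespace HZ3

open Finset

private theorem NT2_pf (q : ℕ) (hq : q ≠ 0) : (q.primeFactors.card : ℝ) * Real.log 2 ≤ Real.log q := by
  have h1 : 2 ^ q.primeFactors.card ≤ q := by
    calc 2 ^ q.primeFactors.card = ∏ _p ∈ q.primeFactors, 2 := by rw [prod_const]
      _ ≤ ∏ p ∈ q.primeFactors, p :=
        prod_le_prod' fun p hp => (Nat.prime_of_mem_primeFactors hp).two_le
      _ ≤ q := Nat.le_of_dvd (Nat.pos_of_ne_zero hq) (Nat.prod_primeFactors_dvd q)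
  rw [← Real.log_pow]
  refine Real.log_le_log (by positivity) ?_
  exact_mod_cast h1

private theorem NT2_count (q X : ℕ) (hq : q ≠ 0) : Nat.primeCounting X ≤
    ((Icc 1 X).filter fun M => M.Coprime q).card + q.primeFactors.card := by
  rw [← Nat.primesLE_card_eq_primeCounting]
  have h1 : Nat.primesLE X ⊆ ((Icc 1 X).filter fun M => M.Coprime q) ∪ q.primeFactors := by
    intro p hp
    rw [Nat.mem_primesLE] at hp
    rw [mem_union, mem_filter, mem_Icc, Nat.mem_primeFactors]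
    by_cases hd : p ∣ q
    · exact Or.inr ⟨hp.2, hd, hq⟩
    · exact Or.inl ⟨⟨hp.2.one_le, hp.1⟩, (Nat.Prime.coprime_iff_not_dvd hp.2).2 hd⟩
  exact (card_le_card h1).trans (card_union_le _ _)

theorem coprime_count {κ η : ℝ} (hκ : 0 < κ) (hη : 0 < η) :
    ∃ c₁ : ℝ, 0 < c₁ ∧ ∀ q X : ℕ, 2 ≤ q → (q : ℝ) ^ κ ≤ 2 * X → 1 ≤ X → X ≤ q →
      c₁ * X * (q : ℝ) ^ (-η) ≤ ((Icc 1 X).filter fun M => M.Coprime q).card := by
  have hl2 : 0 < Real.log 2 := Real.log_pos (by norm_num)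
  have hl2' : Real.log 2 ≤ 1 := by
    have := Real.log_two_lt_d9
    linarith
  obtain ⟨C, hC⟩ : ∃ C, C = 2 / Real.log 2 * (1 + 1 / η + 4 / (η ^ 2 * Real.log 2)) := ⟨_, rfl⟩
  have hC0 : 0 < C := by rw [hC]; positivity
  refine ⟨min (η * Real.log 2 / 2) (1 / C), by positivity, fun q X hq _ hX hXq => ?_⟩
  obtain ⟨N, hN⟩ : ∃ N, N = ((Icc 1 X).filter fun M => M.Coprime q).card := ⟨_, rfl⟩
  rw [← hN]
  obtain ⟨l, hl⟩ : ∃ l, l = Real.log q := ⟨_, rfl⟩
  have hq0 : (0 : ℝ) < q := by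
    have : 0 < q := by omega
    exact_mod_cast this
  have hq1 : (1 : ℝ) ≤ q := by
    have : 1 ≤ q := by omega
    exact_mod_cast this
  have hX0 : (1 : ℝ) ≤ X := by exact_mod_cast hX
  have hXq' : (X : ℝ) ≤ q := by exact_mod_cast hXq
  have hl0 : 0 < l := by
    rw [hl]
    refine Real.log_pos ?_
    have : 1 < q := by omega
    exact_mod_cast this
  have hN1 : (1 : ℝ) ≤ N := by
    have h1 : 1 ≤ N := by
      rw [hN, Nat.one_le_iff_ne_zero, Ne, card_eq_zero, ← Ne, ← nonempty_iff_ne_empty]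
      exact ⟨1, by rw [mem_filter, mem_Icc]; exact ⟨⟨le_rfl, hX⟩, Nat.coprime_one_left q⟩⟩
    exact_mod_cast h1
  -- the count
  have h1 : (Nat.primeCounting X : ℝ) ≤ N + q.primeFactors.card := by
    have := NT2_count q X (by omega)
    rw [← hN] at this
    exact_mod_cast this
  have h2 : (q.primeFactors.card : ℝ) ≤ l / Real.log 2 := by
    rw [le_div_iff₀ hl2, hl]
    exact NT2_pf q (by omega)
  have h3 : (X : ℝ) * Real.log 2 - Real.log (X + 1) ≤ Nat.primeCounting X * Real.log X :=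
    (Chebyshev.psi_ge X).trans (Chebyshev.psi_le_primeCounting_mul_log X)
  have h4 : Real.log X ≤ l := by
    rw [hl]
    exact Real.log_le_log (by linarith) hXq'
  have h5 : Real.log ((X : ℝ) + 1) ≤ 1 + l := by
    have h6 : Real.log ((X : ℝ) + 1) ≤ Real.log (2 * q) :=
      Real.log_le_log (by linarith) (by linarith)
    rw [Real.log_mul two_ne_zero hq0.ne'] at h6
    linarith
  have h6 : (X : ℝ) * Real.log 2 - (1 + l + l ^ 2 / Real.log 2) ≤ N * l := by
    have h7 : (Nat.primeCounting X : ℝ) * Real.log X ≤ (N + l / Real.log 2) * l := by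
      refine mul_le_mul (h1.trans (by linarith)) h4 (Real.log_nonneg hX0) (by positivity)
    have h8 : (N + l / Real.log 2) * l = N * l + l ^ 2 / Real.log 2 := by ring
    linarith
  -- the powers of q
  have hp : (1 : ℝ) ≤ (q : ℝ) ^ η := Real.one_le_rpow hq1 hη.le
  have hp0 : (0 : ℝ) < (q : ℝ) ^ η := by linarith
  have h7 : l ≤ (q : ℝ) ^ η / η := by
    rw [hl]
    exact Real.log_le_rpow_div hq0.le hη
  have h8 : l ^ 2 ≤ 4 / η ^ 2 * (q : ℝ) ^ η := by
    have h9 : l ≤ (q : ℝ) ^ (η / 2) / (η / 2) := by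
      rw [hl]
      exact Real.log_le_rpow_div hq0.le (by linarith)
    have h10 : ((q : ℝ) ^ (η / 2)) ^ 2 = (q : ℝ) ^ η := by
      rw [← Real.rpow_natCast, ← Real.rpow_mul hq0.le]
      norm_num
    calc l ^ 2 ≤ ((q : ℝ) ^ (η / 2) / (η / 2)) ^ 2 := pow_le_pow_left₀ hl0.le h9 2
      _ = 4 / η ^ 2 * (q : ℝ) ^ η := by
        rw [div_pow, h10]
        field_simp
        ring
  rw [Real.rpow_neg hq0.le, ← div_eq_mul_inv, div_le_iff₀ hp0]
  by_cases hcase : (X : ℝ) * Real.log 2 / 2 ≥ 1 + l + l ^ 2 / Real.log 2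
  · have h9 : (X : ℝ) * Real.log 2 / 2 ≤ N * ((q : ℝ) ^ η / η) :=
      (show (X : ℝ) * Real.log 2 / 2 ≤ N * l by linarith).trans
        (mul_le_mul_of_nonneg_left h7 (by linarith))
    calc min (η * Real.log 2 / 2) (1 / C) * X ≤ η * Real.log 2 / 2 * X :=
          mul_le_mul_of_nonneg_right (min_le_left _ _) (by linarith)
      _ = η * (X * Real.log 2 / 2) := by ring
      _ ≤ η * (N * ((q : ℝ) ^ η / η)) := mul_le_mul_of_nonneg_left h9 hη.le
      _ = N * (q : ℝ) ^ η := by field_simp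
  · push Not at hcase
    have h9 : (X : ℝ) ≤ C * (q : ℝ) ^ η := by
      have h10 : l ^ 2 / Real.log 2 ≤ 4 / (η ^ 2 * Real.log 2) * (q : ℝ) ^ η := by
        rw [div_le_iff₀ hl2]
        calc l ^ 2 ≤ 4 / η ^ 2 * (q : ℝ) ^ η := h8
          _ = _ := by field_simp
      have h11 : l ≤ 1 / η * (q : ℝ) ^ η := by
        rw [one_div, inv_mul_eq_div]
        exact h7
      have h12 : (X : ℝ) * Real.log 2 / 2 ≤
          (1 + 1 / η + 4 / (η ^ 2 * Real.log 2)) * (q : ℝ) ^ η := by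
        rw [add_mul, add_mul, one_mul]
        linarith
      have h13 : (X : ℝ) = 2 / Real.log 2 * (X * Real.log 2 / 2) := by field_simp
      rw [h13, hC, mul_assoc]
      exact mul_le_mul_of_nonneg_left h12 (by positivity)
    calc min (η * Real.log 2 / 2) (1 / C) * X ≤ 1 / C * X :=
          mul_le_mul_of_nonneg_right (min_le_right _ _) (by linarith)
      _ ≤ 1 / C * (C * (q : ℝ) ^ η) := mul_le_mul_of_nonneg_left h9 (by positivity)
      _ = 1 * (q : ℝ) ^ η := by field_simp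
      _ ≤ N * (q : ℝ) ^ η := mul_le_mul_of_nonneg_right hN1 hp0.le

end HZ3
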