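import Pool.Agent.LibHZ3.PA1a

/-!
# Row PA1: admissible parameters for one multiplier (MEDIUM/STRONG, 50 min)

`D = s + 1`, `a = (1 + √(4 D + 1)) / 2`: `a² = a + D`, `3/2 ≤ a ≤ D + 1`, `theta s = a / (a + 1)`
(`4 s + 5 = 4 D + 1`).  `C₂ = 264 (2 D + 5)`.  Parameters: `k = m / (11 (D + 1))` (natural division),
`δ = ⌈a k⌉₊`, `r = ⌊k / (C₂ (1 + log q))⌋₊`, `Q₁ = Q₂ = ⌈q / k⌉₊` (`≤ 2 q / k` as `k ≤ q`).
(ZE): `6 r (D + 1) + 2 δ + 2 k D ≤ 6 k (D + 1) + 2 (D + 2) k + 2 D k ≤ 10 (D + 1) k < m`.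
`r ≥ 1`, `k ≥ 1`: `C q^(theta + ε) ≥ C q^(1/2) ≥ C (1 + log q) / 2`, `C` large.
`hmain`: `k ≥ m / (22 (D + 1))`, so `log k ≥ log C + (theta + ε) log q - log (22 (D + 1))`; the claim is
`(a + 1) log k > a log q + a (log 2 + 1) + 2 + log C₂ + log (1 + log q)`; `(a + 1) theta = a`, and
`(a + 1) ε log q + log C ≥ log (1 + log q) + ...` for `C` large: for `ε ≤ 1`
`log (1 + u) = log (1/ε) + log (ε + ε u) ≤ log (1/ε) + ε + ε u - 1` (`u = log q`); for `ε > 1` use `1`.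
Then row PA1a (the casts of `M₀ = X = 1` are `1`).
-/

namespace HZ3

open Finset HZ89

/-- the exponent -/
noncomputable def theta (s : ℕ) : ℝ := 1 - 2 / (3 + Real.sqrt (4 * s + 5))

theorem par1 (s : ℕ) {ε : ℝ} (hε : 0 < ε) : ∃ C : ℝ, 0 < C ∧ ∀ q m : ℕ, 2 ≤ q → m ≤ q →
    C * (q : ℝ) ^ (theta s + ε) ≤ m → ∃ δ k r Q₁ Q₂ : ℕ, Adm q s m 1 1 δ k r Q₁ Q₂ := by
  obtain ⟨D, hD⟩ : ∃ D : ℝ, D = s + 1 := ⟨_, rfl⟩
  obtain ⟨w, hw⟩ : ∃ w : ℝ, w = Real.sqrt (4 * s + 5) := ⟨_, rfl⟩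
  have hs0 : (0 : ℝ) ≤ s := Nat.cast_nonneg s
  have hw0 : 0 ≤ w := by rw [hw]; exact Real.sqrt_nonneg _
  have hww : w ^ 2 = 4 * s + 5 := by rw [hw]; exact Real.sq_sqrt (by linarith)
  have hw2 : 2 ≤ w := by nlinarith
  have hD1 : 1 ≤ D := by rw [hD]; linarith
  obtain ⟨a, ha⟩ : ∃ a : ℝ, a = (1 + w) / 2 := ⟨_, rfl⟩
  have ha1 : 1 ≤ a := by rw [ha]; linarith
  have haa : a ^ 2 = a + (s + 1) := by rw [ha]; nlinarith
  have haD : a ≤ D + 1 := by rw [hD]; nlinarith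
  have hth : (a + 1) * theta s = a := by
    unfold theta
    rw [← hw, ha]
    have : (3 : ℝ) + w ≠ 0 := by linarith
    field_simp
    ring
  have hth0 : 0 ≤ theta s := by
    have h1 : 0 < a + 1 := by linarith
    by_contra hneg
    push Not at hneg
    have := mul_neg_of_pos_of_neg h1 hneg
    linarith
  obtain ⟨C₂, hC₂⟩ : ∃ C₂ : ℝ, C₂ = 264 * (2 * D + 5) := ⟨_, rfl⟩
  have hC₂1 : 1 ≤ C₂ := by rw [hC₂]; linarith
  obtain ⟨c, hc⟩ : ∃ c : ℝ, c = ε - 1 - Real.log ε := ⟨_, rfl⟩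
  have hc0 : 0 ≤ c := by
    have := Real.log_le_sub_one_of_pos hε
    rw [hc]; linarith
  obtain ⟨K₀, hK₀⟩ : ∃ K₀ : ℝ, K₀ = (a + 1) * Real.log (22 * (D + 1)) + a * (Real.log 2 + 1) + 2 +
    Real.log C₂ + c := ⟨_, rfl⟩
  have hl22 : 0 ≤ Real.log (22 * (D + 1)) := Real.log_nonneg (by linarith)
  have hlC : 0 ≤ Real.log C₂ := Real.log_nonneg hC₂1
  have hl2 : 0 ≤ Real.log 2 := Real.log_nonneg (by norm_num)
  have hK1 : Real.log (22 * (D + 1)) ≤ K₀ := by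
    have h1 : Real.log (22 * (D + 1)) ≤ (a + 1) * Real.log (22 * (D + 1)) :=
      le_mul_of_one_le_left hl22 (by linarith)
    have h2 : 0 ≤ a * (Real.log 2 + 1) := by positivity
    rw [hK₀]; linarith
  have hK0 : 0 ≤ K₀ := hl22.trans hK1
  refine ⟨Real.exp (K₀ + 1), Real.exp_pos _, fun q m hq hmq hm => ?_⟩
  have hq' : (2 : ℝ) ≤ q := by exact_mod_cast hq
  have hq0 : (0 : ℝ) < q := by linarith
  obtain ⟨ℓ, hℓ⟩ : ∃ ℓ : ℝ, ℓ = Real.log q := ⟨_, rfl⟩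
  have hℓ0 : 0 ≤ ℓ := by rw [hℓ]; exact Real.log_nonneg (by linarith)
  have hqp : (1 : ℝ) ≤ (q : ℝ) ^ (theta s + ε) :=
    Real.one_le_rpow (by linarith) (by linarith)
  have hm22 : 22 * (D + 1) ≤ m := by
    have h1 : 22 * (D + 1) ≤ Real.exp (K₀ + 1) := by
      rw [← Real.log_le_iff_le_exp (by linarith)]
      linarith
    have h2 : Real.exp (K₀ + 1) ≤ Real.exp (K₀ + 1) * (q : ℝ) ^ (theta s + ε) :=
      le_mul_of_one_le_right (Real.exp_pos _).le hqp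
    linarith
  have hm0 : (0 : ℝ) < m := by linarith
  have hlm : K₀ + 1 + (theta s + ε) * ℓ ≤ Real.log m := by
    have h1 := Real.log_le_log (by positivity) hm
    rw [Real.log_mul (Real.exp_pos _).ne' (by positivity), Real.log_exp,
      Real.log_rpow hq0, ← hℓ] at h1
    exact h1
  -- `k`
  obtain ⟨k, hk⟩ : ∃ k : ℕ, k = m / (11 * (s + 2)) := ⟨_, rfl⟩
  have hkm : 11 * (s + 2) * k ≤ m := by rw [hk]; exact Nat.mul_div_le _ _
  have hkm' : m < 11 * (s + 2) * (k + 1) := by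
    rw [hk]
    exact Nat.lt_mul_div_succ m (by positivity)
  have hkmR : 11 * (D + 1) * (k : ℝ) ≤ m := by
    have : (11 * ((s : ℝ) + 2) * k : ℝ) ≤ m := by exact_mod_cast hkm
    rw [hD]; linarith
  have hkmR' : (m : ℝ) < 11 * (D + 1) * (k + 1) := by
    have : (m : ℝ) < 11 * ((s : ℝ) + 2) * (k + 1) := by exact_mod_cast hkm'
    rw [hD]; linarith
  have hk22 : (m : ℝ) ≤ 22 * (D + 1) * k := by nlinarith
  have hk1' : (1 : ℝ) ≤ k := by
    by_contra hlt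
    push Not at hlt
    have h1 : 22 * (D + 1) * (k : ℝ) < 22 * (D + 1) * 1 :=
      mul_lt_mul_of_pos_left hlt (by linarith)
    linarith
  have hk1 : 1 ≤ k := by exact_mod_cast hk1'
  have hkq : k ≤ q := by
    have : k ≤ m := by rw [hk]; exact Nat.div_le_self _ _
    omega
  have hkq' : (k : ℝ) ≤ q := by exact_mod_cast hkq
  have hk0 : (0 : ℝ) < k := by linarith
  have hlk : Real.log m - Real.log (22 * (D + 1)) ≤ Real.log k := by
    have h1 := Real.log_le_log hm0 hk22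
    rw [Real.log_mul (by positivity) (by positivity)] at h1
    linarith
  have hlog1 : Real.log (1 + ℓ) ≤ ε * ℓ + c := by
    have h1 := Real.log_le_sub_one_of_pos (x := ε * (1 + ℓ)) (by positivity)
    rw [Real.log_mul hε.ne' (by positivity)] at h1
    rw [hc]; linarith
  have hΛ : Real.log (2 * q / k) = Real.log 2 + ℓ - Real.log k := by
    rw [Real.log_div (by positivity) (by positivity), Real.log_mul (by norm_num) (by positivity),
      hℓ]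
  have hΛ0 : 0 ≤ Real.log (2 * q / k) := by
    refine Real.log_nonneg ?_
    rw [le_div_iff₀ hk0]
    linarith
  have hmain : a * (Real.log (2 * q / k) + 1) + 2 < Real.log (k / (C₂ * (1 + ℓ))) := by
    rw [hΛ, Real.log_div (by positivity) (by positivity), Real.log_mul (by positivity)
      (by positivity)]
    have h1 : (a + 1) * (Real.log m - Real.log (22 * (D + 1))) ≤ (a + 1) * Real.log k :=
      mul_le_mul_of_nonneg_left hlk (by linarith)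
    have h2 : (a + 1) * (K₀ + 1 + (theta s + ε) * ℓ) ≤ (a + 1) * Real.log m :=
      mul_le_mul_of_nonneg_left hlm (by linarith)
    have h3 : (a + 1) * (K₀ + 1 + (theta s + ε) * ℓ) =
        (a + 1) * (K₀ + 1) + a * ℓ + (a + 1) * (ε * ℓ) := by
      have : (a + 1) * (K₀ + 1 + (theta s + ε) * ℓ) =
        (a + 1) * (K₀ + 1) + ((a + 1) * theta s) * ℓ + (a + 1) * (ε * ℓ) := by ring
      rw [this, hth]
    have h4 : K₀ + 1 ≤ (a + 1) * (K₀ + 1) := le_mul_of_one_le_left (by linarith) (by linarith)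
    have h5 : ε * ℓ ≤ (a + 1) * (ε * ℓ) := le_mul_of_one_le_left (by positivity) (by linarith)
    have h6 : (a + 1) * (Real.log m - Real.log (22 * (D + 1))) =
        (a + 1) * Real.log m - (a + 1) * Real.log (22 * (D + 1)) := by ring
    have h7 : a * (Real.log 2 + ℓ - Real.log k + 1) + 2 =
        a * (Real.log 2 + 1) + a * ℓ - ((a + 1) * Real.log k - Real.log k) + 2 := by ring
    rw [h7]
    linarith
  have hbig : 1 < k / (C₂ * (1 + ℓ)) := by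
    have h1 : 0 ≤ a * (Real.log (2 * q / k) + 1) := by positivity
    have h2 : 0 < Real.log (k / (C₂ * (1 + ℓ))) := by linarith
    exact (Real.log_pos_iff (by positivity)).1 h2
  -- `r`
  obtain ⟨r, hr⟩ : ∃ r : ℕ, r = ⌊(k : ℝ) / (C₂ * (1 + ℓ))⌋₊ := ⟨_, rfl⟩
  have hr1 : 1 ≤ r := by
    rw [hr]
    exact Nat.le_floor (by rw [Nat.cast_one]; exact hbig.le)
  have hr1' : (1 : ℝ) ≤ r := by exact_mod_cast hr1
  have hCp : 0 < C₂ * (1 + ℓ) := by positivity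
  have hra : (r : ℝ) * (C₂ * (1 + ℓ)) ≤ k := by
    rw [← le_div_iff₀ hCp, hr]
    exact Nat.floor_le (by positivity)
  have hrb : (k : ℝ) ≤ 2 * r * (C₂ * (1 + ℓ)) := by
    rw [← div_le_iff₀ hCp]
    have h1 : (k : ℝ) / (C₂ * (1 + ℓ)) < r + 1 := by rw [hr]; exact Nat.lt_floor_add_one _
    linarith
  have hrk : (r : ℝ) ≤ k := by
    have h1 : 1 ≤ C₂ * (1 + ℓ) := one_le_mul_of_one_le_of_one_le hC₂1 (by linarith)
    have : (r : ℝ) ≤ r * (C₂ * (1 + ℓ)) := le_mul_of_one_le_right (by linarith) h1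
    linarith
  -- `δ`
  obtain ⟨δ, hδ⟩ : ∃ δ : ℕ, δ = ⌈a * k⌉₊ := ⟨_, rfl⟩
  have hδ1 : a * k ≤ δ := by rw [hδ]; exact Nat.le_ceil _
  have hδ2 : (δ : ℝ) ≤ a * k + 1 := by
    rw [hδ]; exact (Nat.ceil_lt_add_one (by positivity)).le
  have hkδ' : (k : ℝ) ≤ δ := (le_mul_of_one_le_left hk0.le ha1).trans hδ1
  have hkδ : k ≤ δ := by exact_mod_cast hkδ'
  -- `Q`
  obtain ⟨Q, hQ⟩ : ∃ Q : ℕ, Q = ⌈(q : ℝ) / k⌉₊ := ⟨_, rfl⟩
  have hQa : (q : ℝ) / k ≤ Q := by rw [hQ]; exact Nat.le_ceil _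
  have hqk1 : 1 ≤ (q : ℝ) / k := by rw [le_div_iff₀ hk0]; linarith
  have hQb : (Q : ℝ) ≤ 2 * q / k := by
    have h1 : (Q : ℝ) < q / k + 1 := by rw [hQ]; exact Nat.ceil_lt_add_one (by positivity)
    have h2 : 2 * (q : ℝ) / k = q / k + q / k := by ring
    rw [h2]; linarith
  have hQ1 : 1 ≤ Q := by
    have : (1 : ℝ) ≤ Q := hqk1.trans hQa
    exact_mod_cast this
  have hQk : q ≤ Q * k := by
    have : (q : ℝ) ≤ Q * k := by rwa [div_le_iff₀ hk0] at hQa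
    exact_mod_cast this
  refine ⟨δ, k, r, Q, Q, hk1, hkδ, hr1, hQk.trans (Nat.mul_le_mul_left _ hkδ), hQk, ?_, ?_⟩
  · have h1 : (6 * 1 * 1 * r * (1 * (s + 1) + 1) + 2 * δ + 2 * k * 1 * (s + 1) : ℝ) < m := by
      have h2 : (δ : ℝ) ≤ (D + 2) * k := by nlinarith
      have h3 : (6 * 1 * 1 * r * (1 * (s + 1) + 1) : ℝ) ≤ 6 * k * (D + 1) := by
        rw [hD]; nlinarith
      have h4 : (2 * k * 1 * (s + 1) : ℝ) = 2 * k * D := by rw [hD]; ring
      have h5 : 0 < (D + 1) * (k : ℝ) := by positivity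
      rw [h4]
      nlinarith
    exact_mod_cast h1
  · have := par1_ineq (Q₁ := Q) (Q₂ := Q) (r := r) hq ha1 haa hk1 hkq hr1 hQ1 hQ1 hδ1 hδ2 hQb hQb
      (by rw [← hD, ← hC₂, ← hℓ]; exact hra) (by rw [← hD, ← hC₂, ← hℓ]; exact hrb)
      (by rw [← hD, ← hC₂, ← hℓ]; exact hmain)
    simp only [Nat.cast_one, mul_one, one_mul]
    exact this

end HZ3
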