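import Pool.Agent.LibHZ3.Defs2

/-!
# Row PA1a: the inequality for one multiplier (MEDIUM, 40 min)

Write `D = s + 1`, `ℓ = log q`, `Λ = log (2 q / k) ≥ log Q₁, log Q₂`, `Λ ≥ 0` (`k ≤ q`),
`C₂ = 264 (2 D + 5)`.
* `δ² ≤ (a k + 1)² = k² (a + 1/k)² ≤ k² (a² + (2 a + 1)/k)`, and `(2 a + 1)(Λ + 1)/k ≤ 1`: indeed
  `Λ + 1 ≤ 2 (1 + ℓ) ≤ 2 k / C₂` (`hr1`, `r ≥ 1`) and `a ≤ D + 1` (from `a² = a + D`, `a ≥ 1`).
* `(r + 1) ≤ 2 r`, `δ + 3 r + D k ≤ (2 D + 5) k` (`δ ≤ a k + 1 ≤ (D + 2) k`, `r ≤ k`), so the third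
  term is at most `264 r (2 D + 5) k ℓ = C₂ r k ℓ ≤ k²` (`hr1`).
So the left hand side is at most `k² ((a² + D)(Λ + 1) + 2)`.
* Right: `2 δ k - k² ≥ (2 a - 1) k²`, `log (2 r) ≥ log (k / (C₂ (1 + ℓ)))` (`hr2`), which is
  `> a (Λ + 1) + 2 ≥ 0` (`hmain`), and `a² + D = a (2 a - 1)`, `2 a - 1 ≥ 1`.
-/

namespace HZ3

open Finset HZ89

theorem par1_ineq {q s k δ r Q₁ Q₂ : ℕ} {a : ℝ} (hq : 2 ≤ q) (ha1 : 1 ≤ a)
    (ha : a ^ 2 = a + (s + 1)) (hk : 1 ≤ k) (hkq : k ≤ q) (hr : 1 ≤ r) (hQ1 : 1 ≤ Q₁) (hQ2 : 1 ≤ Q₂)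
    (hδ1 : a * k ≤ δ) (hδ2 : (δ : ℝ) ≤ a * k + 1) (hQ₁ : (Q₁ : ℝ) ≤ 2 * q / k)
    (hQ₂ : (Q₂ : ℝ) ≤ 2 * q / k)
    (hr1 : (r : ℝ) * (264 * (2 * (s + 1) + 5) * (1 + Real.log q)) ≤ k)
    (hr2 : (k : ℝ) ≤ 2 * r * (264 * (2 * (s + 1) + 5) * (1 + Real.log q)))
    (hmain : a * (Real.log (2 * q / k) + 1) + 2 <
      Real.log (k / (264 * (2 * (s + 1) + 5) * (1 + Real.log q)))) :
    (δ : ℝ) ^ 2 * (Real.log Q₁ + 1) + (s + 1) * (k : ℝ) ^ 2 * (Real.log Q₂ + 1) +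
      132 * (r + 1) * (δ + 3 * r + (s + 1) * k) * Real.log q <
    (2 * δ * k - (k : ℝ) ^ 2) * Real.log (2 * r) := by
  obtain ⟨D, hD⟩ : ∃ D : ℝ, D = s + 1 := ⟨_, rfl⟩
  obtain ⟨ℓ, hℓ⟩ : ∃ ℓ : ℝ, ℓ = Real.log q := ⟨_, rfl⟩
  obtain ⟨Λ, hΛ⟩ : ∃ Λ : ℝ, Λ = Real.log (2 * q / k) := ⟨_, rfl⟩
  have hD1 : 1 ≤ D := by
    rw [hD]
    have : (0 : ℝ) ≤ s := Nat.cast_nonneg s
    linarith
  have hq' : (2 : ℝ) ≤ q := by exact_mod_cast hq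
  have hk' : (1 : ℝ) ≤ k := by exact_mod_cast hk
  have hr' : (1 : ℝ) ≤ r := by exact_mod_cast hr
  have hkq' : (k : ℝ) ≤ q := by exact_mod_cast hkq
  have hQ1' : (1 : ℝ) ≤ Q₁ := by exact_mod_cast hQ1
  have hQ2' : (1 : ℝ) ≤ Q₂ := by exact_mod_cast hQ2
  have hℓ0 : 0 ≤ ℓ := by rw [hℓ]; exact Real.log_nonneg (by linarith)
  have hk0 : (0 : ℝ) < k := by linarith
  have hΛ1 : Real.log Q₁ ≤ Λ := by rw [hΛ]; exact Real.log_le_log (by linarith) hQ₁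
  have hΛ2 : Real.log Q₂ ≤ Λ := by rw [hΛ]; exact Real.log_le_log (by linarith) hQ₂
  have hL1 : 0 ≤ Real.log Q₁ := Real.log_nonneg hQ1'
  have hL2 : 0 ≤ Real.log Q₂ := Real.log_nonneg hQ2'
  have hΛ0 : 0 ≤ Λ := hL1.trans hΛ1
  have hlog2 : Real.log 2 ≤ 1 := by
    have := Real.log_two_lt_d9
    linarith
  have hΛℓ : Λ + 1 ≤ 2 * (1 + ℓ) := by
    have h1 : Λ ≤ Real.log (2 * q) := by
      rw [hΛ]
      refine Real.log_le_log (by positivity) ?_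
      rw [div_le_iff₀ hk0]
      nlinarith
    rw [Real.log_mul (by norm_num) (by linarith), ← hℓ] at h1
    linarith
  rw [← hD] at ha hr1 hr2 hmain ⊢
  rw [← hℓ] at hr1 hr2 hmain ⊢
  rw [← hΛ] at hmain
  obtain ⟨C, hC⟩ : ∃ C : ℝ, C = 264 * (2 * D + 5) := ⟨_, rfl⟩
  rw [← hC] at hr1 hr2 hmain
  have hC0 : 0 < C := by rw [hC]; linarith
  have hC1 : 1 ≤ C := by rw [hC]; linarith
  -- facts on `a`
  have haD : a ≤ D + 1 := by nlinarith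
  -- `C (1 + ℓ) ≤ k`
  have hCk : C * (1 + ℓ) ≤ k := by
    have : C * (1 + ℓ) ≤ r * (C * (1 + ℓ)) :=
      le_mul_of_one_le_left (by positivity) hr'
    linarith
  have hrk : (r : ℝ) ≤ k := by
    have h1 : 1 ≤ C * (1 + ℓ) := one_le_mul_of_one_le_of_one_le hC1 (by linarith)
    have : (r : ℝ) ≤ r * (C * (1 + ℓ)) := le_mul_of_one_le_right (by linarith) h1
    linarith
  have hδ0 : (0 : ℝ) ≤ δ := Nat.cast_nonneg δ
  -- the first term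
  have hT1 : (δ : ℝ) ^ 2 * (Real.log Q₁ + 1) ≤ (a ^ 2 * k ^ 2 + (2 * a * k + 1)) * (Λ + 1) := by
    have h1 : (δ : ℝ) ^ 2 ≤ a ^ 2 * k ^ 2 + (2 * a * k + 1) := by
      have h2 : (δ : ℝ) ^ 2 ≤ (a * k + 1) ^ 2 := pow_le_pow_left₀ hδ0 hδ2 2
      have h3 : (a * k + 1) ^ 2 = a ^ 2 * k ^ 2 + (2 * a * k + 1) := by ring
      linarith
    exact mul_le_mul h1 (by linarith) (by linarith) (le_trans (sq_nonneg _) h1)
  have hT1' : (2 * a * k + 1) * (Λ + 1) ≤ (k : ℝ) ^ 2 := by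
    have h1 : 2 * a * k + 1 ≤ (2 * D + 3) * k := by nlinarith
    have h2 : C * (Λ + 1) ≤ 2 * k := by
      have : C * (Λ + 1) ≤ C * (2 * (1 + ℓ)) := mul_le_mul_of_nonneg_left hΛℓ hC0.le
      linarith
    have h3 : (2 * D + 3) * k * (Λ + 1) * C ≤ (2 * D + 3) * k * (2 * k) := by
      rw [mul_assoc _ (Λ + 1) C, mul_comm (Λ + 1) C]
      exact mul_le_mul_of_nonneg_left h2 (by positivity)
    have h4 : (2 * D + 3) * (k : ℝ) * (2 * k) ≤ (k : ℝ) ^ 2 * C := by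
      rw [hC]
      have : (0 : ℝ) ≤ (k : ℝ) ^ 2 := by positivity
      nlinarith
    have h5 : (2 * D + 3) * (k : ℝ) * (Λ + 1) ≤ (k : ℝ) ^ 2 :=
      le_of_mul_le_mul_right (h3.trans h4) hC0
    exact (mul_le_mul_of_nonneg_right h1 (by linarith)).trans h5
  -- the second term
  have hT2 : D * (k : ℝ) ^ 2 * (Real.log Q₂ + 1) ≤ D * (k : ℝ) ^ 2 * (Λ + 1) :=
    mul_le_mul_of_nonneg_left (by linarith) (by positivity)
  -- the third term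
  have hT3 : 132 * ((r : ℝ) + 1) * (δ + 3 * r + D * k) * ℓ ≤ (k : ℝ) ^ 2 := by
    have h1 : (δ : ℝ) + 3 * r + D * k ≤ (2 * D + 5) * k := by nlinarith
    have h2 : 132 * ((r : ℝ) + 1) ≤ 264 * r := by linarith
    have h3 : 132 * ((r : ℝ) + 1) * (δ + 3 * r + D * k) ≤ 264 * r * ((2 * D + 5) * k) :=
      mul_le_mul h2 h1 (by positivity) (by positivity)
    have h4 : 132 * ((r : ℝ) + 1) * (δ + 3 * r + D * k) * ℓ ≤
        264 * r * ((2 * D + 5) * k) * (1 + ℓ) :=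
      mul_le_mul h3 (by linarith) hℓ0 (by positivity)
    have h5 : 264 * (r : ℝ) * ((2 * D + 5) * k) * (1 + ℓ) = r * (C * (1 + ℓ)) * k := by
      rw [hC]; ring
    have h6 : (r : ℝ) * (C * (1 + ℓ)) * k ≤ k * k := mul_le_mul_of_nonneg_right hr1 hk0.le
    nlinarith
  -- the right hand side
  have hR1 : (2 * a - 1) * (k : ℝ) ^ 2 ≤ 2 * δ * k - (k : ℝ) ^ 2 := by nlinarith
  have hR2 : Real.log (k / (C * (1 + ℓ))) ≤ Real.log (2 * r) := by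
    refine Real.log_le_log (by positivity) ?_
    rw [div_le_iff₀ (by positivity)]
    exact hr2
  have hR3 : a * (Λ + 1) + 2 < Real.log (2 * r) := lt_of_lt_of_le hmain hR2
  have hR4 : (2 * a - 1) * (k : ℝ) ^ 2 * (a * (Λ + 1) + 2) <
      (2 * δ * k - (k : ℝ) ^ 2) * Real.log (2 * r) := by
    have h1 : 0 < (2 * a - 1) * (k : ℝ) ^ 2 := mul_pos (by linarith) (by positivity)
    have h2 : (2 * a - 1) * (k : ℝ) ^ 2 * (a * (Λ + 1) + 2) <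
        (2 * a - 1) * (k : ℝ) ^ 2 * Real.log (2 * r) := mul_lt_mul_of_pos_left hR3 h1
    have h3 : 0 ≤ Real.log (2 * r) := by
      have : 0 ≤ a * (Λ + 1) := by positivity
      linarith
    exact lt_of_lt_of_le h2 (mul_le_mul_of_nonneg_right hR1 h3)
  have hR5 : (2 * a - 1) * (k : ℝ) ^ 2 * (a * (Λ + 1) + 2) =
      (a ^ 2 + D) * (k : ℝ) ^ 2 * (Λ + 1) + 2 * (2 * a - 1) * (k : ℝ) ^ 2 := by
    have : a ^ 2 + D = (2 * a - 1) * a := by nlinarith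
    rw [this]; ring
  have hR6 : 2 * (k : ℝ) ^ 2 ≤ 2 * (2 * a - 1) * (k : ℝ) ^ 2 := by
    have : (0 : ℝ) ≤ (k : ℝ) ^ 2 := by positivity
    nlinarith
  have hexp : (a ^ 2 * k ^ 2 + (2 * a * k + 1)) * (Λ + 1) + D * (k : ℝ) ^ 2 * (Λ + 1) =
      (a ^ 2 + D) * (k : ℝ) ^ 2 * (Λ + 1) + (2 * a * k + 1) * (Λ + 1) := by ring
  linarith

end HZ3
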