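import Pool.Agent.LibHZ3.PA2a

/-!
# Row PA2: admissible parameters for many multipliers (MEDIUM/STRONG, 50 min)

`A = ⌈8 / ε⌉₊`, `k`, `r` as in row PA2a.  `c` small (in terms of `ε`, `c₁`, `A`), `c < 1`; the
hypothesis `1 ≤ s + 1 ≤ c q^(1/4 - ε)` gives `q ≥ c⁻⁴`, so `q` is as large as we like.
* `M₀ ≥ c₁ X q^(-η) ≥ (c₁ / 2) q^(1/4 - ε/2 - η)`, exponent `≥ 1/8` (`ε ≤ 1/8`, `η ≤ ε / 8`), so
  `M₀ ≥ A`, and `1056 A D ≤ 1056 A c q^(1/4 - ε) ≤ ε (c₁ / 2) q^(1/4 - ε/2 - η) ≤ ε M₀`.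
* `8 M₀ D ≤ 8 c q^(1/2) ≤ c₁ q^(1-η) ≤ m`; `48 M₀² X D ≤ 48 c q^(3/4 - 3ε/2 + 1/4 - ε) ≤ c₁ q^(1-η) ≤ m`
  (`M₀ ≤ X ≤ q^(1/4 - ε/2)`, `η ≤ 5 ε / 2`, `48 c ≤ c₁`).
* `2 r ≥ m / (48 M₀² X D) ≥ c₁ q^(1-η) / (48 c q^(1 - 5ε/2)) ≥ q^(5ε/2 - η) ≥ q^(2ε)`.
-/

namespace HZ3

open Finset HZ89

theorem par2 {ε η c₁ : ℝ} (hε : 0 < ε) (hε1 : ε ≤ 1 / 8) (hη : 0 < η) (hη1 : 8 * η ≤ ε)
    (hc₁ : 0 < c₁) : ∃ c : ℝ, 0 < c ∧ c < 1 / 2 ∧ ∀ q m s X M₀ : ℕ, 2 ≤ q → m ≤ q →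
      c₁ * (q : ℝ) ^ (1 - η) ≤ m → (q : ℝ) ^ (1 / 4 - ε / 2) ≤ 2 * X →
      (X : ℝ) ≤ (q : ℝ) ^ (1 / 4 - ε / 2) → c₁ * X * (q : ℝ) ^ (-η) ≤ M₀ → M₀ ≤ X →
      (s : ℝ) + 1 ≤ c * (q : ℝ) ^ (1 / 4 - ε) → ∃ δ k r Q₁ Q₂ : ℕ, Adm q s m X M₀ δ k r Q₁ Q₂ := by
  set A : ℕ := ⌈8 / ε⌉₊ with hA
  have hA0 : (0 : ℝ) < A := by
    have : 0 < ⌈8 / ε⌉₊ := Nat.ceil_pos.mpr (by positivity)
    exact_mod_cast this
  have hA8 : 8 ≤ ε * A := by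
    have h := Nat.le_ceil (8 / ε)
    rw [div_le_iff₀ hε] at h
    linarith
  set c : ℝ := min (min (1 / 3) (c₁ / 48)) (min (ε * c₁ / (2112 * A)) ((c₁ / (2 * A)) ^ 2)) with hc
  have hc0 : 0 < c := by
    rw [hc]
    refine lt_min (lt_min (by norm_num) (by positivity)) (lt_min (by positivity) (by positivity))
  have hc3 : c ≤ 1 / 3 := (min_le_left _ _).trans (min_le_left _ _)
  have hc48 : c ≤ c₁ / 48 := (min_le_left _ _).trans (min_le_right _ _)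
  have hcε : c ≤ ε * c₁ / (2112 * A) := (min_le_right _ _).trans (min_le_left _ _)
  have hcA : c ≤ (c₁ / (2 * A)) ^ 2 := (min_le_right _ _).trans (min_le_right _ _)
  refine ⟨c, hc0, by linarith, ?_⟩
  intro q m s X M₀ hq hmq hm hX1 hX2 hM1 hM2 hs
  have hQ1 : (1 : ℝ) ≤ q := by exact_mod_cast (by omega : 1 ≤ q)
  have hQ0 : (0 : ℝ) < q := by linarith
  have hs0 : (0 : ℝ) ≤ s := Nat.cast_nonneg _
  have hcq : 1 ≤ c * (q : ℝ) ^ (1 / 4 - ε) := by linarith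
  have hcq4 : 1 ≤ c * (q : ℝ) ^ (1 / 4 : ℝ) := by
    refine hcq.trans ?_
    have : (q : ℝ) ^ (1 / 4 - ε) ≤ (q : ℝ) ^ (1 / 4 : ℝ) :=
      Real.rpow_le_rpow_of_exponent_le hQ1 (by linarith)
    gcongr
  -- size of `q`
  have hq3 : 3 ≤ q := by
    by_contra hcon
    have h2 : (q : ℝ) ≤ 2 := by exact_mod_cast (by omega : q ≤ 2)
    have h3 : (q : ℝ) ^ (1 / 4 : ℝ) ≤ (q : ℝ) ^ (1 : ℝ) :=
      Real.rpow_le_rpow_of_exponent_le hQ1 (by norm_num)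
    rw [Real.rpow_one] at h3
    have h4 : c * (q : ℝ) ^ (1 / 4 : ℝ) ≤ 1 / 3 * 2 := by
      have : (q : ℝ) ^ (1 / 4 : ℝ) ≤ 2 := h3.trans h2
      have hnn : 0 ≤ (q : ℝ) ^ (1 / 4 : ℝ) := by positivity
      calc c * (q : ℝ) ^ (1 / 4 : ℝ) ≤ 1 / 3 * (q : ℝ) ^ (1 / 4 : ℝ) := by gcongr
        _ ≤ 1 / 3 * 2 := by gcongr
    linarith
  -- lower bound for `M₀`
  have hMlow : c₁ / 2 * (q : ℝ) ^ (1 / 4 - ε / 2 - η) ≤ M₀ := by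
    refine le_trans ?_ hM1
    have h1 : (q : ℝ) ^ (1 / 4 - ε / 2 - η) = (q : ℝ) ^ (1 / 4 - ε / 2) * (q : ℝ) ^ (-η) := by
      rw [← Real.rpow_add hQ0]; congr 1
    rw [h1]
    calc c₁ / 2 * ((q : ℝ) ^ (1 / 4 - ε / 2) * (q : ℝ) ^ (-η))
        ≤ c₁ / 2 * ((2 * X) * (q : ℝ) ^ (-η)) := by gcongr
      _ = c₁ * X * (q : ℝ) ^ (-η) := by ring
  have hAM : A ≤ M₀ := by
    have h1 : (q : ℝ) ^ (1 / 8 : ℝ) ≤ (q : ℝ) ^ (1 / 4 - ε / 2 - η) :=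
      Real.rpow_le_rpow_of_exponent_le hQ1 (by linarith)
    have h2 : (q : ℝ) ^ (1 / 4 : ℝ) = ((q : ℝ) ^ (1 / 8 : ℝ)) ^ 2 := by
      rw [← Real.rpow_natCast, ← Real.rpow_mul hQ0.le]; norm_num
    have h3 : 1 ≤ (c₁ / (2 * A) * (q : ℝ) ^ (1 / 8 : ℝ)) ^ 2 := by
      calc (1 : ℝ) ≤ c * (q : ℝ) ^ (1 / 4 : ℝ) := hcq4
        _ ≤ (c₁ / (2 * A)) ^ 2 * (q : ℝ) ^ (1 / 4 : ℝ) := by gcongr
        _ = (c₁ / (2 * A) * (q : ℝ) ^ (1 / 8 : ℝ)) ^ 2 := by rw [h2]; ring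
    have h4 : 1 ≤ c₁ / (2 * A) * (q : ℝ) ^ (1 / 8 : ℝ) := by
      have hnn : 0 ≤ c₁ / (2 * A) * (q : ℝ) ^ (1 / 8 : ℝ) := by positivity
      nlinarith
    have h5 : (A : ℝ) ≤ c₁ / 2 * (q : ℝ) ^ (1 / 8 : ℝ) := by
      have := mul_le_mul_of_nonneg_left h4 hA0.le
      calc (A : ℝ) = A * 1 := by ring
        _ ≤ A * (c₁ / (2 * A) * (q : ℝ) ^ (1 / 8 : ℝ)) := this
        _ = c₁ / 2 * (q : ℝ) ^ (1 / 8 : ℝ) := by field_simp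
    have h6 : (A : ℝ) ≤ M₀ := by
      refine h5.trans (le_trans ?_ hMlow)
      gcongr
    exact_mod_cast h6
  have hMX : (M₀ : ℝ) ≤ X := by exact_mod_cast hM2
  have hMq : (M₀ : ℝ) ≤ (q : ℝ) ^ (1 / 4 - ε / 2) := hMX.trans hX2
  have hD0 : (0 : ℝ) ≤ (s : ℝ) + 1 := by linarith
  have hM00 : (0 : ℝ) ≤ M₀ := Nat.cast_nonneg _
  have hX00 : (0 : ℝ) ≤ X := Nat.cast_nonneg _
  -- `8 M₀ (s + 1) ≤ m`
  have hkm : 8 * M₀ * (s + 1) ≤ m := by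
    have h : 8 * (M₀ : ℝ) * ((s : ℝ) + 1) ≤ m := by
      have e1 : (q : ℝ) ^ (1 / 4 - ε / 2) * (q : ℝ) ^ (1 / 4 - ε) ≤ (q : ℝ) ^ (1 - η) := by
        rw [← Real.rpow_add hQ0]
        exact Real.rpow_le_rpow_of_exponent_le hQ1 (by linarith)
      calc 8 * (M₀ : ℝ) * ((s : ℝ) + 1)
          ≤ 8 * (q : ℝ) ^ (1 / 4 - ε / 2) * (c * (q : ℝ) ^ (1 / 4 - ε)) := by gcongr
        _ = 8 * c * ((q : ℝ) ^ (1 / 4 - ε / 2) * (q : ℝ) ^ (1 / 4 - ε)) := by ring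
        _ ≤ 8 * c * (q : ℝ) ^ (1 - η) := by gcongr
        _ ≤ c₁ * (q : ℝ) ^ (1 - η) := by
          have : 8 * c ≤ c₁ := by linarith
          gcongr
        _ ≤ m := hm
    exact_mod_cast h
  -- `48 M₀² X (s + 1) ≤ 48 c q^(1 - 5 ε / 2)`
  have hW : 48 * (M₀ : ℝ) ^ 2 * X * ((s : ℝ) + 1) ≤ 48 * c * (q : ℝ) ^ (1 - 5 * ε / 2) := by
    have e1 : (q : ℝ) ^ (1 - 5 * ε / 2) = ((q : ℝ) ^ (1 / 4 - ε / 2)) ^ 2 *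
        (q : ℝ) ^ (1 / 4 - ε / 2) * (q : ℝ) ^ (1 / 4 - ε) := by
      rw [← Real.rpow_natCast, ← Real.rpow_mul hQ0.le, ← Real.rpow_add hQ0, ← Real.rpow_add hQ0]
      congr 1
      push_cast
      ring
    rw [e1]
    calc 48 * (M₀ : ℝ) ^ 2 * X * ((s : ℝ) + 1)
        ≤ 48 * ((q : ℝ) ^ (1 / 4 - ε / 2)) ^ 2 * (q : ℝ) ^ (1 / 4 - ε / 2) *
          (c * (q : ℝ) ^ (1 / 4 - ε)) := by gcongr
      _ = 48 * c * (((q : ℝ) ^ (1 / 4 - ε / 2)) ^ 2 *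
        (q : ℝ) ^ (1 / 4 - ε / 2) * (q : ℝ) ^ (1 / 4 - ε)) := by ring
  have hrm : 48 * M₀ ^ 2 * X * (s + 1) ≤ m := by
    have h : 48 * (M₀ : ℝ) ^ 2 * X * ((s : ℝ) + 1) ≤ m := by
      calc 48 * (M₀ : ℝ) ^ 2 * X * ((s : ℝ) + 1) ≤ 48 * c * (q : ℝ) ^ (1 - 5 * ε / 2) := hW
        _ ≤ 48 * c * (q : ℝ) ^ (1 - η) := by
          have : (q : ℝ) ^ (1 - 5 * ε / 2) ≤ (q : ℝ) ^ (1 - η) :=
            Real.rpow_le_rpow_of_exponent_le hQ1 (by linarith)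
          gcongr
        _ ≤ c₁ * (q : ℝ) ^ (1 - η) := by
          have : 48 * c ≤ c₁ := by linarith
          gcongr
        _ ≤ m := hm
    exact_mod_cast h
  set r : ℕ := m / (48 * M₀ ^ 2 * X * (s + 1)) with hr
  have hlog : 2 * ε * Real.log q ≤ Real.log (2 * r) := by
    have hAp : 0 < A := by exact_mod_cast hA0
    have hM1' : 1 ≤ M₀ := le_trans hAp hAM
    have hX1' : 1 ≤ X := hM1'.trans hM2
    have hWpos : 0 < 48 * M₀ ^ 2 * X * (s + 1) := by positivity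
    have hr1 : 1 ≤ r := Nat.div_pos hrm hWpos
    have h1 : m ≤ 48 * M₀ ^ 2 * X * (s + 1) * (2 * r) := by
      have h := Nat.lt_mul_div_succ m hWpos
      rw [← hr] at h
      refine h.le.trans ?_
      gcongr
      omega
    have h2 : (m : ℝ) ≤ 48 * (M₀ : ℝ) ^ 2 * X * ((s : ℝ) + 1) * (2 * r) := by exact_mod_cast h1
    have h3 : (q : ℝ) ^ (2 * ε) ≤ 2 * r := by
      have e1 : c₁ * (q : ℝ) ^ (1 - η) ≤ c₁ * (q : ℝ) ^ (1 - 5 * ε / 2) * (2 * r) := by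
        calc c₁ * (q : ℝ) ^ (1 - η) ≤ m := hm
          _ ≤ 48 * (M₀ : ℝ) ^ 2 * X * ((s : ℝ) + 1) * (2 * r) := h2
          _ ≤ 48 * c * (q : ℝ) ^ (1 - 5 * ε / 2) * (2 * r) := by gcongr
          _ ≤ c₁ * (q : ℝ) ^ (1 - 5 * ε / 2) * (2 * r) := by
            have : 48 * c ≤ c₁ := by linarith
            gcongr
      have e2 : (q : ℝ) ^ (1 - η) = (q : ℝ) ^ (1 - 5 * ε / 2) * (q : ℝ) ^ (5 * ε / 2 - η) := by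
        rw [← Real.rpow_add hQ0]; congr 1; ring
      have hp : 0 < c₁ * (q : ℝ) ^ (1 - 5 * ε / 2) := by positivity
      have e3 : (q : ℝ) ^ (5 * ε / 2 - η) ≤ 2 * r := by
        refine le_of_mul_le_mul_left ?_ hp
        calc c₁ * (q : ℝ) ^ (1 - 5 * ε / 2) * (q : ℝ) ^ (5 * ε / 2 - η)
            = c₁ * (q : ℝ) ^ (1 - η) := by rw [e2]; ring
          _ ≤ _ := e1
      exact (Real.rpow_le_rpow_of_exponent_le hQ1 (by linarith)).trans e3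
    rw [← Real.log_rpow hQ0]
    exact Real.log_le_log (by positivity) h3
  have hM : 1056 * A * ((s : ℝ) + 1) ≤ ε * M₀ := by
    have e1 : (q : ℝ) ^ (1 / 4 - ε) ≤ (q : ℝ) ^ (1 / 4 - ε / 2 - η) :=
      Real.rpow_le_rpow_of_exponent_le hQ1 (by linarith)
    have e2 : 1056 * A * c ≤ ε * (c₁ / 2) := by
      rw [le_div_iff₀ (by positivity)] at hcε
      linarith
    calc 1056 * A * ((s : ℝ) + 1) ≤ 1056 * A * (c * (q : ℝ) ^ (1 / 4 - ε)) := by gcongr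
      _ = 1056 * A * c * (q : ℝ) ^ (1 / 4 - ε) := by ring
      _ ≤ ε * (c₁ / 2) * (q : ℝ) ^ (1 / 4 - ε / 2 - η) := by gcongr
      _ = ε * (c₁ / 2 * (q : ℝ) ^ (1 / 4 - ε / 2 - η)) := by ring
      _ ≤ ε * M₀ := by gcongr
  exact ⟨_, _, _, _, _, par2_ineq hε hq3 hA8 hAM hM2 rfl hkm hr hrm hlog hM⟩

end HZ3
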