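import Pool.Agent.LibHZ3.Defs2

/-!
# Row PA2a: the inequality for many multipliers (MEDIUM/STRONG, 45 min)

`D = s + 1`, `ℓ = log q ≥ 1`, `B = M₀ / A` (natural division), `1 ≤ B ≤ M₀ / A`, `2 A B ≥ M₀`, `δ = k B`.
`k ≤ m / (8 M₀ D) ≤ 2 k` (`k ≥ 1`), `r ≤ m / (48 M₀² X D) ≤ 2 r`.
(ZE): `6 M₀ X r (M₀ D + 1) ≤ 12 M₀² X D r ≤ m / 4`, `2 δ ≤ 2 k M₀ ≤ m / 4`, `2 k M₀ D ≤ m / 4`, `m > 0`.
(INEQ): right `= M₀ k² (2 B - 1) log (2 r) ≥ M₀ k² B · 2 ε ℓ ≥ M₀² k² ε ℓ / A =: R > 0`.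
First term `≤ k² M₀² (ℓ + 1) / A² ≤ R / 4` (`4 (ℓ + 1) ≤ 8 ℓ ≤ A ε ℓ`); second
`D M₀ k² (ℓ + 1) ≤ R / 4` (`8 A D ≤ ε M₀`); third: `δ + 3 M₀ X r + D M₀ k ≤ 3 D M₀ k`
(`3 M₀ X r ≤ m / (16 M₀ D) ≤ k`), `r + 1 ≤ 2 r`, so it is at most
`792 M₀² X D r k ℓ ≤ 792 (m / 48) k ℓ ≤ 792 / 48 · 16 M₀ D k² ℓ = 264 M₀ D k² ℓ ≤ R / 4`
(`1056 A D ≤ ε M₀`).
-/

namespace HZ3

open Finset HZ89

theorem par2_ineq {q m s X M₀ A k r : ℕ} {ε : ℝ} (hε : 0 < ε) (hq : 3 ≤ q) (hA : 8 ≤ ε * A)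
    (hAM : A ≤ M₀) (hMX : M₀ ≤ X) (hk : k = m / (8 * M₀ * (s + 1))) (hkm : 8 * M₀ * (s + 1) ≤ m)
    (hr : r = m / (48 * M₀ ^ 2 * X * (s + 1))) (hrm : 48 * M₀ ^ 2 * X * (s + 1) ≤ m)
    (hlog : 2 * ε * Real.log q ≤ Real.log (2 * r))
    (hM : 1056 * A * ((s : ℝ) + 1) ≤ ε * M₀) : Adm q s m X M₀ (k * (M₀ / A)) k r q q := by
  have hA1 : 1 ≤ A := by
    rcases Nat.eq_zero_or_pos A with h | h
    · exfalso; rw [h] at hA; norm_num at hA
    · exact h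
  have hM1 : 1 ≤ M₀ := hA1.trans hAM
  have hX1 : 1 ≤ X := hM1.trans hMX
  have hm1 : 1 ≤ m := by
    refine le_trans ?_ hkm
    exact Nat.one_le_iff_ne_zero.mpr (by positivity)
  set B := M₀ / A with hB
  have hB1 : 1 ≤ B := Nat.div_pos hAM hA1
  have hBA : B * A ≤ M₀ := Nat.div_mul_le_self _ _
  have hB2 : M₀ ≤ 2 * B * A := by
    have h := Nat.lt_mul_div_succ M₀ hA1
    rw [← hB] at h
    nlinarith
  have hpos : 0 < 8 * M₀ * (s + 1) := by positivity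
  have hk1 : 1 ≤ k := by rw [hk]; exact Nat.div_pos hkm hpos
  have hk2 : 8 * M₀ * (s + 1) * k ≤ m := by rw [hk]; exact Nat.mul_div_le _ _
  have hk3 : m ≤ 16 * M₀ * (s + 1) * k := by
    have h := Nat.lt_mul_div_succ m hpos
    rw [← hk] at h
    nlinarith
  have hpos2 : 0 < 48 * M₀ ^ 2 * X * (s + 1) := by positivity
  have hr1 : 1 ≤ r := by rw [hr]; exact Nat.div_pos hrm hpos2
  have hr2 : 48 * M₀ ^ 2 * X * (s + 1) * r ≤ m := by rw [hr]; exact Nat.mul_div_le _ _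
  have hBM : B ≤ M₀ := Nat.div_le_self _ _
  -- casts
  have aA : (1 : ℝ) ≤ A := by exact_mod_cast hA1
  have aM : (1 : ℝ) ≤ M₀ := by exact_mod_cast hM1
  have aX : (1 : ℝ) ≤ X := by exact_mod_cast hX1
  have aB : (1 : ℝ) ≤ B := by exact_mod_cast hB1
  have ak : (1 : ℝ) ≤ k := by exact_mod_cast hk1
  have ar : (1 : ℝ) ≤ r := by exact_mod_cast hr1
  have aD : (1 : ℝ) ≤ (s : ℝ) + 1 := by have : (0 : ℝ) ≤ s := Nat.cast_nonneg _; linarith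
  have cBA : (B : ℝ) * A ≤ M₀ := by exact_mod_cast hBA
  have cB2 : (M₀ : ℝ) ≤ 2 * B * A := by exact_mod_cast hB2
  have ck3 : (m : ℝ) ≤ 16 * M₀ * ((s : ℝ) + 1) * k := by exact_mod_cast hk3
  have cr2 : 48 * (M₀ : ℝ) ^ 2 * X * ((s : ℝ) + 1) * r ≤ m := by exact_mod_cast hr2
  have cBM : (B : ℝ) ≤ M₀ := by exact_mod_cast hBM
  have hL1 : (1 : ℝ) ≤ Real.log q := by
    have h3 : Real.exp 1 ≤ (q : ℝ) := by
      have h9 := Real.exp_one_lt_d9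
      have : (3 : ℝ) ≤ q := by exact_mod_cast hq
      linarith
    have hq0 : (0 : ℝ) < q := lt_of_lt_of_le (Real.exp_pos 1) h3
    exact (Real.le_log_iff_exp_le hq0).mpr h3
  set L := Real.log q with hL
  set D : ℝ := (s : ℝ) + 1 with hD
  refine ⟨hk1, ?_, hr1, ?_, ?_, ?_, ?_⟩
  · exact Nat.le_mul_of_pos_right k hB1
  · exact Nat.le_mul_of_pos_right q (Nat.mul_pos hk1 hB1)
  · exact Nat.le_mul_of_pos_right q hk1
  · -- ZE
    have h1 : 4 * (6 * M₀ * X * r * (M₀ * (s + 1) + 1)) ≤ m := by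
      have hMD : 1 ≤ M₀ * (s + 1) := Nat.one_le_iff_ne_zero.mpr (by positivity)
      calc 4 * (6 * M₀ * X * r * (M₀ * (s + 1) + 1))
          ≤ 4 * (6 * M₀ * X * r * (M₀ * (s + 1) + M₀ * (s + 1))) := by gcongr
        _ = 48 * M₀ ^ 2 * X * (s + 1) * r := by ring
        _ ≤ m := hr2
    have h2 : 4 * (2 * (k * B)) ≤ m := by
      calc 4 * (2 * (k * B)) ≤ 4 * (2 * (k * M₀)) := by gcongr
        _ = 8 * M₀ * 1 * k := by ring
        _ ≤ 8 * M₀ * (s + 1) * k := by gcongr; omega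
        _ ≤ m := hk2
    have h3 : 4 * (2 * k * M₀ * (s + 1)) ≤ m := by
      calc 4 * (2 * k * M₀ * (s + 1)) = 8 * M₀ * (s + 1) * k := by ring
        _ ≤ m := hk2
    omega
  · -- the inequality
    push_cast
    have hεB : 528 * D ≤ ε * B := by
      have h1 : 1056 * (A : ℝ) * D ≤ ε * (2 * B * A) := hM.trans (by gcongr)
      have h2 : (A : ℝ) * (528 * D) ≤ A * (ε * B) := by nlinarith
      exact le_of_mul_le_mul_left h2 (by linarith)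
    have hεM : 8 * (B : ℝ) ≤ ε * M₀ := by
      have h1 : 8 * (B : ℝ) ≤ (ε * A) * B := by gcongr
      have h2 : (ε * A) * B ≤ ε * M₀ := by
        have := mul_le_mul_of_nonneg_left cBA hε.le
        nlinarith
      exact h1.trans h2
    set R : ℝ := 2 * M₀ * (k : ℝ) ^ 2 * B * ε * L with hR
    have hRpos : 0 < R := by positivity
    have hL0 : 0 ≤ L := by linarith
    have t1 : ((k : ℝ) * B) ^ 2 * (L + 1) ≤ R / 8 := by
      calc ((k : ℝ) * B) ^ 2 * (L + 1) ≤ ((k : ℝ) * B) ^ 2 * (2 * L) := by gcongr; linarith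
        _ = (k : ℝ) ^ 2 * B * (2 * L) * B := by ring
        _ ≤ (k : ℝ) ^ 2 * B * (2 * L) * (ε * M₀ / 8) := by gcongr; linarith
        _ = R / 8 := by rw [hR]; ring
    have t2 : D * M₀ * (k : ℝ) ^ 2 * (L + 1) ≤ R / 528 := by
      calc D * M₀ * (k : ℝ) ^ 2 * (L + 1) ≤ D * M₀ * (k : ℝ) ^ 2 * (2 * L) := by gcongr; linarith
        _ = M₀ * (k : ℝ) ^ 2 * (2 * L) * D := by ring
        _ ≤ M₀ * (k : ℝ) ^ 2 * (2 * L) * (ε * B / 528) := by gcongr; linarith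
        _ = R / 528 := by rw [hR]; ring
    have hsum : (k : ℝ) * B + 3 * M₀ * X * r + D * M₀ * k ≤ 3 * D * M₀ * k := by
      have e1 : (k : ℝ) * B ≤ D * M₀ * k := by
        calc (k : ℝ) * B ≤ k * M₀ := by gcongr
          _ = 1 * M₀ * k := by ring
          _ ≤ D * M₀ * k := by gcongr
      have e2 : 3 * (M₀ : ℝ) * X * r ≤ k := by
        have h1 : 48 * (M₀ : ℝ) ^ 2 * X * D * r ≤ 16 * M₀ * D * k := cr2.trans ck3
        have h2 : (16 * (M₀ : ℝ) * D) * (3 * M₀ * X * r) ≤ (16 * (M₀ : ℝ) * D) * k := by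
          calc (16 * (M₀ : ℝ) * D) * (3 * M₀ * X * r) = 48 * (M₀ : ℝ) ^ 2 * X * D * r := by ring
            _ ≤ 16 * M₀ * D * k := h1
        exact le_of_mul_le_mul_left h2 (by positivity)
      have e3 : (k : ℝ) ≤ D * M₀ * k := by
        calc (k : ℝ) = 1 * 1 * k := by ring
          _ ≤ D * M₀ * k := by gcongr
      linarith
    have t3 : 132 * (M₀ : ℝ) * X * (r + 1) * (k * B + 3 * M₀ * X * r + D * M₀ * k) * L ≤ R / 4 := by
      calc 132 * (M₀ : ℝ) * X * (r + 1) * (k * B + 3 * M₀ * X * r + D * M₀ * k) * L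
          ≤ 132 * (M₀ : ℝ) * X * (2 * r) * (3 * D * M₀ * k) * L := by gcongr; linarith
        _ = 33 / 2 * (48 * (M₀ : ℝ) ^ 2 * X * D * r) * k * L := by ring
        _ ≤ 33 / 2 * m * k * L := by gcongr
        _ ≤ 33 / 2 * (16 * M₀ * D * k) * k * L := by gcongr
        _ = 264 * M₀ * (k : ℝ) ^ 2 * L * D := by ring
        _ ≤ 264 * M₀ * (k : ℝ) ^ 2 * L * (ε * B / 528) := by gcongr; linarith
        _ = R / 4 := by rw [hR]; ring
    have hright : R ≤ M₀ * (2 * (k * B) * k - (k : ℝ) ^ 2) * Real.log (2 * r) := by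
      have hlog0 : 0 ≤ 2 * ε * L := by positivity
      calc R = M₀ * ((k : ℝ) ^ 2 * B) * (2 * ε * L) := by rw [hR]; ring
        _ ≤ M₀ * ((k : ℝ) ^ 2 * B) * Real.log (2 * r) := by gcongr
        _ ≤ M₀ * (2 * (k * B) * k - (k : ℝ) ^ 2) * Real.log (2 * r) := by
          have : (k : ℝ) ^ 2 * B ≤ 2 * (k * B) * k - (k : ℝ) ^ 2 := by nlinarith
          have hl : 0 ≤ Real.log (2 * r) := hlog0.trans hlog
          gcongr
    have hfin : R / 8 + R / 528 + R / 4 < R := by linarith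
    linarith

end HZ3
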