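import Pool.Agent.LibHZ3.Defs2

/-!
# Row PA3: admissible parameters for one multiplier, uniform in the dimension (MEDIUM/STRONG, 60 min)

`D = s + 1`, `c = 1/20`, `a = Nat.sqrt D ≥ 1` (`a² ≤ D`, `√D ≤ 2 a`), `ℓ = log q`, `L = ⌈ℓ⌉₊ ≥ 1`.
`k = m / (17 D)`, `δ = a k`, `r = k / (1320 D L)` (natural divisions), `Q₁ = Q₂ = q / k + 1 ≤ 2 q / k`.
(ZE): `6 r (D + 1) + 2 a k + 2 k D ≤ 12 k D + 4 k D = 16 k D < m` (`r ≤ k`, `a ≤ D`).
(INEQ): `λ = log (2 q / k) ≤ log (68 D q / m)` (`k ≥ m / (34 D)`).  Left: first two terms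
`≤ 2 D k² (λ + 1)`, third `≤ 132 · 2 r · 5 D k ℓ ≤ k²`.  Right `≥ a k² log (2 r)`
(`2 a - 1 ≥ a`), `a ≥ √D / 2`.  So it suffices that `log (2 r) > 4 √D (λ + 1) + 2`.
-/

namespace HZ3

open Finset HZ89

private theorem PA3_lognat {n k : ℕ} (hn : 1 ≤ n) (h : n ≤ 2 ^ k) : Real.log n ≤ k := by
  have h2 : Real.log 2 ≤ 1 := by
    have := Real.log_le_sub_one_of_pos (show (0 : ℝ) < 2 by norm_num)
    linarith
  have h3 : (n : ℝ) ≤ 2 ^ k := by exact_mod_cast h
  have h4 : Real.log n ≤ Real.log ((2 : ℝ) ^ k) :=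
    Real.log_le_log (by exact_mod_cast hn) h3
  rw [Real.log_pow] at h4
  have h5 : (k : ℝ) * Real.log 2 ≤ k * 1 := mul_le_mul_of_nonneg_left h2 (Nat.cast_nonneg k)
  linarith

private theorem PA3_core {k r a D S ℓ L Λ μ T : ℝ} (hk : 1 ≤ k) (hr : 1 ≤ r)
    (hrk : r * (1320 * D * L) ≤ k) (hℓ : 0 ≤ ℓ) (hℓL : ℓ ≤ L) (hL : 1 ≤ L) (ha : 1 ≤ a)
    (haD : a ^ 2 ≤ D) (hS : 1 ≤ S) (hS2 : S ^ 2 = D) (hSa : S ≤ 2 * a) (hΛ : 0 ≤ Λ) (hΛμ : Λ ≤ μ)
    (hT : 4 * S * (μ + 1) + 2 < T) :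
    (a * k) ^ 2 * (Λ + 1) + D * k ^ 2 * (Λ + 1) + 132 * (r + 1) * (a * k + 3 * r + D * k) * ℓ <
      (2 * (a * k) * k - k ^ 2) * T := by
  have hD : 1 ≤ D := by nlinarith
  have haD' : a ≤ D := by nlinarith
  have hk2 : 0 < k ^ 2 := by positivity
  have hμ : 0 ≤ μ := hΛ.trans hΛμ
  have h1 : (a * k) ^ 2 * (Λ + 1) ≤ D * k ^ 2 * (μ + 1) := by
    rw [mul_pow]
    have e1 : a ^ 2 * k ^ 2 ≤ D * k ^ 2 := mul_le_mul_of_nonneg_right haD hk2.le
    exact mul_le_mul e1 (by linarith) (by linarith) (by positivity)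
  have h2 : D * k ^ 2 * (Λ + 1) ≤ D * k ^ 2 * (μ + 1) :=
    mul_le_mul_of_nonneg_left (by linarith) (by positivity)
  have hrk' : r ≤ k := by
    have e1 : 1 ≤ 1320 * D * L := by nlinarith
    nlinarith
  have h3 : 132 * (r + 1) * (a * k + 3 * r + D * k) * ℓ ≤ k ^ 2 := by
    have e1 : a * k + 3 * r + D * k ≤ 5 * (D * k) := by
      have e2 : a * k ≤ D * k := mul_le_mul_of_nonneg_right haD' (by linarith)
      have e3 : k ≤ D * k := by nlinarith
      linarith
    have e2 : 132 * (r + 1) * (a * k + 3 * r + D * k) ≤ (132 * (2 * r)) * (5 * (D * k)) := by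
      refine mul_le_mul (by linarith) e1 (by positivity) (by positivity)
    have e3 : 132 * (r + 1) * (a * k + 3 * r + D * k) * ℓ ≤
        ((132 * (2 * r)) * (5 * (D * k))) * L :=
      mul_le_mul e2 hℓL hℓ (by positivity)
    have e4 : ((132 * (2 * r)) * (5 * (D * k))) * L = (r * (1320 * D * L)) * k := by ring
    have e5 : (r * (1320 * D * L)) * k ≤ k * k := mul_le_mul_of_nonneg_right hrk (by linarith)
    rw [e4] at e3
    nlinarith
  have hTpos : 0 < T := by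
    have : 0 ≤ 4 * S * (μ + 1) := by positivity
    linarith
  have h4 : a * k ^ 2 * T ≤ (2 * (a * k) * k - k ^ 2) * T := by
    refine mul_le_mul_of_nonneg_right ?_ hTpos.le
    have e1 : k ^ 2 ≤ a * k ^ 2 := by nlinarith
    nlinarith
  have h5 : a * k ^ 2 * (4 * S * (μ + 1) + 2) < a * k ^ 2 * T :=
    mul_lt_mul_of_pos_left hT (by positivity)
  have h6 : 2 * (D * k ^ 2 * (μ + 1)) ≤ a * k ^ 2 * (4 * S * (μ + 1)) := by
    have e1 : a * k ^ 2 * (4 * S * (μ + 1)) = (2 * a * S) * (2 * (k ^ 2 * (μ + 1))) := by ring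
    have e2 : 2 * (D * k ^ 2 * (μ + 1)) = (S * S) * (2 * (k ^ 2 * (μ + 1))) := by
      rw [← hS2]
      ring
    rw [e1, e2]
    refine mul_le_mul_of_nonneg_right ?_ (by positivity)
    exact mul_le_mul_of_nonneg_right hSa (by linarith)
  have h7 : k ^ 2 ≤ a * k ^ 2 := by nlinarith
  have h8 : a * k ^ 2 * (4 * S * (μ + 1) + 2) = a * k ^ 2 * (4 * S * (μ + 1)) + 2 * (a * k ^ 2) := by
    ring
  rw [h8] at h5
  linarith

theorem par3 : ∃ C : ℝ, 0 < C ∧ ∀ q m s : ℕ, 2 ≤ q → m ≤ q →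
    C * ((s : ℝ) + 1) ^ 2 * (q : ℝ) ^ (1 - 1 / (20 * Real.sqrt ((s : ℝ) + 1))) ≤ m →
      ∃ δ k r Q₁ Q₂ : ℕ, Adm q s m 1 1 δ k r Q₁ Q₂ := by
  refine ⟨Real.exp 40, Real.exp_pos _, fun q m s hq hmq hm => ?_⟩
  obtain ⟨D, hD⟩ : ∃ D : ℕ, D = s + 1 := ⟨_, rfl⟩
  have hDr : (D : ℝ) = (s : ℝ) + 1 := by
    rw [hD]
    push_cast
    ring
  rw [← hDr] at hm
  have hD1 : 1 ≤ D := by omega
  have hD1r : (1 : ℝ) ≤ D := by exact_mod_cast hD1
  have hDpos : (0 : ℝ) < D := by linarith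
  obtain ⟨S, hSdef⟩ : ∃ S : ℝ, S = Real.sqrt D := ⟨_, rfl⟩
  have hS2 : S ^ 2 = D := by rw [hSdef, Real.sq_sqrt hDpos.le]
  have hS1 : 1 ≤ S := by
    rw [hSdef]
    exact Real.one_le_sqrt.2 hD1r
  rw [← hSdef] at hm
  have hqr : (2 : ℝ) ≤ q := by exact_mod_cast hq
  have hqpos : (0 : ℝ) < q := by linarith
  obtain ⟨ℓ, hℓdef⟩ : ∃ ℓ : ℝ, ℓ = Real.log q := ⟨_, rfl⟩
  have hℓ : 0 < ℓ := by
    rw [hℓdef]
    exact Real.log_pos (by linarith)
  obtain ⟨L, hLdef⟩ : ∃ L : ℕ, L = ⌈ℓ⌉₊ := ⟨_, rfl⟩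
  have hL1 : 1 ≤ L := by
    rw [hLdef]
    exact Nat.one_le_ceil_iff.2 hℓ
  have hL2 : ℓ ≤ L := by
    rw [hLdef]
    exact Nat.le_ceil ℓ
  have hL3 : (L : ℝ) ≤ ℓ + 1 := by
    rw [hLdef]
    exact (Nat.ceil_lt_add_one hℓ.le).le
  have hL1r : (1 : ℝ) ≤ L := by exact_mod_cast hL1
  have hmpos : (0 : ℝ) < m := lt_of_lt_of_le (by positivity) hm
  obtain ⟨y, hy⟩ : ∃ y : ℝ, y = ℓ / (20 * S) := ⟨_, rfl⟩
  have hSy : S * y = ℓ / 20 := by
    rw [hy]
    field_simp
  have hy0 : 0 ≤ y := by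
    rw [hy]
    positivity
  have hyℓ : y ≤ ℓ / 20 := by nlinarith
  have key : 40 + 2 * Real.log D + (ℓ - y) ≤ Real.log m := by
    have h1 := Real.log_le_log (by positivity) hm
    rw [Real.log_mul (by positivity) (by positivity), Real.log_mul (by positivity) (by positivity),
      Real.log_exp, Real.log_pow, Real.log_rpow hqpos, ← hℓdef] at h1
    have h2 : (1 - 1 / (20 * S)) * ℓ = ℓ - y := by
      rw [hy]
      ring
    rw [h2] at h1
    push_cast at h1
    linarith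
  have hlm : Real.log m ≤ ℓ := by
    rw [hℓdef]
    exact Real.log_le_log hmpos (by exact_mod_cast hmq)
  have hlD : 0 ≤ Real.log D := Real.log_nonneg hD1r
  have hlog2 : Real.log 2 ≤ 1 := by
    have := Real.log_le_sub_one_of_pos (show (0 : ℝ) < 2 by norm_num)
    linarith
  have hLlog : Real.log L ≤ ℓ / 2 + 1 := by
    have h1 := Real.log_le_sub_one_of_pos (show (0 : ℝ) < (L : ℝ) / 2 by positivity)
    rw [Real.log_div (by positivity) (by norm_num)] at h1
    linarith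
  -- the natural numbers
  have hnat : 22440 * D ^ 2 * L ≤ m := by
    have h1 : Real.log ((22440 * D ^ 2 * L : ℕ) : ℝ) ≤ Real.log m := by
      push_cast
      rw [Real.log_mul (by positivity) (by positivity), Real.log_mul (by positivity) (by positivity),
        Real.log_pow]
      have h2 : Real.log (22440 : ℝ) ≤ 15 := by
        have := PA3_lognat (n := 22440) (k := 15) (by norm_num) (by norm_num)
        exact_mod_cast this
      push_cast
      linarith
    have h3 : ((22440 * D ^ 2 * L : ℕ) : ℝ) ≤ m := by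
      refine (Real.log_le_log_iff ?_ hmpos).1 h1
      have : 0 < 22440 * D ^ 2 * L := by positivity
      exact_mod_cast this
    exact_mod_cast h3
  obtain ⟨k, hk⟩ : ∃ k : ℕ, k = m / (17 * D) := ⟨_, rfl⟩
  have hkm : k * (17 * D) ≤ m := by
    rw [hk]
    exact Nat.div_mul_le_self _ _
  have hkm2 : m < (k + 1) * (17 * D) := by
    refine (Nat.div_lt_iff_lt_mul (by positivity)).1 ?_
    rw [← hk]
    exact Nat.lt_succ_self k
  have hDL : 1320 * D * L ≤ k := by
    rw [hk]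
    refine (Nat.le_div_iff_mul_le (by positivity)).2 ?_
    calc 1320 * D * L * (17 * D) = 22440 * D ^ 2 * L := by ring
      _ ≤ m := hnat
  have hk1 : 1 ≤ k := le_trans (by
    have : 0 < 1320 * D * L := by positivity
    omega) hDL
  obtain ⟨r, hr⟩ : ∃ r : ℕ, r = k / (1320 * D * L) := ⟨_, rfl⟩
  have hr1 : 1 ≤ r := by
    rw [hr]
    exact (Nat.le_div_iff_mul_le (by positivity)).2 (by simpa using hDL)
  have hrk : r * (1320 * D * L) ≤ k := by
    rw [hr]
    exact Nat.div_mul_le_self _ _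
  have hrk2 : k < (r + 1) * (1320 * D * L) := by
    refine (Nat.div_lt_iff_lt_mul (by positivity)).1 ?_
    rw [← hr]
    exact Nat.lt_succ_self r
  obtain ⟨a, ha⟩ : ∃ a : ℕ, a = Nat.sqrt D := ⟨_, rfl⟩
  have ha1 : 1 ≤ a := by
    rw [ha]
    exact Nat.sqrt_pos.2 (by omega)
  have haD : a * a ≤ D := by
    rw [ha]
    exact Nat.sqrt_le D
  have haD2 : D < (a + 1) * (a + 1) := by
    rw [ha]
    exact Nat.lt_succ_sqrt D
  have haDle : a ≤ D := le_trans (Nat.le_mul_self a) haD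
  have hk1r : (1 : ℝ) ≤ k := by exact_mod_cast hk1
  have hr1r : (1 : ℝ) ≤ r := by exact_mod_cast hr1
  have ha1r : (1 : ℝ) ≤ a := by exact_mod_cast ha1
  have hkq : k ≤ q := by
    have : k ≤ k * (17 * D) := Nat.le_mul_of_pos_right _ (by positivity)
    omega
  have hSa : S ≤ 2 * a := by
    have h1 : S ^ 2 ≤ (2 * (a : ℝ)) ^ 2 := by
      rw [hS2]
      have h2 : (D : ℝ) ≤ ((a : ℝ) + 1) * (a + 1) := by exact_mod_cast haD2.le
      nlinarith
    exact le_of_sq_le_sq h1 (by positivity)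
  obtain ⟨Q, hQ⟩ : ∃ Q : ℕ, Q = q / k + 1 := ⟨_, rfl⟩
  have hQk : q ≤ Q * k := by
    rw [hQ]
    exact ((Nat.div_lt_iff_lt_mul (by omega)).1 (Nat.lt_succ_self (q / k))).le
  have hQ1 : (1 : ℝ) ≤ Q := by
    rw [hQ]
    push_cast
    have : (0 : ℝ) ≤ ((q / k : ℕ) : ℝ) := Nat.cast_nonneg _
    linarith
  have hQr : (Q : ℝ) ≤ 2 * q / k := by
    rw [hQ]
    push_cast
    have h1 : ((q / k : ℕ) : ℝ) ≤ q / k := Nat.cast_div_le
    have h2 : (1 : ℝ) ≤ q / k := by
      rw [le_div_iff₀ (by linarith), one_mul]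
      exact_mod_cast hkq
    have h3 : 2 * (q : ℝ) / k = q / k + q / k := by ring
    rw [h3]
    linarith
  have hlk : Real.log m - Real.log D - 6 ≤ Real.log k := by
    have h1 : (m : ℝ) ≤ 34 * D * k := by
      have h2 : m ≤ 34 * D * k := by nlinarith
      exact_mod_cast h2
    have h3 := Real.log_le_log hmpos h1
    rw [Real.log_mul (by positivity) (by positivity), Real.log_mul (by positivity) (by positivity)]
      at h3
    have h2 : Real.log (34 : ℝ) ≤ 6 := by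
      have := PA3_lognat (n := 34) (k := 6) (by norm_num) (by norm_num)
      exact_mod_cast this
    linarith
  have hlogQ : Real.log Q ≤ 1 + ℓ - Real.log k := by
    have h1 := Real.log_le_log (by linarith) hQr
    rw [Real.log_div (by positivity) (by positivity), Real.log_mul (by norm_num) (by positivity),
      ← hℓdef] at h1
    linarith
  have hlogr : Real.log k - Real.log D - Real.log L - 11 ≤ Real.log (2 * r) := by
    have h1 : (k : ℝ) ≤ 1320 * D * L * (2 * r) := by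
      have h2 : k ≤ 1320 * D * L * (2 * r) := by
        have h3 : (r + 1) * (1320 * D * L) ≤ (2 * r) * (1320 * D * L) :=
          Nat.mul_le_mul_right _ (by omega)
        have h4 : (2 * r) * (1320 * D * L) = 1320 * D * L * (2 * r) := by ring
        omega
      exact_mod_cast h2
    have h3 := Real.log_le_log (by linarith) h1
    rw [Real.log_mul (by positivity) (by positivity), Real.log_mul (by positivity) (by positivity),
      Real.log_mul (by positivity) (by positivity)] at h3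
    have h2 : Real.log (1320 : ℝ) ≤ 11 := by
      have := PA3_lognat (n := 1320) (k := 11) (by norm_num) (by norm_num)
      exact_mod_cast this
    linarith
  have hy40 : 40 ≤ y := by linarith
  have hS800 : 40 * S ≤ ℓ / 20 := by nlinarith
  refine ⟨a * k, k, r, Q, Q, ?_, ?_, ?_, ?_, ?_, ?_, ?_⟩
  · exact hk1
  · exact Nat.le_mul_of_pos_left _ (by omega)
  · exact hr1
  · refine hQk.trans (Nat.mul_le_mul_left _ ?_)
    exact Nat.le_mul_of_pos_left _ (by omega)
  · exact hQk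
  · rw [← hD]
    have e1 : 6 * 1 * 1 * r * (1 * D + 1) ≤ k := by
      have e2 : r * (1320 * D * 1) ≤ r * (1320 * D * L) :=
        Nat.mul_le_mul_left _ (Nat.mul_le_mul_left _ hL1)
      have e3 : r * 1 ≤ r * D := Nat.mul_le_mul_left _ hD1
      nlinarith
    have e2 : a * k ≤ D * k := Nat.mul_le_mul_right _ haDle
    have e3 : 1 * k ≤ D * k := Nat.mul_le_mul_right _ hD1
    have e4 : k * (17 * D) = 17 * (D * k) := by ring
    have e5 : 2 * k * 1 * D = 2 * (D * k) := by ring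
    rw [e5]
    omega
  · have h := PA3_core (k := k) (r := r) (a := a) (D := D) (S := S) (ℓ := ℓ) (L := L)
      (Λ := Real.log Q) (μ := y) (T := Real.log (2 * r)) hk1r hr1r
      (by exact_mod_cast hrk) hℓ.le hL2 hL1r ha1r
      (by
        have : ((a * a : ℕ) : ℝ) ≤ D := by exact_mod_cast haD
        push_cast at this
        nlinarith) hS1 hS2 hSa (Real.log_nonneg hQ1) (by linarith) (by nlinarith)
    rw [← hDr, ← hℓdef]
    simp only [Nat.cast_one, one_mul, mul_one, Nat.cast_mul] at h ⊢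
    exact h

end HZ3
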