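import Pool.Agent.LibHZ3.Defs2

/-!
# Row SP1: polynomials of degree less than `d` in the node are in the span (SHORT/MEDIUM, 20 min)

`(bp q n k).eval (om q n j) = BB (q n) k j` for `j ≤ q n` (`HZ89.bp_eval`).  If `p` is not in
`Submodule.span ℝ (Set.range fun k : Fin d => bp q n k)`, there is a linear functional which is `0` on
the span and not on `p` (`Submodule.exists_le_ker_of_notMem`, or similar), against
`HZ89.bp_span`; or repeat the induction of the proof of `HZ89.bp_span` (file `LibHZ89/B1.lean`).
Then map by the linear map `p ↦ fun j => p.eval (om q n j)`.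
-/

namespace HZ3

open Finset HZ89 Polynomial

theorem poly_mem {q n s T₀ d K : ℕ} {Ms I : Finset ℕ} (hq : 1 ≤ q) (b : ℕ → Fin s → ℚ) (p : ℝ[X])
    (hp : p.natDegree < d) :
    (fun j : P q n I => p.eval (om q n j)) ∈ rsp q n s Ms T₀ d K b I := by
  by_contra hne
  obtain ⟨f, hf, hker⟩ := Submodule.exists_le_ker_of_notMem hne
  let E : ℝ[X] →ₗ[ℝ] (P q n I → ℝ) :=
    { toFun := fun p j => p.eval (om q n j)
      map_add' := fun x y => by
        funext j
        exact Polynomial.eval_add
      map_smul' := fun c x => by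
        funext j
        simp }
  refine hf (bp_span (q := q) (n := n) (d := d) hq (f.comp E) ?_ p hp)
  intro k hk
  have hmem : E (bp q n k) ∈ rsp q n s Ms T₀ d K b I := by
    refine Submodule.subset_span ⟨Sum.inl ⟨k, hk⟩, ?_⟩
    funext j
    change ((BB (q * n) k j : ℕ) : ℝ) = (bp q n k).eval (om q n j)
    refine (bp_eval hq ?_).symm
    have hj : (j : ℕ) ∈ P q n I := j.2
    unfold P at hj
    exact (Finset.mem_range.mp (Finset.mem_filter.mp hj).1).le
  exact hker hmem

end HZ3
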