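import Pool.Agent.LibHZ3.SP1
import Pool.Agent.LibHZ3.AN2
import Pool.Agent.LibHZ3.F2

/-!
# Row SP2: the terms `t < T₀` are in the span (MEDIUM, 30 min)

With `τ = (t + 1) / M`, `v = vv n τ`, `s = ss n τ`: `BB (q n) k j = (bp q n k).eval (om q n j)`,
`kap = s³ / (v + w)³ - 3 s / (v + w)²`, row AN2 for `p = bp q n k` (`HZ89.bp_natDegree`: degree
`k < d`), `v + om > 0`, and `1 / (v + om q n j)^(e+1) = (q M)^(2(e+1)) · 1 / AB^(e+1)` (`AB_eq` with
`t + 1`), a multiple of the row `Sum.inr (Sum.inl (M, t, e))`; the polynomial part by `poly_mem`.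
-/

namespace HZ3

open Finset HZ89 Polynomial

theorem head_mem {q n s T₀ d K : ℕ} {Ms I : Finset ℕ} (hq : 1 ≤ q)
    (hI : ∀ x ∈ I, 1 ≤ x ∧ 2 * x < q) (b : ℕ → Fin s → ℚ) {M k t : ℕ} (hM : M ∈ Ms) (hM1 : 1 ≤ M)
    (hk : k < d) (ht : t < T₀) :
    (fun j : P q n I => (BB (q * n) k j : ℝ) * kap n (((t : ℝ) + 1) / M) (om q n j)) ∈
      rsp q n s Ms T₀ d K b I := by
  have hqR : (0 : ℝ) < q := by exact_mod_cast hq
  have hMR : (0 : ℝ) < M := by exact_mod_cast hM1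
  set τ : ℝ := ((t : ℝ) + 1) / M with hτ
  have hτ0 : 0 < τ := by positivity
  have hdeg : (bp q n k).natDegree < d := by
    rw [bp_natDegree hq]; exact hk
  obtain ⟨p₁, hp₁, c₁, h₁⟩ := parfrac (bp q n k) hdeg (vv n τ) 2
  obtain ⟨p₂, hp₂, c₂, h₂⟩ := parfrac (bp q n k) hdeg (vv n τ) 1
  have hjle : ∀ j : P q n I, (j : ℕ) ≤ q * n := fun j =>
    (Finset.mem_range.1 (Finset.mem_filter.1 j.2).1).le
  have hD : ∀ j : P q n I, 0 < vv n τ + om q n j := by
    intro j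
    have h1 : 0 < vv n τ := by unfold vv; positivity
    have h2 : 0 ≤ om q n j := by
      unfold om
      have h3 : ((j : ℕ) : ℝ) ≤ q * n := by exact_mod_cast hjle j
      have h4 : ((j : ℕ) : ℝ) / q ≤ n := by
        rw [div_le_iff₀ hqR]; linarith
      have h5 : (0 : ℝ) ≤ ((j : ℕ) : ℝ) / q := by positivity
      exact mul_nonneg h5 (by linarith)
    linarith
  have hAB : ∀ j : P q n I, AB q n M (t + 1) j = ((q : ℝ) * M) ^ 2 * (vv n τ + om q n j) := by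
    intro j
    have h1 := AB_eq (n := n) (t := t + 1) (j := (j : ℕ)) hq hM1
    push_cast at h1
    exact h1
  -- the rows
  have hrow : ∀ e : Fin 3, (fun j : P q n I => 1 / (vv n τ + om q n j) ^ ((e : ℕ) + 1)) ∈
      rsp q n s Ms T₀ d K b I := by
    intro e
    have h1 : (fun j : P q n I => 1 / AB q n M (t + 1) j ^ ((e : ℕ) + 1)) ∈
        rsp q n s Ms T₀ d K b I :=
      Submodule.subset_span ⟨Sum.inr (Sum.inl (⟨M, hM⟩, ⟨t, ht⟩, e)), rfl⟩
    have h2 : (fun j : P q n I => 1 / (vv n τ + om q n j) ^ ((e : ℕ) + 1)) =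
        ((((q : ℝ) * M) ^ 2) ^ ((e : ℕ) + 1)) •
          (fun j : P q n I => 1 / AB q n M (t + 1) j ^ ((e : ℕ) + 1)) := by
      funext j
      rw [Pi.smul_apply, smul_eq_mul, hAB j, mul_pow (((q : ℝ) * M) ^ 2)]
      have h3 : (((q : ℝ) * M) ^ 2) ^ ((e : ℕ) + 1) ≠ 0 := by positivity
      rw [mul_one_div, div_mul_cancel_left₀ h3, one_div]
    rw [h2]
    exact Submodule.smul_mem _ _ h1
  have hfun : (fun j : P q n I => (BB (q * n) k j : ℝ) * kap n τ (om q n j)) =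
      (ss n τ ^ 3) • (fun j : P q n I => p₁.eval (om q n j)) +
      (-(3 * ss n τ)) • (fun j : P q n I => p₂.eval (om q n j)) +
      ∑ e : Fin 3, (ss n τ ^ 3 * c₁ e - 3 * ss n τ * c₂ e) •
        (fun j : P q n I => 1 / (vv n τ + om q n j) ^ ((e : ℕ) + 1)) := by
    funext j
    have e1 := h₁ (om q n j) (hD j).ne'
    have e2 := h₂ (om q n j) (hD j).ne'
    have e3 : (((2 : Fin 3) : ℕ) + 1) = 3 := rfl
    have e4 : (((1 : Fin 3) : ℕ) + 1) = 2 := rfl
    rw [e3] at e1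
    rw [e4] at e2
    rw [bp_eval hq (hjle j)] at e1 e2
    rw [Pi.add_apply, Pi.add_apply, Finset.sum_apply]
    simp only [Pi.smul_apply, smul_eq_mul]
    have e5 : (BB (q * n) k j : ℝ) * kap n τ (om q n j) =
        ss n τ ^ 3 * ((BB (q * n) k j : ℝ) / (vv n τ + om q n j) ^ 3) -
          3 * ss n τ * ((BB (q * n) k j : ℝ) / (vv n τ + om q n j) ^ 2) := by
      unfold kap
      ring
    have e6 : ∑ e : Fin 3, (ss n τ ^ 3 * c₁ e - 3 * ss n τ * c₂ e) *
        (1 / (vv n τ + om q n j) ^ ((e : ℕ) + 1)) =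
        ss n τ ^ 3 * (∑ e : Fin 3, c₁ e / (vv n τ + om q n j) ^ ((e : ℕ) + 1)) -
          3 * ss n τ * (∑ e : Fin 3, c₂ e / (vv n τ + om q n j) ^ ((e : ℕ) + 1)) := by
      rw [Finset.mul_sum, Finset.mul_sum, ← Finset.sum_sub_distrib]
      exact Finset.sum_congr rfl fun e _ => by ring
    rw [e5, e1, e2, e6]
    ring
  rw [hfun]
  exact Submodule.add_mem _ (Submodule.add_mem _
    (Submodule.smul_mem _ _ (poly_mem hq b p₁ hp₁))
    (Submodule.smul_mem _ _ (poly_mem hq b p₂ hp₂)))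
    (Submodule.sum_mem _ fun e _ => Submodule.smul_mem _ _ (hrow e))

end HZ3
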