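import Pool.Agent.LibHZ3.Core3
import Pool.Agent.LibHZ3.PA1
import Pool.Agent.LibHZ3.PA3

/-!
# Power saving

`core_V` with `Ms = {1}`, `X = 1`, and the parameters of `par1` and `par3`.
-/

namespace HZ3

open Finset HZ89

private theorem T1_card {q : ℕ} {I : Finset ℕ} (hI : ∀ x ∈ I, 1 ≤ x ∧ 2 * x < q) : I.card ≤ q := by
  have h : I ⊆ range q := fun x hx => Finset.mem_range.2 (by have := hI x hx; omega)
  simpa using Finset.card_le_card h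

private theorem T1_core {q s δ k r Q₁ Q₂ : ℕ} {I : Finset ℕ} (hq : 2 ≤ q)
    (hA : Adm q s I.card 1 1 δ k r Q₁ Q₂)
    (V : Submodule ℚ ℝ) (hV : Module.Finite ℚ V) (hs : Module.finrank ℚ V = s)
    (hI : ∀ x ∈ I, 1 ≤ x ∧ 2 * x < q ∧
        hur ((x : ℝ) / q) ∈ V ⊔ Submodule.span ℚ {(1 : ℝ)}) : False := by
  have hmod : ∀ x ∈ I, ∀ M ∈ ({1} : Finset ℕ), M * x % q = x := by
    intro x hx M hM
    rw [Finset.mem_singleton.1 hM, one_mul]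
    exact Nat.mod_eq_of_lt (by have := (hI x hx).2.1; omega)
  refine core_V (I := I) (Ms := {1}) (X := 1) hq
    (fun x hx => ⟨(hI x hx).1, (hI x hx).2.1⟩) ?_ ⟨1, Finset.mem_singleton_self 1⟩
    ?_ (by rw [Finset.card_singleton]; exact hA) V hV hs ?_
  · intro x hx M hM
    rw [hmod x hx M hM]
    have := (hI x hx).1
    omega
  · intro M hM
    rw [Finset.mem_singleton.1 hM]
    exact ⟨le_rfl, le_rfl⟩
  · intro x hx M hM
    rw [hmod x hx M hM]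
    exact (hI x hx).2.2

/-- for a fixed dimension -/
theorem T1 (s : ℕ) {ε : ℝ} (hε : 0 < ε) : ∃ C : ℝ, 0 < C ∧ ∀ q : ℕ, 2 ≤ q →
    ∀ V : Submodule ℚ ℝ, Module.Finite ℚ V → Module.finrank ℚ V = s → ∀ I : Finset ℕ,
      (∀ x ∈ I, 1 ≤ x ∧ 2 * x < q ∧
        hur ((x : ℝ) / q) ∈ V ⊔ Submodule.span ℚ {(1 : ℝ)}) →
      (I.card : ℝ) ≤ C * (q : ℝ) ^ (theta s + ε) := by
  obtain ⟨C, hC, h⟩ := par1 s hε
  refine ⟨C, hC, fun q hq V hV hs I hI => ?_⟩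
  by_contra hcon
  rw [not_le] at hcon
  obtain ⟨δ, k, r, Q₁, Q₂, hA⟩ := h q I.card hq
    (T1_card fun x hx => ⟨(hI x hx).1, (hI x hx).2.1⟩) hcon.le
  exact T1_core hq hA V hV hs hI

/-- uniformly in the dimension -/
theorem T1u : ∃ C : ℝ, 0 < C ∧ ∀ q : ℕ, 2 ≤ q →
    ∀ V : Submodule ℚ ℝ, Module.Finite ℚ V → ∀ I : Finset ℕ,
      (∀ x ∈ I, 1 ≤ x ∧ 2 * x < q ∧
        hur ((x : ℝ) / q) ∈ V ⊔ Submodule.span ℚ {(1 : ℝ)}) →
      (I.card : ℝ) ≤ C * ((Module.finrank ℚ V : ℝ) + 1) ^ 2 *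
        (q : ℝ) ^ (1 - 1 / (20 * Real.sqrt ((Module.finrank ℚ V : ℝ) + 1))) := by
  obtain ⟨C, hC, h⟩ := par3
  refine ⟨C, hC, fun q hq V hV I hI => ?_⟩
  by_contra hcon
  rw [not_le] at hcon
  obtain ⟨δ, k, r, Q₁, Q₂, hA⟩ := h q I.card (Module.finrank ℚ V) hq
    (T1_card fun x hx => ⟨(hI x hx).1, (hI x hx).2.1⟩) hcon.le
  exact T1_core hq hA V hV rfl hI

end HZ3
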