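import Pool.Agent.LibHZ3.Core3
import Pool.Agent.LibHZ3.PA2
import Pool.Agent.LibHZ3.NT1
import Pool.Agent.LibHZ3.NT2
import Pool.Agent.LibHZ3.CB

/-!
# Row T2: many values outside, the dimension (MEDIUM/STRONG, 50 min)

`T2`: first `ε ≤ 1/8` (otherwise use `ε = 1/8`: `q^(1/4 - ε) ≤ q^(1/8)`).  `η = ε / 8`,
`X = ⌊q^(1/4 - ε/2)⌋₊ ≥ 1`, `Ms` = the `M ≤ X` prime to `q` (contains `1`), `coprime_count` with
`κ = 1/8`, `totient_lower` with `η`, `c₁` = small (minimum of `c_NT2` and `c_NT1 / 4`), `c` from `par2`,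
then the `c` of the theorem is `≤` it and `≤ c_NT1 / 4`.  `G` = the set of the `x` with
`hur (x / q) ∉ W` (the claimed set), `I` as in row CB.  If `G.card < c q^(3/4)`:
`2 I.card ≥ φ(q) - 2 X G.card ≥ c_NT1 q^(1-η) - 2 c q^(1 - ε/2)`, so `I.card ≥ c₁ q^(1-η)`;
`par2` with `m = I.card` and `core_V` give a contradiction.  (`q ≥ 3` since `c < 1/2`.)
`T2dim`: `V` = the span; if `finrank + 1 ≤ c q^(1/4-ε)`, `T2` gives an `x` with `hur (x/q) ∉ V`.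
-/

namespace HZ3

open Finset HZ89

private theorem T2_small {ε : ℝ} (hε : 0 < ε) (hε1 : ε ≤ 1 / 8) : ∃ c : ℝ, 0 < c ∧ ∀ q : ℕ, 2 ≤ q →
    ∀ V : Submodule ℚ ℝ, Module.Finite ℚ V →
      (Module.finrank ℚ V : ℝ) + 1 ≤ c * (q : ℝ) ^ (1 / 4 - ε) → ∃ G : Finset ℕ,
        c * (q : ℝ) ^ ((3 : ℝ) / 4) ≤ G.card ∧ ∀ x ∈ G, 1 ≤ x ∧ 2 * x < q ∧ x.Coprime q ∧
          hur ((x : ℝ) / q) ∉ V ⊔ Submodule.span ℚ {(1 : ℝ)} := by
  classical
  set η : ℝ := ε / 8 with hη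
  have hη0 : 0 < η := by positivity
  obtain ⟨c₂, hc₂, hcop⟩ := coprime_count (κ := 1 / 8) (by norm_num) hη0
  obtain ⟨c₃, hc₃, htot⟩ := totient_lower hη0
  set c₁ : ℝ := min c₂ (c₃ / 4) with hc₁
  have hc₁0 : 0 < c₁ := lt_min hc₂ (by positivity)
  obtain ⟨cp, hcp0, hcp1, hpar⟩ := par2 hε hε1 hη0 (by rw [hη]; linarith) hc₁0
  refine ⟨min cp (c₃ / 4), lt_min hcp0 (by positivity), fun q hq V hV hs => ?_⟩
  set c : ℝ := min cp (c₃ / 4) with hc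
  have hc0 : 0 < c := lt_min hcp0 (by positivity)
  have hq1 : (1 : ℝ) ≤ q := by
    have : 1 ≤ q := by omega
    exact_mod_cast this
  have hq0 : (0 : ℝ) < q := by linarith
  have hs' : (Module.finrank ℚ V : ℝ) + 1 ≤ cp * (q : ℝ) ^ (1 / 4 - ε) :=
    hs.trans (mul_le_mul_of_nonneg_right (min_le_left _ _) (by positivity))
  have hq3 : 3 ≤ q := by
    rcases Nat.lt_or_ge q 3 with h | h
    · exfalso
      have h2 : q = 2 := by omega
      subst h2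
      have h3 : ((2 : ℕ) : ℝ) ^ (1 / 4 - ε) ≤ 2 := by
        push_cast
        calc (2 : ℝ) ^ (1 / 4 - ε) ≤ 2 ^ (1 : ℝ) := Real.rpow_le_rpow_of_exponent_le (by norm_num) (by linarith)
          _ = 2 := Real.rpow_one 2
      have h4 : (0 : ℝ) ≤ (Module.finrank ℚ V : ℝ) := Nat.cast_nonneg _
      have h5 : (0 : ℝ) ≤ ((2 : ℕ) : ℝ) ^ (1 / 4 - ε) := by positivity
      nlinarith
    · exact h
  set a : ℝ := (q : ℝ) ^ (1 / 4 - ε / 2) with ha
  have ha1 : 1 ≤ a := Real.one_le_rpow hq1 (by linarith)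
  set X : ℕ := ⌊a⌋₊ with hX
  have hXa : (X : ℝ) ≤ a := Nat.floor_le (by linarith)
  have hX1 : 1 ≤ X := Nat.le_floor (by exact_mod_cast ha1)
  have hX1' : (1 : ℝ) ≤ X := by exact_mod_cast hX1
  have haX : a ≤ 2 * X := by
    have := Nat.lt_floor_add_one a
    rw [← hX] at this
    linarith
  have haq : a ≤ q := by
    calc a ≤ (q : ℝ) ^ (1 : ℝ) := Real.rpow_le_rpow_of_exponent_le hq1 (by linarith)
      _ = q := Real.rpow_one _
  have hXq : X ≤ q := by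
    have h := hXa.trans haq
    exact_mod_cast h
  have hκ : (q : ℝ) ^ (1 / 8 : ℝ) ≤ 2 * X :=
    (Real.rpow_le_rpow_of_exponent_le hq1 (by linarith)).trans haX
  set Ms : Finset ℕ := (Icc 1 X).filter fun M => M.Coprime q with hMsd
  have hMs : ∀ M ∈ Ms, 1 ≤ M ∧ M ≤ X ∧ M.Coprime q := by
    intro M hM
    obtain ⟨h1, h2⟩ := Finset.mem_filter.1 hM
    obtain ⟨h3, h4⟩ := Finset.mem_Icc.1 h1
    exact ⟨h3, h4, h2⟩
  have hMs1 : 1 ∈ Ms := Finset.mem_filter.2 ⟨Finset.mem_Icc.2 ⟨le_rfl, hX1⟩, Nat.coprime_one_left q⟩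
  have hMsX : Ms.card ≤ X := by
    refine (Finset.card_filter_le _ _).trans ?_
    rw [Nat.card_Icc]
    omega
  have hMsc : c₁ * X * (q : ℝ) ^ (-η) ≤ Ms.card := by
    refine le_trans ?_ (hcop q X hq hκ hX1 hXq)
    refine mul_le_mul_of_nonneg_right ?_ (by positivity)
    exact mul_le_mul_of_nonneg_right (min_le_left _ _) (Nat.cast_nonneg _)
  set W : Submodule ℚ ℝ := V ⊔ Submodule.span ℚ {(1 : ℝ)} with hW
  set G : Finset ℕ := (range q).filter fun x => 1 ≤ x ∧ 2 * x < q ∧ x.Coprime q ∧ hur ((x : ℝ) / q) ∉ W with hGd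
  set I : Finset ℕ := (range q).filter fun x => 1 ≤ x ∧ 2 * x < q ∧ x.Coprime q ∧
      ∀ M ∈ Ms, hur (((M * x % q : ℕ) : ℝ) / q) ∈ W with hId
  have hG : ∀ x, x ∈ G ↔ 1 ≤ x ∧ 2 * x < q ∧ x.Coprime q ∧ hur ((x : ℝ) / q) ∉ W := by
    intro x
    rw [hGd, Finset.mem_filter, Finset.mem_range]
    constructor
    · intro h
      exact h.2
    · intro h
      exact ⟨by omega, h⟩
  have hI : ∀ x, x ∈ I ↔ 1 ≤ x ∧ 2 * x < q ∧ x.Coprime q ∧
      ∀ M ∈ Ms, hur (((M * x % q : ℕ) : ℝ) / q) ∈ W := by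
    intro x
    rw [hId, Finset.mem_filter, Finset.mem_range]
    constructor
    · intro h
      exact h.2
    · intro h
      exact ⟨by omega, h⟩
  refine ⟨G, ?_, fun x hx => (hG x).1 hx⟩
  by_contra hlt
  push Not at hlt
  have hcb := count_bad hq3 Ms (fun M hM => (hMs M hM).2.2) W I G hI hG
  have hIq : I.card ≤ q := by
    refine (Finset.card_filter_le _ _).trans ?_
    rw [Finset.card_range]
  have hIlow : c₁ * (q : ℝ) ^ (1 - η) ≤ I.card := by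
    have h1 := htot q (by omega)
    have h2 : (q.totient : ℝ) ≤ 2 * (I.card + Ms.card * G.card) := by exact_mod_cast hcb
    have h3 : (Ms.card : ℝ) * G.card ≤ c₃ / 4 * (q : ℝ) ^ (1 - η) := by
      have h4 : (Ms.card : ℝ) ≤ a := le_trans (by exact_mod_cast hMsX) hXa
      calc (Ms.card : ℝ) * G.card ≤ a * (c * (q : ℝ) ^ ((3 : ℝ) / 4)) :=
            mul_le_mul h4 hlt.le (Nat.cast_nonneg _) (by linarith)
        _ = c * (q : ℝ) ^ (1 - ε / 2) := by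
            have h5 : a * (q : ℝ) ^ ((3 : ℝ) / 4) = (q : ℝ) ^ (1 - ε / 2) := by
              rw [ha, ← Real.rpow_add hq0]
              congr 1
              ring
            rw [← h5]
            ring
        _ ≤ c₃ / 4 * (q : ℝ) ^ (1 - η) := by
            refine mul_le_mul (min_le_right _ _) ?_ (by positivity) (by positivity)
            exact Real.rpow_le_rpow_of_exponent_le hq1 (by rw [hη]; linarith)
    have h6 : c₁ * (q : ℝ) ^ (1 - η) ≤ c₃ / 4 * (q : ℝ) ^ (1 - η) :=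
      mul_le_mul_of_nonneg_right (min_le_right _ _) (by positivity)
    have h7 : (0 : ℝ) ≤ (q : ℝ) ^ (1 - η) := by positivity
    nlinarith
  obtain ⟨δ, k, r, Q₁, Q₂, hA⟩ := hpar q I.card (Module.finrank ℚ V) X Ms.card hq hIq hIlow haX hXa hMsc hMsX hs'
  refine core_V hq (fun x hx => ?_) (fun x hx M hM h0 => ?_) ⟨1, hMs1⟩
    (fun M hM => ⟨(hMs M hM).1, (hMs M hM).2.1⟩) hA V hV rfl (fun x hx M hM => ?_)
  · have h := (hI x).1 hx
    exact ⟨h.1, h.2.1⟩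
  · have h := (hI x).1 hx
    have h1 : q ∣ M * x := Nat.dvd_of_mod_eq_zero h0
    have h2 : q ∣ x := ((hMs M hM).2.2.symm).dvd_of_dvd_mul_left h1
    have h3 := Nat.le_of_dvd (by omega) h2
    omega
  · exact ((hI x).1 hx).2.2.2 M hM

theorem T2 {ε : ℝ} (hε : 0 < ε) : ∃ c : ℝ, 0 < c ∧ ∀ q : ℕ, 2 ≤ q →
    ∀ V : Submodule ℚ ℝ, Module.Finite ℚ V →
      (Module.finrank ℚ V : ℝ) + 1 ≤ c * (q : ℝ) ^ (1 / 4 - ε) → ∃ G : Finset ℕ,
        c * (q : ℝ) ^ ((3 : ℝ) / 4) ≤ G.card ∧ ∀ x ∈ G, 1 ≤ x ∧ 2 * x < q ∧ x.Coprime q ∧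
          hur ((x : ℝ) / q) ∉ V ⊔ Submodule.span ℚ {(1 : ℝ)} := by
  obtain ⟨c, hc, h⟩ := T2_small (ε := min ε (1 / 8)) (lt_min hε (by norm_num)) (min_le_right _ _)
  refine ⟨c, hc, fun q hq V hV hs => h q hq V hV (hs.trans ?_)⟩
  refine mul_le_mul_of_nonneg_left ?_ hc.le
  have hq1 : (1 : ℝ) ≤ q := by
    have : 1 ≤ q := by omega
    exact_mod_cast this
  refine Real.rpow_le_rpow_of_exponent_le hq1 ?_
  have := min_le_left ε (1 / 8)
  linarith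

theorem T2dim {ε : ℝ} (hε : 0 < ε) : ∃ c : ℝ, 0 < c ∧ ∀ q : ℕ, 2 ≤ q →
    ∀ V : Submodule ℚ ℝ, Module.Finite ℚ V →
      (∀ x : ℕ, 1 ≤ x → 2 * x < q → x.Coprime q → hur ((x : ℝ) / q) ∈ V) →
      c * (q : ℝ) ^ (1 / 4 - ε) < (Module.finrank ℚ V : ℝ) + 1 := by
  obtain ⟨c, hc, h⟩ := T2 hε
  refine ⟨c, hc, fun q hq V hV hall => ?_⟩
  by_contra hle
  push Not at hle
  obtain ⟨G, hG, hx⟩ := h q hq V hV hle
  have hq0 : (0 : ℝ) < q := by
    have : 0 < q := by omega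
    exact_mod_cast this
  have hpos : (0 : ℝ) < G.card := lt_of_lt_of_le (by positivity) hG
  have hne : G.Nonempty := by
    rw [← Finset.card_pos]
    exact_mod_cast hpos
  obtain ⟨x, hxG⟩ := hne
  obtain ⟨h1, h2, h3, h4⟩ := hx x hxG
  exact h4 ((le_sup_left : V ≤ V ⊔ Submodule.span ℚ {(1 : ℝ)}) (hall x h1 h2 h3))

end HZ3
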