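import Pool.Agent.LibHZ3.T1
import Pool.Agent.LibHZ89.Cor

/-!
# Row T3: by height (SHORT/MEDIUM, 20 min)

Copy the proof of `HZ89.height` (file `LibHZ89/Cor.lean`) with `T1` in place of `main`: for each `q ≤ Q` at most `C q^(theta + ε) ≤ C Q^(theta + ε)`
(`theta s ≥ 0`).
-/

namespace HZ3

open Finset HZ89

theorem T3 (s : ℕ) {ε : ℝ} (hε : 0 < ε) : ∃ C : ℝ, 0 < C ∧ ∀ Q : ℕ, 1 ≤ Q →
    ∀ V : Submodule ℚ ℝ, Module.Finite ℚ V → Module.finrank ℚ V = s → ∀ R : Finset ℚ,
      (∀ y ∈ R, 0 < y ∧ y < 1 / 2 ∧ y.den ≤ Q ∧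
        hur (y : ℝ) ∈ V ⊔ Submodule.span ℚ {(1 : ℝ)}) →
      (R.card : ℝ) ≤ C * (Q : ℝ) ^ (1 + theta s + ε) := by
  classical
  obtain ⟨C, hC, hT⟩ := T1 s hε
  refine ⟨C, hC, fun Q hQ V hV hs R hR => ?_⟩
  have hQ0 : (0 : ℝ) < Q := by exact_mod_cast hQ
  have hθ : 0 ≤ theta s := by
    unfold theta
    have h1 : 0 ≤ Real.sqrt (4 * s + 5) := Real.sqrt_nonneg _
    have h2 : 2 / (3 + Real.sqrt (4 * s + 5)) ≤ 1 := by
      rw [div_le_one (by linarith)]
      linarith
    linarith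
  have hcard : R.card ≤ ∑ q ∈ Icc 3 Q, (R.filter fun y => y.den = q).card := by
    rw [← Finset.card_biUnion]
    · refine Finset.card_le_card fun y hy => ?_
      obtain ⟨h0, h1, h2, -⟩ := hR y hy
      have h3 : 3 ≤ y.den := by
        by_contra hcon
        push Not at hcon
        have hpos : 0 < y.num := Rat.num_pos.2 h0
        have hy2 : y * y.den = y.num := Rat.mul_den_eq_num y
        have h5 : (1 : ℚ) ≤ y.num := by exact_mod_cast hpos
        have h6 : (y.den : ℚ) ≤ 2 := by exact_mod_cast (by omega : y.den ≤ 2)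
        nlinarith
      rw [mem_biUnion]
      exact ⟨y.den, mem_Icc.2 ⟨h3, h2⟩, mem_filter.2 ⟨hy, rfl⟩⟩
    · intro a _ b _ hab
      rw [Function.onFun, Finset.disjoint_left]
      intro y hy1 hy2
      exact hab ((mem_filter.1 hy1).2.symm.trans (mem_filter.1 hy2).2)
  have hone : ∀ q ∈ Icc 3 Q, ((R.filter fun y => y.den = q).card : ℝ) ≤
      C * (Q : ℝ) ^ (theta s + ε) := by
    intro q hq
    rw [mem_Icc] at hq
    have hq3 : (3 : ℝ) ≤ q := by exact_mod_cast hq.1
    have hqQ : (q : ℝ) ≤ Q := by exact_mod_cast hq.2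
    obtain ⟨F, hF⟩ : ∃ F, F = R.filter fun y => y.den = q := ⟨_, rfl⟩
    rw [← hF]
    have hinj : Set.InjOn (fun y : ℚ => y.num.toNat) F := by
      intro y hy z hz hyz
      rw [Finset.mem_coe, hF, mem_filter] at hy hz
      have h1 : 0 < y.num := Rat.num_pos.2 (hR y hy.1).1
      have h2 : 0 < z.num := Rat.num_pos.2 (hR z hz.1).1
      have h3 : y.num = z.num := by
        simp only at hyz
        omega
      exact Rat.ext h3 (hy.2.trans hz.2.symm)
    have h := hT q (by omega) V hV hs (F.image fun y => y.num.toNat) (by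
      intro x hx
      rw [mem_image] at hx
      obtain ⟨y, hy, rfl⟩ := hx
      rw [hF, mem_filter] at hy
      obtain ⟨h0, h1, h2, h3⟩ := hR y hy.1
      have hpos : 0 < y.num := Rat.num_pos.2 h0
      have hcast : ((y.num.toNat : ℕ) : ℤ) = y.num := Int.toNat_of_nonneg hpos.le
      have hyq : y * q = y.num := by
        rw [← hy.2]
        exact Rat.mul_den_eq_num y
      refine ⟨by omega, ?_, ?_⟩
      · have h5 : (2 : ℚ) * (y.num.toNat : ℕ) < q := by
          have h6 : ((y.num.toNat : ℕ) : ℚ) = y.num := by exact_mod_cast hcast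
          have hq0 : (0 : ℚ) < q := by exact_mod_cast (by omega : 0 < q)
          rw [h6, ← hyq]
          nlinarith
        exact_mod_cast h5
      · have h6 : (((y.num.toNat : ℕ) : ℝ)) / q = (y : ℝ) := by
          have h7 : ((y.num.toNat : ℕ) : ℝ) = ((y.num : ℤ) : ℝ) := by exact_mod_cast hcast
          rw [h7, ← hy.2]
          have h8 := congrArg (fun z : ℚ => (z : ℝ)) (Rat.num_div_den y)
          push_cast at h8
          exact h8
        rw [h6]
        exact h3)
    rw [card_image_of_injOn hinj] at h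
    refine h.trans (mul_le_mul_of_nonneg_left ?_ hC.le)
    exact Real.rpow_le_rpow (by linarith) hqQ (by linarith)
  calc (R.card : ℝ) ≤ ∑ q ∈ Icc 3 Q, ((R.filter fun y => y.den = q).card : ℝ) := by
        exact_mod_cast hcard
    _ ≤ ∑ _q ∈ Icc 3 Q, C * (Q : ℝ) ^ (theta s + ε) := Finset.sum_le_sum hone
    _ = ((Q + 1 - 3 : ℕ) : ℝ) * (C * (Q : ℝ) ^ (theta s + ε)) := by
        rw [Finset.sum_const, Nat.card_Icc, nsmul_eq_mul]
    _ ≤ (Q : ℝ) * (C * (Q : ℝ) ^ (theta s + ε)) := by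
        refine mul_le_mul_of_nonneg_right ?_ (by positivity)
        exact_mod_cast (by omega : Q + 1 - 3 ≤ Q)
    _ = C * (Q : ℝ) ^ (1 + theta s + ε) := by
        rw [add_assoc, Real.rpow_add hQ0 1 (theta s + ε), Real.rpow_one]
        ring

end HZ3
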