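import Pool.Agent.LibHZ3.T2
import Pool.Agent.LibHZ89.Fam

/-!
# Row T4: even periodic functions (MEDIUM, 30 min)

As `HZ89.rank_ge` and `HZ89.family` (file `LibHZ89/Fam.lean`): the rank of the family `V.mkQ (ZZ q i)`
is `card κ`, and with `U` the span of the `v (a k)` all `S q x` (hence all `hur (x / q)`) are in
`V ⊔ U`, of dimension at most `finrank V + card κ`; `T2dim` gives
`c q^(1/4 - ε) < finrank V + card κ + 1`.
-/

namespace HZ3

open Finset HZ89

/-- The rank of the values modulo `V`. -/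
private theorem T4_rank {q : ℕ} (hq : 2 ≤ q) {B : ℝ} (hmain : ∀ V : Submodule ℚ ℝ,
    Module.Finite ℚ V → (∀ x : ℕ, 1 ≤ x → 2 * x < q → x.Coprime q → hur ((x : ℝ) / q) ∈ V) →
      B < (Module.finrank ℚ V : ℝ) + 1) (V : Submodule ℚ ℝ) (hV : Module.Finite ℚ V) {ι : Type}
    [Fintype ι] (v : ι → ℝ) (hv : ∀ x : ℕ, 1 ≤ x → 2 * x < q → ∃ i, v i = S q x) :
    B - Module.finrank ℚ V - 1 ≤
      Module.finrank ℚ (Submodule.span ℚ (Set.range fun i => V.mkQ (v i))) := by
  classical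
  obtain ⟨κ, a, ha, hspan, hli⟩ := exists_linearIndependent' ℚ (fun i => V.mkQ (v i))
  have : Finite κ := Finite.of_injective a ha
  have : Fintype κ := Fintype.ofFinite κ
  have hr : Module.finrank ℚ (Submodule.span ℚ (Set.range fun i => V.mkQ (v i))) =
      Fintype.card κ := by
    rw [← hspan]
    exact finrank_span_eq_card hli
  rw [hr]
  set U : Submodule ℚ ℝ := Submodule.span ℚ (Set.range fun k => v (a k)) with hU
  have : FiniteDimensional ℚ V := hV
  have hUfin : FiniteDimensional ℚ U := FiniteDimensional.span_of_finite ℚ (Set.finite_range _)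
  have hVU : FiniteDimensional ℚ (V ⊔ U : Submodule ℚ ℝ) := Submodule.finiteDimensional_sup _ _
  have hfr : Module.finrank ℚ (V ⊔ U : Submodule ℚ ℝ) ≤ Module.finrank ℚ V + Fintype.card κ := by
    refine (Submodule.finrank_add_le_finrank_add_finrank _ _).trans ?_
    have h := finrank_range_le_card (R := ℚ) (fun k => v (a k))
    rw [Set.finrank] at h
    exact Nat.add_le_add_left h _
  have hmem : ∀ i, v i ∈ V ⊔ U := by
    intro i
    have h1 : V.mkQ (v i) ∈ Submodule.span ℚ (Set.range ((fun i => V.mkQ (v i)) ∘ a)) := by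
      rw [hspan]
      exact Submodule.subset_span ⟨i, rfl⟩
    have h2 : Submodule.span ℚ (Set.range ((fun i => V.mkQ (v i)) ∘ a)) = U.map V.mkQ := by
      rw [hU, Submodule.map_span, ← Set.range_comp]
      rfl
    rw [h2] at h1
    obtain ⟨w, hw, hw2⟩ := h1
    have h3 : v i - w ∈ V := by
      rw [← Submodule.ker_mkQ V, LinearMap.mem_ker, map_sub, hw2, sub_self]
    have h4 : v i = (v i - w) + w := by ring
    rw [h4]
    exact Submodule.add_mem_sup h3 hw
  have hq0 : (0 : ℝ) < q := by exact_mod_cast (by omega : 0 < q)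
  have h8 := hmain (V ⊔ U) hVU (by
    intro x hx hx2 _
    obtain ⟨i, hi⟩ := hv x hx hx2
    have h5 := hmem i
    rw [hi, S_eq hx (by omega)] at h5
    have h6 := (V ⊔ U).smul_mem ((q : ℚ) ^ 3) h5
    rw [Rat.smul_def] at h6
    push_cast at h6
    have h7 : (q : ℝ) ^ 3 * (1 / (q : ℝ) ^ 3 * hur ((x : ℝ) / q)) = hur ((x : ℝ) / q) := by
      field_simp
    rwa [h7] at h6)
  have hfr' : (Module.finrank ℚ (V ⊔ U : Submodule ℚ ℝ) : ℝ) ≤
      Module.finrank ℚ V + Fintype.card κ := by exact_mod_cast hfr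
  linarith

theorem T4 {ε : ℝ} (hε : 0 < ε) : ∃ c : ℝ, 0 < c ∧ ∀ q : ℕ, 2 ≤ q →
    ∀ V : Submodule ℚ ℝ, Module.Finite ℚ V → ∀ T : Finset ℚ, 2 ≤ T.card →
    ∀ F : Finset (ZMod q → ℚ), (∀ f ∈ F, (∀ j, f j ∈ T) ∧ (∀ j, f (-j) = f j) ∧
      ∑' n : ℕ, (f (n : ZMod q) : ℝ) / (n : ℝ) ^ 3 ∈ V) →
      (F.card : ℝ) ≤ (T.card : ℝ) ^
        (((q / 2 + 1 : ℕ) : ℝ) + Module.finrank ℚ V + 1 - c * (q : ℝ) ^ (1 / 4 - ε)) := by
  obtain ⟨c, hc0, hc⟩ := T2dim hε
  refine ⟨c, hc0, fun q hq V hV T hT F hF => ?_⟩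
  classical
  have : NeZero q := ⟨by omega⟩
  have hrank := T4_rank hq (fun V hV h => hc q hq V hV h) V hV (fun i : Fin (q / 2 + 1) => ZZ q i) (fun x h1 h2 => ZZ_eq h1 h2)
  set r := Module.finrank ℚ (Submodule.span ℚ
    (Set.range fun i : Fin (q / 2 + 1) => V.mkQ (ZZ q i))) with hr
  have hcard := coset_card (fun i : Fin (q / 2 + 1) => V.mkQ (ZZ q i)) 0 T
    (F.image fun f => fun i : Fin (q / 2 + 1) => f ((i : ℕ) : ZMod q)) (by
      intro g hg
      rw [mem_image] at hg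
      obtain ⟨f, hf, rfl⟩ := hg
      obtain ⟨h1, h2, h3⟩ := hF f hf
      refine ⟨fun i => h1 _, ?_⟩
      rw [L3_eq f h2] at h3
      have h4 : V.mkQ (∑ i : Fin (q / 2 + 1), (f ((i : ℕ) : ZMod q)) • ZZ q i) = 0 := by
        rw [← LinearMap.mem_ker, Submodule.ker_mkQ]
        simpa only [Rat.smul_def] using h3
      rw [map_sum] at h4
      simpa only [map_smul] using h4)
  rw [card_image_of_injOn, Fintype.card_fin, ← hr] at hcard
  · have hT0 : (0 : ℝ) < T.card := by exact_mod_cast (by omega : 0 < T.card)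
    have hT1 : (1 : ℝ) ≤ T.card := by exact_mod_cast (by omega : 1 ≤ T.card)
    have h1 : (F.card : ℝ) * (T.card : ℝ) ^ r ≤ (T.card : ℝ) ^ (q / 2 + 1) := by exact_mod_cast hcard
    calc (F.card : ℝ) ≤ (T.card : ℝ) ^ (q / 2 + 1) / (T.card : ℝ) ^ r := by
          rw [le_div_iff₀ (by positivity)]
          exact h1
      _ = (T.card : ℝ) ^ (((q / 2 + 1 : ℕ) : ℝ) - (r : ℝ)) := by
          rw [Real.rpow_sub hT0, Real.rpow_natCast, Real.rpow_natCast]
      _ ≤ _ := by
          refine Real.rpow_le_rpow_of_exponent_le hT1 ?_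
          linarith
  · intro f hf g hg hfg
    rw [Finset.mem_coe] at hf hg
    ext j
    rw [← cls_eq f (hF f hf).2.1 j, ← cls_eq g (hF g hg).2.1 j]
    exact congrFun hfg (cls q j)

end HZ3
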