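import Pool.Agent.LibHZ3.Defs
import Pool.Agent.LibHZ6Z.ZeroW

/-!
# The zero estimate (helper5)
-/

namespace HZ3

open Finset HZ89 Polynomial

theorem zero_est3 {q n s T₀ d K : ℕ} {I Ms : Finset ℕ} (hq : 2 ≤ q) (hn : 1 ≤ n)
    (hI : ∀ x ∈ I, 1 ≤ x ∧ 2 * x < q)
    (hM : ∀ M ∈ Ms, 1 ≤ M ∧ M ≤ T₀) (hKd : K ≤ d) (hK : 1 ≤ K)
    (hdeg : 6 * (Ms.card * T₀) * (Ms.card * (s + 1) + 1) + 2 * d + 2 * K * (Ms.card * (s + 1)) +
      I.card * (Ms.card * (s + 1)) + 10 ≤ I.card * n)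
    (b₀ : ℕ → ℚ) (b : ℕ → Fin s → ℚ) (F : ℝ[X]) (hF : F.natDegree ≤ 6 * (Ms.card * T₀) + 2 * d)
    (u : ℕ → ℝ[X]) (u' : ℕ → Fin s → ℝ[X]) (hu : ∀ M ∈ Ms, (u M).natDegree < K)
    (hu' : ∀ M ∈ Ms, ∀ i, (u' M i).natDegree < K)
    (h : ∀ j ∈ P q n I, F.eval (j : ℝ) / (ZP q n Ms T₀).eval (j : ℝ) ^ 3 +
      ∑ M ∈ Ms, ((b₀ (M * j % q) : ℝ) - psM q n M j) * (u M).eval (om q n j) +
      ∑ M ∈ Ms, ∑ i, (b (M * j % q) i : ℝ) * (u' M i).eval (om q n j) = 0) :
    ∀ M ∈ Ms, u M = 0 := by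
  classical
  have hn1 := hn
  set B : Finset ℝ[X] := Ms.image u ∪ (Ms ×ˢ (univ : Finset (Fin s))).image (fun p => u' p.1 p.2)
    with hB
  set W : Submodule ℝ ℝ[X] := Submodule.span ℝ (B : Set ℝ[X]) with hW
  have : Module.Finite ℝ W := Module.Finite.span_finset ℝ B
  have hfin : Module.finrank ℝ W ≤ Ms.card * (s + 1) := by
    refine (finrank_span_finset_le_card B).trans ?_
    refine (card_union_le _ _).trans ?_
    have h1 : (Ms.image u).card ≤ Ms.card := card_image_le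
    have h2 : ((Ms ×ˢ (univ : Finset (Fin s))).image (fun p => u' p.1 p.2)).card ≤ Ms.card * s := by
      refine card_image_le.trans ?_
      rw [card_product, card_univ, Fintype.card_fin]
    rw [mul_add, mul_one]
    omega
  have huW : ∀ M ∈ Ms, u M ∈ W := fun M hM' =>
    Submodule.subset_span (mem_coe.2 (mem_union_left _ (mem_image_of_mem u hM')))
  have hu'W : ∀ M ∈ Ms, ∀ i, u' M i ∈ W := fun M hM' i =>
    Submodule.subset_span (mem_coe.2 (mem_union_right _ (mem_image.2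
      ⟨(M, i), mem_product.2 ⟨hM', mem_univ _⟩, rfl⟩)))
  have hdegW : ∀ p ∈ W, p.natDegree < K := by
    have h1 : W ≤ degreeLT ℝ K := by
      rw [hW, Submodule.span_le]
      intro p hp
      rw [mem_coe, hB, mem_union, mem_image, mem_image] at hp
      have h2 : ∀ p : ℝ[X], p.natDegree < K → p ∈ degreeLT ℝ K := by
        intro p hp
        rw [mem_degreeLT]
        exact lt_of_le_of_lt degree_le_natDegree (by exact_mod_cast hp)
      rcases hp with ⟨M, hM', rfl⟩ | ⟨⟨M, i⟩, hMi, rfl⟩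
      · exact h2 _ (hu M hM')
      · exact h2 _ (hu' M (mem_product.1 hMi).1 i)
    intro p hp
    have h2 := mem_degreeLT.1 (h1 hp)
    by_cases h0 : p = 0
    · rw [h0, natDegree_zero]
      omega
    · exact (natDegree_lt_iff_degree_lt h0).2 h2
  set w : ℕ → ℝ[X] := fun x => ∑ M ∈ Ms, (b₀ (M * x % q) : ℝ) • u M +
    ∑ M ∈ Ms, ∑ i, (b (M * x % q) i : ℝ) • u' M i with hw
  have hwW : ∀ x ∈ I, w x ∈ W := by
    intro x _
    refine W.add_mem (W.sum_mem fun M hM' => W.smul_mem _ (huW M hM')) ?_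
    exact W.sum_mem fun M hM' => W.sum_mem fun i _ => W.smul_mem _ (hu'W M hM' i)
  refine HZ6Z.zeroW (q := q) (n := n) (T := T₀) (d := d) (K := K) (I := I) (Ms := Ms)
    (S := Module.finrank ℝ W) (by omega) hM
    hI W rfl hdegW u huW w hwW F hF ?_ ?_
  · intro j hj
    have h1 := h j hj
    have hmod : ∀ M : ℕ, M * (j % q) % q = M * j % q := fun M => by
      rw [Nat.mul_mod, Nat.mod_mod, ← Nat.mul_mod]
    have h2 : (w (j % q)).eval (om q n j) =
        ∑ M ∈ Ms, (b₀ (M * j % q) : ℝ) * (u M).eval (om q n j) +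
        ∑ M ∈ Ms, ∑ i, (b (M * j % q) i : ℝ) * (u' M i).eval (om q n j) := by
      simp only [hw, eval_add, eval_finsetSum, eval_smul, smul_eq_mul, hmod]
    have hps : ∀ M, HZ6Z.psM q n M j = psM q n M j := fun M => rfl
    have hZP : HZ6Z.ZP q n Ms T₀ = ZP q n Ms T₀ := rfl
    rw [h2, hZP]
    simp only [hps]
    have h3 : ∑ M ∈ Ms, ((b₀ (M * j % q) : ℝ) - psM q n M j) * (u M).eval (om q n j) =
        ∑ M ∈ Ms, (b₀ (M * j % q) : ℝ) * (u M).eval (om q n j) -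
        ∑ M ∈ Ms, psM q n M j * (u M).eval (om q n j) := by
      rw [← sum_sub_distrib]
      exact sum_congr rfl fun M _ => by ring
    rw [h3] at h1
    linarith
  · obtain ⟨S, hS⟩ : ∃ S, Module.finrank ℝ W = S := ⟨_, rfl⟩
    obtain ⟨S', hS'⟩ : ∃ S', Ms.card * (s + 1) = S' := ⟨_, rfl⟩
    rw [hS, hS'] at hfin
    rw [hS'] at hdeg
    rw [hS, max_eq_left hKd]
    show 6 * (Ms.card * T₀) * (S + 1) + 2 * d + 2 * (S * K) < I.card * (n - S)
    have h1 : 6 * (Ms.card * T₀) * (S + 1) ≤ 6 * (Ms.card * T₀) * (S' + 1) :=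
      Nat.mul_le_mul_left _ (by omega)
    have h2 : 2 * (S * K) ≤ 2 * K * S' := by
      calc 2 * (S * K) = 2 * K * S := by ring
        _ ≤ 2 * K * S' := Nat.mul_le_mul_left _ hfin
    have h3 : I.card * S ≤ I.card * S' := Nat.mul_le_mul_left _ hfin
    rw [Nat.mul_sub]
    omega

end HZ3
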